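import Mathlib

/-!
# The Bloch-Wigner function

A primitive of `-log (1 - z) / z` on the plane slit along `[1, ∞)` is obtained on the unit disc
(uniformized by the square root of `1 - z`); the Bloch-Wigner function is its imaginary part plus
`arg (1 - z) * log |z|` there, and is extended by the functional equation.
-/

namespace P4a177b

open Complex Set Metric

/-- A primitive of `-log (1 - z) / z`. -/
theorem exists_dilog : ∃ L : ℂ → ℂ, ∀ z : ℂ, z ≠ 0 → 1 - z ∈ slitPlane →
    HasDerivAt L (-Complex.log (1 - z) / z) z := by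
  -- the right half plane as a disc
  set q : ℂ → ℂ := fun w => (1 - w) / (1 + w) with hq
  have hne : ∀ w ∈ ball (0 : ℂ) 1, (1 + w) ≠ 0 := by
    intro w hw h
    have h1 : w = -1 := by linear_combination h
    rw [h1, mem_ball_zero_iff, norm_neg, norm_one] at hw
    exact lt_irrefl _ hw
  have hqre : ∀ w ∈ ball (0 : ℂ) 1, 0 < (q w).re := by
    intro w hw
    have h1 : normSq w < 1 := by
      rw [mem_ball_zero_iff] at hw
      rw [normSq_eq_norm_sq]
      have := norm_nonneg w
      nlinarith
    have h2 : 0 < normSq (1 + w) := normSq_pos.2 (hne w hw)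
    rw [hq]
    simp only [div_re, sub_re, one_re, add_re, sub_im, one_im, add_im]
    rw [← add_div]
    refine div_pos ?_ h2
    rw [normSq_apply] at h1
    nlinarith
  have hqd : DifferentiableOn ℂ q (ball 0 1) := by
    intro w hw
    exact (((differentiableAt_const _).sub differentiableAt_id).div
      ((differentiableAt_const _).add differentiableAt_id) (hne w hw)).differentiableWithinAt
  have hlogq : DifferentiableOn ℂ (fun w => Complex.log (q w)) (ball 0 1) := by
    intro w hw
    exact (hqd w hw).clog (Or.inl (hqre w hw))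
  have hG : DifferentiableOn ℂ
      (fun w => -2 * q w * dslope (fun w => Complex.log (q w)) 0 w) (ball 0 1) := by
    refine (((differentiableOn_const _).mul hqd)).mul ?_
    exact (Complex.differentiableOn_dslope (ball_mem_nhds 0 one_pos)).2 hlogq
  obtain ⟨P, hP⟩ := hG.isExactOn_ball
  refine ⟨fun z => P ((1 - Complex.exp (Complex.log (1 - z) / 2)) /
    (1 + Complex.exp (Complex.log (1 - z) / 2))), fun z hz hs => ?_⟩
  set ℓ := Complex.log (1 - z) with hℓ
  set u := Complex.exp (ℓ / 2) with hu
  have h1z : 1 - z ≠ 0 := slitPlane_ne_zero hs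
  have hu2 : u ^ 2 = 1 - z := by
    rw [hu, ← Complex.exp_nat_mul]
    rw [← Complex.exp_log h1z, ← hℓ]
    congr 1
    push_cast
    ring
  have hure : 0 < u.re := by
    rw [hu, Complex.exp_re]
    refine mul_pos (Real.exp_pos _) (Real.cos_pos_of_mem_Ioo ?_)
    have h1 : (ℓ / 2).im = ℓ.im / 2 := by
      rw [show (2 : ℂ) = ((2 : ℝ) : ℂ) by norm_num, Complex.div_ofReal_im]
    rw [h1, hℓ, Complex.log_im]
    have h2 := Complex.neg_pi_lt_arg (1 - z)
    have h3 : arg (1 - z) < Real.pi := (Complex.arg_lt_pi_iff.2 (by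
      rcases hs with h | h
      · exact Or.inl h.le
      · exact Or.inr h))
    constructor <;> linarith
  have hu1 : 1 + u ≠ 0 := by
    intro h
    have := congrArg Complex.re h
    simp at this
    linarith
  have hw : (1 - u) / (1 + u) ∈ ball (0 : ℂ) 1 := by
    rw [mem_ball_zero_iff, norm_div, div_lt_one (norm_pos_iff.2 hu1)]
    rw [← sq_lt_sq₀ (norm_nonneg _) (norm_nonneg _), ← normSq_eq_norm_sq, ← normSq_eq_norm_sq,
      normSq_apply, normSq_apply]
    simp only [sub_re, one_re, add_re, sub_im, one_im, add_im]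
    nlinarith
  have hqw : q ((1 - u) / (1 + u)) = u := by
    rw [hq]
    field_simp
    ring
  have hw0 : (1 - u) / (1 + u) ≠ 0 := by
    intro h
    rw [div_eq_zero_iff] at h
    rcases h with h | h
    · have : u = 1 := by linear_combination -h
      rw [this] at hu2
      apply hz
      linear_combination hu2
    · exact hu1 h
  have hlogu : Complex.log u = ℓ / 2 := by
    rw [hu]
    have h1 : (ℓ / 2).im = ℓ.im / 2 := by
      rw [show (2 : ℂ) = ((2 : ℝ) : ℂ) by norm_num, Complex.div_ofReal_im]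
    have h2 := Complex.neg_pi_lt_arg (1 - z)
    have h3 := Complex.arg_le_pi (1 - z)
    have h4 := Real.pi_pos
    refine Complex.log_exp ?_ ?_
    · rw [h1, hℓ, Complex.log_im]; linarith
    · rw [h1, hℓ, Complex.log_im]; linarith
  have hq0 : Complex.log (q 0) = 0 := by
    rw [hq]
    simp
  have hval : (fun w => -2 * q w * dslope (fun w => Complex.log (q w)) 0 w)
      ((1 - u) / (1 + u)) = -2 * u * (((1 - u) / (1 + u))⁻¹ * (ℓ / 2)) := by
    simp only []
    rw [dslope_of_ne _ hw0, slope_def_module, hqw, hq0, hlogu]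
    simp
  have hPd := hP _ hw
  rw [hval] at hPd
  have hU : HasDerivAt (fun z => Complex.exp (Complex.log (1 - z) / 2))
      (u * (-1 / (1 - z) / 2)) z := by
    have h1 : HasDerivAt (fun z : ℂ => 1 - z) (-1) z := by
      simpa using (hasDerivAt_id z).const_sub 1
    exact ((h1.clog hs).div_const 2).cexp
  have hQ : HasDerivAt (fun z => (1 - Complex.exp (Complex.log (1 - z) / 2)) /
      (1 + Complex.exp (Complex.log (1 - z) / 2)))
      ((-(u * (-1 / (1 - z) / 2)) * (1 + u) - (1 - u) * (u * (-1 / (1 - z) / 2))) /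
        (1 + u) ^ 2) z := by
    exact (hU.const_sub 1).div (hU.const_add 1) hu1
  have hfin := HasDerivAt.comp z hPd hQ
  have hu0 : u ≠ 0 := Complex.exp_ne_zero _
  have hu1' : 1 - u ≠ 0 := by
    intro h
    exact hw0 (by rw [h, zero_div])
  have hz' : z = (1 - u) * (1 + u) := by linear_combination hu2
  have hval2 : -ℓ / z = -2 * u * (((1 - u) / (1 + u))⁻¹ * (ℓ / 2)) *
      ((-(u * (-1 / (1 - z) / 2)) * (1 + u) - (1 - u) * (u * (-1 / (1 - z) / 2))) /
        (1 + u) ^ 2) := by
    rw [← hu2, hz']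
    field_simp
    ring
  rw [hval2]
  exact hfin

/-- Derivative of the logarithm of the absolute value along a curve. -/
theorem hasDerivAt_log_norm {z : ℝ → ℂ} {t : ℝ} {z' : ℂ} (hz : HasDerivAt z z' t)
    (h0 : z t ≠ 0) : HasDerivAt (fun s => Real.log ‖z s‖) (z' / z t).re t := by
  rcases mem_slitPlane_or_neg_mem_slitPlane h0 with h | h
  · have h1 := hz.clog_real h
    have h2 := Complex.reCLM.hasFDerivAt.comp_hasDerivAt t h1
    simpa [Function.comp_def, Complex.log_re] using h2
  · have h1 := hz.neg.clog_real h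
    have h2 := Complex.reCLM.hasFDerivAt.comp_hasDerivAt t h1
    simpa [Function.comp_def, Complex.log_re, neg_div_neg_eq] using h2

/-- The derivative of the function in the slit plane. -/
theorem hasDerivAt_D1 {L : ℂ → ℂ} (hL : ∀ z : ℂ, z ≠ 0 → 1 - z ∈ slitPlane →
    HasDerivAt L (-Complex.log (1 - z) / z) z) {z : ℝ → ℂ} {t : ℝ} {z' : ℂ}
    (hz : HasDerivAt z z' t) (h0 : z t ≠ 0) (h1 : 1 - z t ∈ slitPlane) :
    HasDerivAt (fun s => (L (z s)).im + Complex.arg (1 - z s) * Real.log ‖z s‖)
      (Real.log ‖z t‖ * (-z' / (1 - z t)).im - Real.log ‖1 - z t‖ * (z' / z t).im) t := by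
  have e1 : HasDerivAt (fun s => (L (z s)).im) ((z' • (-Complex.log (1 - z t) / z t)).im) t := by
    have h2 := (hL (z t) h0 h1).scomp t hz
    exact Complex.imCLM.hasFDerivAt.comp_hasDerivAt t h2
  have e2 : HasDerivAt (fun s => Complex.arg (1 - z s)) (-z' / (1 - z t)).im t := by
    have h2 := (hz.const_sub 1).clog_real h1
    have h3 := Complex.imCLM.hasFDerivAt.comp_hasDerivAt t h2
    simpa [Function.comp_def, Complex.log_im] using h3
  have e3 := hasDerivAt_log_norm hz h0
  have e4 := e1.add (e2.mul e3)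
  refine e4.congr_deriv ?_
  have h5 : z' • (-Complex.log (1 - z t) / z t) = -(Complex.log (1 - z t) * (z' / z t)) := by
    rw [smul_eq_mul]
    ring
  rw [h5, Complex.neg_im, Complex.mul_im, Complex.log_re, Complex.log_im]
  ring

/-- There is a function `D` on the complex plane (the Bloch-Wigner dilogarithm) whose
derivative along every curve `z` avoiding `0` and `1` is
`log|z| d arg(1 - z) - log|1 - z| d arg z`. -/
theorem exists_blochWigner : ∃ D : ℂ → ℝ, ∀ (z : ℝ → ℂ) (t : ℝ) (z' : ℂ),
    HasDerivAt z z' t → z t ≠ 0 → z t ≠ 1 →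
    HasDerivAt (fun s => D (z s))
      (Real.log ‖z t‖ * (-z' / (1 - z t)).im - Real.log ‖1 - z t‖ * (z' / z t).im) t := by
  classical
  obtain ⟨L, hL⟩ := exists_dilog
  set D1 : ℂ → ℝ := fun z => (L z).im + Complex.arg (1 - z) * Real.log ‖z‖ with hD1
  have hD1d : ∀ (z : ℝ → ℂ) (t : ℝ) (z' : ℂ), HasDerivAt z z' t → z t ≠ 0 →
      1 - z t ∈ slitPlane → HasDerivAt (fun s => D1 (z s))
      (Real.log ‖z t‖ * (-z' / (1 - z t)).im - Real.log ‖1 - z t‖ * (z' / z t).im) t :=
    fun z t z' hz h0 h1 => hasDerivAt_D1 hL hz h0 h1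
  have hD2d : ∀ (z : ℝ → ℂ) (t : ℝ) (z' : ℂ), HasDerivAt z z' t → z t ≠ 1 →
      z t ∈ slitPlane → HasDerivAt (fun s => -D1 (1 - z s))
      (Real.log ‖z t‖ * (-z' / (1 - z t)).im - Real.log ‖1 - z t‖ * (z' / z t).im) t := by
    intro z t z' hz h0 h1
    have h2 := (hD1d (fun s => 1 - z s) t (-z') (hz.const_sub 1) (sub_ne_zero.2 h0.symm)
      (by simpa using h1)).neg
    refine h2.congr_deriv ?_
    rw [sub_sub_cancel, neg_neg]
    ring
  -- the functional equation
  have hsum : ∀ w : ℂ, w ∈ slitPlane → 1 - w ∈ slitPlane → D1 w + D1 (1 - w) = 2 * D1 (1 / 2) := by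
    intro w hw hw'
    set γ : ℝ → ℂ := fun s => 1 / 2 + (s : ℂ) * (w - 1 / 2) with hγ
    have hγd : ∀ s, HasDerivAt γ (w - 1 / 2) s := by
      intro s
      have h1 : HasDerivAt (fun s : ℝ => (s : ℂ)) 1 s := Complex.ofRealCLM.hasDerivAt
      have h2 := (h1.mul_const (w - 1 / 2)).const_add (1 / 2)
      rw [one_mul] at h2
      exact h2
    have hpos : (0 : ℝ) < 1 / 2 := by norm_num
    have hmem : ∀ v ∈ slitPlane, ∀ s ∈ Icc (0 : ℝ) 1, 1 / 2 + (s : ℂ) * (v - 1 / 2) ∈ slitPlane := by
      intro v hv s hs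
      have h1 := starConvex_ofReal_slitPlane hpos hv (a := 1 - s) (b := s) (by linarith [hs.2])
        hs.1 (by ring)
      have h2 : (1 - s) • (((1 / 2 : ℝ)) : ℂ) + s • v = 1 / 2 + (s : ℂ) * (v - 1 / 2) := by
        rw [Complex.real_smul, Complex.real_smul]
        push_cast
        ring
      rw [← h2]
      exact h1
    have hE : ∀ s ∈ Icc (0 : ℝ) 1, HasDerivAt (fun s => D1 (γ s) - -D1 (1 - γ s)) 0 s := by
      intro s hs
      have g1 : γ s ∈ slitPlane := hmem w hw s hs
      have g2 : 1 - γ s ∈ slitPlane := by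
        have h3 := hmem (1 - w) hw' s hs
        have h4 : 1 - γ s = 1 / 2 + (s : ℂ) * (1 - w - 1 / 2) := by
          rw [hγ]
          ring
        rw [h4]
        exact h3
      have h1 := hD1d γ s _ (hγd s) (slitPlane_ne_zero g1) g2
      have h2 := hD2d γ s _ (hγd s) (by
        intro h
        rw [h, sub_self] at g2
        exact slitPlane_ne_zero g2 rfl) g1
      have h3 := h1.sub h2
      rw [sub_self] at h3
      exact h3
    have hconst := (convex_Icc (0 : ℝ) 1).norm_image_sub_le_of_norm_hasDerivWithin_le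
      (f := fun s => D1 (γ s) - -D1 (1 - γ s)) (f' := fun _ => 0) (C := 0)
      (fun s hs => (hE s hs).hasDerivWithinAt) (fun s _ => by simp)
      (left_mem_Icc.2 zero_le_one) (right_mem_Icc.2 zero_le_one)
    rw [zero_mul] at hconst
    have h5 := norm_le_zero_iff.1 hconst
    have h6 : γ 1 = w := by rw [hγ]; simp
    have h7 : γ 0 = 1 / 2 := by rw [hγ]; simp
    rw [h6, h7] at h5
    have h8 : (1 : ℂ) - 1 / 2 = 1 / 2 := by norm_num
    rw [h8] at h5
    linarith
  set c := D1 (1 / 2) with hc
  refine ⟨fun z => if 1 - z ∈ slitPlane then D1 z - c else -D1 (1 - z) + c, ?_⟩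
  intro z t z' hz h0 h1
  by_cases hs : 1 - z t ∈ slitPlane
  · have h2 := (hD1d z t z' hz h0 hs).sub_const c
    refine h2.congr_of_eventuallyEq ?_
    have h3 : ∀ᶠ s in nhds t, 1 - z s ∈ slitPlane :=
      (continuousAt_const.sub hz.continuousAt).eventually_mem (isOpen_slitPlane.mem_nhds hs)
    filter_upwards [h3] with s hs'
    simp only [hs', if_true]
  · have hzs : z t ∈ slitPlane := by
      rw [mem_slitPlane_iff] at hs ⊢
      push Not at hs
      left
      have := hs.1
      simp at this
      linarith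
    have h2 := (hD2d z t z' hz h1 hzs).add_const c
    refine h2.congr_of_eventuallyEq ?_
    have h3 : ∀ᶠ s in nhds t, z s ∈ slitPlane :=
      hz.continuousAt.eventually_mem (isOpen_slitPlane.mem_nhds hzs)
    filter_upwards [h3] with s hs'
    by_cases h4 : 1 - z s ∈ slitPlane
    · simp only [h4, if_true]
      have := hsum (z s) hs' h4
      linarith
    · simp only [h4, if_false]

end P4a177b
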