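import Pool.Agent.Lib.P4a177b.K2
import Pool.Agent.Lib.P4a177b.BW

/-!
# The regulator pairing of K_2 of a field with generic loops
-/

namespace P4a177b

open scoped TensorProduct Real
open MeasureTheory

noncomputable section

/-- A generic loop on (the complex points of) a field `K` of characteristic zero: a `C¹` family of
embeddings of `K` into `ℂ`, periodic of period `2π`. If `K` is the function field of a curve over
`ℚ`, an embedding of `K` in `ℂ` is a complex point of the curve which is not algebraic. -/
structure GenericLoop (K : Type*) [Field K] where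
  /-- the point of the loop at time `t` -/
  emb : ℝ → K →+* ℂ
  /-- every function of `K` is continuously differentiable along the loop -/
  contDiff : ∀ f : K, ContDiff ℝ 1 fun t => emb t f
  /-- the loop is closed -/
  periodic : ∀ (f : K) (t : ℝ), emb (t + 2 * π) f = emb t f

/-- The differential form `log|u| d arg w - log|w| d arg u`. -/
def etaForm (u w : ℝ → ℂ) (t : ℝ) : ℝ :=
  Real.log ‖u t‖ * (deriv w t / w t).im - Real.log ‖w t‖ * (deriv u t / u t).im

variable {K : Type*} [Field K]

/-- The regulator integral of a pair of functions over a generic loop. -/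
def regFun (γ : GenericLoop K) (a b : Kˣ) : ℝ :=
  ∫ t in (0 : ℝ)..(2 * π), etaForm (fun t => γ.emb t a) (fun t => γ.emb t b) t

theorem GenericLoop.ne_zero (γ : GenericLoop K) (a : Kˣ) (t : ℝ) : γ.emb t (a : K) ≠ 0 :=
  (map_ne_zero (γ.emb t)).2 a.ne_zero

theorem GenericLoop.differentiable (γ : GenericLoop K) (a : K) :
    Differentiable ℝ (fun t => γ.emb t a) :=
  (γ.contDiff a).differentiable (by norm_num)

theorem GenericLoop.continuous (γ : GenericLoop K) (a : K) :
    Continuous (fun t => γ.emb t a) :=
  (γ.contDiff a).continuous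

theorem GenericLoop.continuous_deriv (γ : GenericLoop K) (a : K) :
    Continuous (deriv (fun t => γ.emb t a)) :=
  (γ.contDiff a).continuous_deriv (by norm_num)

theorem continuous_logNorm (γ : GenericLoop K) (a : Kˣ) :
    Continuous (fun t => Real.log ‖γ.emb t (a : K)‖) :=
  Continuous.log (γ.continuous _).norm (fun t => norm_ne_zero_iff.2 (γ.ne_zero a t))

theorem continuous_dArg (γ : GenericLoop K) (a : Kˣ) :
    Continuous (fun t => (deriv (fun t => γ.emb t (a : K)) t / γ.emb t (a : K)).im) :=
  Complex.continuous_im.comp ((γ.continuous_deriv _).div (γ.continuous _) (γ.ne_zero a))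

theorem continuous_eta (γ : GenericLoop K) (a b : Kˣ) :
    Continuous (etaForm (fun t => γ.emb t (a : K)) (fun t => γ.emb t (b : K))) := by
  unfold etaForm
  exact ((continuous_logNorm γ a).mul (continuous_dArg γ b)).sub
    ((continuous_logNorm γ b).mul (continuous_dArg γ a))

theorem logNorm_mul (γ : GenericLoop K) (a b : Kˣ) (t : ℝ) :
    Real.log ‖γ.emb t ((a * b : Kˣ) : K)‖ =
      Real.log ‖γ.emb t (a : K)‖ + Real.log ‖γ.emb t (b : K)‖ := by
  rw [Units.val_mul, map_mul, norm_mul,
    Real.log_mul (norm_ne_zero_iff.2 (γ.ne_zero a t)) (norm_ne_zero_iff.2 (γ.ne_zero b t))]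

theorem dArg_mul (γ : GenericLoop K) (a b : Kˣ) (t : ℝ) :
    (deriv (fun t => γ.emb t ((a * b : Kˣ) : K)) t / γ.emb t ((a * b : Kˣ) : K)).im =
      (deriv (fun t => γ.emb t (a : K)) t / γ.emb t (a : K)).im +
      (deriv (fun t => γ.emb t (b : K)) t / γ.emb t (b : K)).im := by
  have h : (fun t => γ.emb t ((a * b : Kˣ) : K)) =
      fun t => γ.emb t (a : K) * γ.emb t (b : K) := by
    funext s; rw [Units.val_mul, map_mul]
  rw [h, deriv_fun_mul (γ.differentiable _ t) (γ.differentiable _ t), ← Complex.add_im,
    Units.val_mul, map_mul]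
  have ha := γ.ne_zero a t
  have hb := γ.ne_zero b t
  congr 1
  field_simp

theorem eta_mul_left (γ : GenericLoop K) (a b c : Kˣ) (t : ℝ) :
    etaForm (fun t => γ.emb t ((a * b : Kˣ) : K)) (fun t => γ.emb t (c : K)) t =
      etaForm (fun t => γ.emb t (a : K)) (fun t => γ.emb t (c : K)) t +
      etaForm (fun t => γ.emb t (b : K)) (fun t => γ.emb t (c : K)) t := by
  unfold etaForm
  rw [logNorm_mul, dArg_mul]
  ring

theorem eta_swap (u w : ℝ → ℂ) (t : ℝ) : etaForm u w t = -etaForm w u t := by
  unfold etaForm
  ring

theorem regFun_mul_left (γ : GenericLoop K) (a b c : Kˣ) :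
    regFun γ (a * b) c = regFun γ a c + regFun γ b c := by
  unfold regFun
  rw [← intervalIntegral.integral_add ((continuous_eta γ a c).intervalIntegrable _ _)
    ((continuous_eta γ b c).intervalIntegrable _ _)]
  exact intervalIntegral.integral_congr (fun t _ => eta_mul_left γ a b c t)

theorem regFun_swap (γ : GenericLoop K) (a b : Kˣ) : regFun γ a b = -regFun γ b a := by
  unfold regFun
  rw [← intervalIntegral.integral_neg]
  exact intervalIntegral.integral_congr (fun t _ => eta_swap _ _ t)

theorem regFun_mul_right (γ : GenericLoop K) (a b c : Kˣ) :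
    regFun γ a (b * c) = regFun γ a b + regFun γ a c := by
  rw [regFun_swap, regFun_mul_left, regFun_swap γ b a, regFun_swap γ c a]
  ring

theorem regFun_steinberg (γ : GenericLoop K) (a b : Kˣ) (hab : (a : K) + (b : K) = 1) :
    regFun γ a b = 0 := by
  obtain ⟨D, hD⟩ := exists_blochWigner
  have hb : ∀ t, γ.emb t (b : K) = 1 - γ.emb t (a : K) := by
    intro t
    have h : (b : K) = 1 - a := by rw [← hab]; ring
    rw [h, map_sub, map_one]
  have hne1 : ∀ t, γ.emb t (a : K) ≠ 1 := by
    intro t h
    apply γ.ne_zero b t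
    rw [hb, h, sub_self]
  have hder : ∀ t, HasDerivAt (fun s => D (γ.emb s (a : K)))
      (etaForm (fun t => γ.emb t (a : K)) (fun t => γ.emb t (b : K)) t) t := by
    intro t
    have h1 : HasDerivAt (fun t => γ.emb t (a : K)) (deriv (fun t => γ.emb t (a : K)) t) t :=
      (γ.differentiable _ t).hasDerivAt
    have h2 := hD _ t _ h1 (γ.ne_zero a t) (hne1 t)
    have h3 : deriv (fun t => γ.emb t (b : K)) t = -deriv (fun t => γ.emb t (a : K)) t := by
      have : (fun t => γ.emb t (b : K)) = fun t => 1 - γ.emb t (a : K) := by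
        funext s; exact hb s
      rw [this, deriv_const_sub]
    unfold etaForm
    beta_reduce
    rw [h3, hb t]
    exact h2
  unfold regFun
  rw [intervalIntegral.integral_eq_sub_of_hasDerivAt (fun t _ => hder t)
    ((continuous_eta γ a b).intervalIntegrable _ _)]
  have h := γ.periodic (a : K) 0
  rw [zero_add] at h
  rw [h, sub_self]

/-- The regulator pairing with a generic loop `γ`: the homomorphism `K₂(K) → ℝ` sending `{a, b}` to
the integral of `log|a| d arg b - log|b| d arg a` along `γ`. -/
def reg (γ : GenericLoop K) : K2 K →+ ℝ :=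
  liftK2 (regFun γ) (regFun_mul_left γ) (regFun_mul_right γ) (regFun_steinberg γ)

theorem reg_symb (γ : GenericLoop K) (a b : Kˣ) : reg γ (symb a b) = regFun γ a b := rfl

end

end P4a177b
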