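import Pool.Agent.Lib.P4a177b.Tame
import Pool.Agent.Lib.P4a177b.Reg

/-!
# Curves near line arrangements
-/

namespace P4a177b

open MvPolynomial

noncomputable section

/-- An arrangement of `D` lines `a i * x + b i * y + c i = 0` in the affine plane with integral
coefficients: every equation is primitive, lines which are not parallel meet in an integral point,
parallel lines are disjoint, no point lies on three of the lines, and the lines are not all
parallel. -/
structure Arr (D : ℕ) where
  /-- coefficients of `x` -/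
  a : Fin D → ℤ
  /-- coefficients of `y` -/
  b : Fin D → ℤ
  /-- constant coefficients -/
  c : Fin D → ℤ
  prim : ∀ i, IsCoprime (a i) (b i)
  node : ∀ i j, a i * b j - a j * b i ≠ 0 →
    ∃ x y : ℤ, a i * x + b i * y + c i = 0 ∧ a j * x + b j * y + c j = 0
  par : ∀ i j, i ≠ j → a i * b j - a j * b i = 0 → ∀ x y : ℂ,
    ¬ ((a i : ℂ) * x + b i * y + c i = 0 ∧ (a j : ℂ) * x + b j * y + c j = 0)
  gen : ∀ i j k, i ≠ j → j ≠ k → i ≠ k → ∀ x y : ℂ,
    ¬ ((a i : ℂ) * x + b i * y + c i = 0 ∧ (a j : ℂ) * x + b j * y + c j = 0 ∧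
      (a k : ℂ) * x + b k * y + c k = 0)
  dir : ∃ i j, a i * b j - a j * b i ≠ 0

variable {D : ℕ} (A : Arr D)

/-- The determinant of the directions of two lines. It vanishes iff the lines are parallel. -/
def Arr.lam (i j : Fin D) : ℤ := A.a i * A.b j - A.a j * A.b i

/-- The value of the `i`-th linear form at `(x, y)`. -/
def Arr.form {R : Type*} [CommRing R] (i : Fin D) (x y : R) : R :=
  (A.a i : R) * x + (A.b i : R) * y + (A.c i : R)

/-- The equation `N * ∏ l_i - 1` of the curve. -/
def Arr.eqn (N : ℕ) : MvPolynomial (Fin 2) ℚ :=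
  (N : MvPolynomial (Fin 2) ℚ) * ∏ i, A.form i (X 0) (X 1) - 1

/-- The coordinate ring `ℚ[x, y] / (N * ∏ l_i - 1)` of the affine curve `N * ∏ l_i = 1`. -/
abbrev Arr.CoordRing (N : ℕ) : Type :=
  MvPolynomial (Fin 2) ℚ ⧸ Ideal.span {A.eqn N}

/-- The number of non-parallel pairs of lines (the number of nodes of the arrangement). -/
def Arr.nodes : ℕ :=
  (Finset.univ.filter fun p : Fin D × Fin D => p.1 < p.2 ∧ A.lam p.1 p.2 ≠ 0).card

theorem Arr.lam_def (i j : Fin D) : A.lam i j = A.a i * A.b j - A.a j * A.b i := rfl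

theorem Arr.lam_swap (i j : Fin D) : A.lam i j = -A.lam j i := by
  unfold Arr.lam; ring

theorem Arr.lam_self (i : Fin D) : A.lam i i = 0 := by
  unfold Arr.lam; ring

theorem Arr.form_map {R S : Type*} [CommRing R] [CommRing S] (f : R →+* S) (i : Fin D)
    (x y : R) : f (A.form i x y) = A.form i (f x) (f y) := by
  unfold Arr.form
  simp

section Symbols

variable {K : Type*} [Field K] {N : ℕ} {x y : K}

/-- `x, y` satisfy the equation of the curve. -/
def Arr.OnCurve (N : ℕ) (x y : K) : Prop := (N : K) * ∏ i, A.form i x y = 1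

theorem Arr.OnCurve.form_ne_zero {A : Arr D} (h : A.OnCurve N x y) (i : Fin D) :
    A.form i x y ≠ 0 := by
  intro h0
  have : ∏ i, A.form i x y = 0 := Finset.prod_eq_zero (Finset.mem_univ i) h0
  unfold Arr.OnCurve at h
  rw [this, mul_zero] at h
  exact zero_ne_one h

/-- The value of the `i`-th linear form, as a unit of the field. -/
def Arr.L {A : Arr D} (h : A.OnCurve N x y) (i : Fin D) : Kˣ :=
  Units.mk0 (A.form i x y) (h.form_ne_zero i)

/-- A nonzero integer as a unit of a field of characteristic zero. -/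
def intUnit [CharZero K] (m : ℤ) (hm : m ≠ 0) : Kˣ := Units.mk0 (m : K) (Int.cast_ne_zero.2 hm)

/-- The element `{l_i / lam, l_j / lam}` attached to a node of the arrangement. -/
def Arr.tau [CharZero K] {A : Arr D} (h : A.OnCurve N x y) (i j : Fin D) : K2 K :=
  if hl : A.lam i j = 0 then 0 else
    symb (Arr.L h i / intUnit (A.lam i j) hl) (Arr.L h j / intUnit (A.lam i j) hl)

end Symbols

end

end P4a177b
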