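import Mathlib

/-!
# Cycles of a complete multipartite graph

PROOF SKETCH for `exists_cycles`. `r` is the relation `not parallel`. Fix `u, w` with `r u w`.
For a vertex `k` let `P_k` be the antisymmetric matrix with row sums `e_k - e_u`: if `k = u` zero;
if `r k u` it is `+1` at `(k, u)`, `-1` at `(u, k)`; otherwise (then `r k w` by cotransitivity)
it is the sum of `+1` at `(k, w)`, `-1` at `(w, k)` and `+1` at `(w, u)`, `-1` at `(u, w)`. The tree
edges are the pairs `{k, u}` (`r k u`) and `{k, w}` (`k ≠ u`, not `r k u`): there are `D - 1`.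
For a non-tree edge `e = (i, j)`, `i < j`, `r i j`, put `n_e = E_ij - P_i + P_j`, with
`E_ij` equal to `+1` at `(i, j)` and `-1` at `(j, i)`. Its row sums vanish, and its value at another
non-tree edge is `0`, at `e` it is `1`. The number of non-tree edges is `#E - (D - 1)`.
-/

namespace P4a177b

open scoped Real

/-- elementary antisymmetric matrix -/
def elE {D : ℕ} (a b i j : Fin D) : ℤ :=
  (if i = a ∧ j = b then 1 else 0) - (if i = b ∧ j = a then 1 else 0)

theorem elE_swap {D : ℕ} (a b i j : Fin D) : elE a b j i = -elE a b i j := by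
  unfold elE
  simp only [and_comm (a := j = a), and_comm (a := j = b)]
  ring

theorem elE_sum {D : ℕ} (a b i : Fin D) :
    ∑ j, elE a b i j = (if i = a then 1 else 0) - (if i = b then 1 else 0) := by
  unfold elE
  rw [Finset.sum_sub_distrib]
  congr 1
  · by_cases h : i = a <;> simp [h]
  · by_cases h : i = b <;> simp [h]

theorem elE_zero {D : ℕ} (r : Fin D → Fin D → Prop) (hsymm : ∀ i j, r i j → r j i)
    {a b i j : Fin D} (hab : r a b) (h : ¬ r i j) : elE a b i j = 0 := by
  unfold elE
  rw [if_neg, if_neg, sub_zero]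
  · rintro ⟨rfl, rfl⟩
    exact h (hsymm _ _ hab)
  · rintro ⟨rfl, rfl⟩
    exact h hab

/-- the parent in the spanning tree -/
def par {D : ℕ} (r : Fin D → Fin D → Prop) [DecidableRel r] (u w k : Fin D) : Fin D :=
  if r k u then u else w

/-- the tree edge above a vertex -/
def tE {D : ℕ} (r : Fin D → Fin D → Prop) [DecidableRel r] (u w k : Fin D) : Fin D × Fin D :=
  if k < par r u w k then (k, par r u w k) else (par r u w k, k)

/-- path matrices -/
def pathM {D : ℕ} (r : Fin D → Fin D → Prop) [DecidableRel r] (u w k i j : Fin D) : ℤ :=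
  if k = u then 0 else if r k u then elE k u i j else elE k w i j + elE w u i j

section

variable {D : ℕ} (r : Fin D → Fin D → Prop) [DecidableRel r]
    (hsymm : ∀ i j, r i j → r j i) (hirr : ∀ i, ¬ r i i)
    (hco : ∀ i j k, r i j → r i k ∨ r k j) {u w : Fin D} (huw : r u w)

include hsymm hco huw

theorem par_rel {k : Fin D} : r k (par r u w k) := by
  unfold par
  split_ifs with h
  · exact h
  · rcases hco u w k huw with h' | h'
    · exact absurd (hsymm _ _ h') h
    · exact h'

include hirr

theorem tE_spec {k : Fin D} : (tE r u w k).1 < (tE r u w k).2 ∧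
    r (tE r u w k).1 (tE r u w k).2 := by
  have h := par_rel r hsymm hco huw (k := k)
  have hne : k ≠ par r u w k := by
    intro e
    rw [← e] at h
    exact hirr k h
  unfold tE
  split_ifs with h1
  · exact ⟨h1, h⟩
  · exact ⟨lt_of_le_of_ne (not_lt.1 h1) hne.symm, hsymm _ _ h⟩

omit hsymm hco huw hirr in
theorem tE_inj : Set.InjOn (tE r u w) ((Finset.univ.erase u : Finset (Fin D)) : Set (Fin D)) := by
  have key : ∀ k l : Fin D, k ≠ u → l ≠ u → k = par r u w l → l = par r u w k → k = l := by
    intro k l hk hl h1 h2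
    unfold par at h1 h2
    split_ifs at h1 h2 with h3 h4 h5
    · exact absurd h1 hk
    · exact absurd h1 hk
    · exact absurd h2 hl
    · rw [h1, h2]
  intro k hk l hl h
  have hk' : k ≠ u := by simpa using hk
  have hl' : l ≠ u := by simpa using hl
  unfold tE at h
  split_ifs at h with h1 h2 h3
  · exact (Prod.ext_iff.1 h).1
  · exact key k l hk' hl' (Prod.ext_iff.1 h).1 (Prod.ext_iff.1 h).2.symm
  · exact key k l hk' hl' (Prod.ext_iff.1 h).2 (Prod.ext_iff.1 h).1.symm
  · exact (Prod.ext_iff.1 h).2

omit hsymm hco huw hirr in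
theorem tE_card : ((Finset.univ.erase u).image (tE r u w)).card + 1 = D := by
  rw [Finset.card_image_of_injOn (tE_inj r),
    Finset.card_erase_of_mem (Finset.mem_univ _), Finset.card_univ, Fintype.card_fin]
  have : 0 < D := Fin.pos u
  omega

theorem tE_sub : (Finset.univ.erase u).image (tE r u w) ⊆
    Finset.univ.filter fun p : Fin D × Fin D => p.1 < p.2 ∧ r p.1 p.2 := by
  intro p hp
  obtain ⟨k, -, rfl⟩ := Finset.mem_image.1 hp
  simpa using tE_spec r hsymm hirr hco huw (k := k)

theorem elE_tree {k i j : Fin D} (hk : k ≠ u) (hij : i < j)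
    (hn : (i, j) ∉ (Finset.univ.erase u).image (tE r u w)) : elE k (par r u w k) i j = 0 := by
  have hmem : tE r u w k ∈ (Finset.univ.erase u).image (tE r u w) :=
    Finset.mem_image_of_mem _ (by simpa using hk)
  have hs := tE_spec r hsymm hirr hco huw (k := k)
  unfold elE
  rw [if_neg, if_neg, sub_zero]
  · rintro ⟨h1, h2⟩
    apply hn
    convert hmem using 1
    unfold tE
    subst h2
    rw [← h1, if_neg (not_lt.2 hij.le)]
  · rintro ⟨h1, h2⟩
    apply hn
    convert hmem using 1
    unfold tE
    subst h1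
    rw [← h2, if_pos hij]

theorem pathM_tree {k i j : Fin D} (hij : i < j)
    (hn : (i, j) ∉ (Finset.univ.erase u).image (tE r u w)) : pathM r u w k i j = 0 := by
  unfold pathM
  have hwu : w ≠ u := fun e => hirr u (by rw [e] at huw; exact huw)
  have hw := elE_tree r hsymm hirr hco huw hwu hij hn
  rw [par, if_pos (hsymm _ _ huw)] at hw
  split_ifs with h1 h2
  · rfl
  · have := elE_tree r hsymm hirr hco huw h1 hij hn
    rwa [par, if_pos h2] at this
  · have := elE_tree r hsymm hirr hco huw h1 hij hn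
    rw [par, if_neg h2] at this
    rw [this, hw, add_zero]

omit hirr

theorem pathM_zero {k i j : Fin D} (hn : ¬ r i j) : pathM r u w k i j = 0 := by
  unfold pathM
  have hp := par_rel r hsymm hco huw (k := k)
  unfold par at hp
  split_ifs with h1 h2
  · rfl
  · exact elE_zero r hsymm h2 hn
  · rw [if_neg h2] at hp
    rw [elE_zero r hsymm hp hn, elE_zero r hsymm (hsymm _ _ huw) hn, add_zero]

omit hsymm hco huw

theorem pathM_swap {k i j : Fin D} : pathM r u w k j i = -pathM r u w k i j := by
  unfold pathM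
  split_ifs with h1 h2
  · simp
  · exact elE_swap _ _ _ _
  · rw [elE_swap, elE_swap w u]; ring

theorem pathM_sum {k i : Fin D} : ∑ j, pathM r u w k i j =
    (if i = k then 1 else 0) - (if i = u then 1 else 0) := by
  unfold pathM
  by_cases h1 : k = u
  · subst h1
    simp
  by_cases h2 : r k u
  · simp only [if_neg h1, if_pos h2, elE_sum]
  · simp only [if_neg h1, if_neg h2, Finset.sum_add_distrib, elE_sum]
    ring

end

theorem exists_cycles {D : ℕ} (r : Fin D → Fin D → Prop) [DecidableRel r]
    (hsymm : ∀ i j, r i j → r j i) (hirr : ∀ i, ¬ r i i)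
    (hco : ∀ i j k, r i j → r i k ∨ r k j) (hne : ∃ i j, r i j) (m : ℕ)
    (hm : m + D = (Finset.univ.filter fun p : Fin D × Fin D => p.1 < p.2 ∧ r p.1 p.2).card + 1) :
    ∃ (n : Fin m → Fin D → Fin D → ℤ) (q : Fin m → Fin D × Fin D),
      (∀ p i j, n p j i = -n p i j) ∧ (∀ p i j, ¬ r i j → n p i j = 0) ∧
      (∀ p i, ∑ j, n p i j = 0) ∧
      (∀ p, (q p).1 < (q p).2 ∧ r (q p).1 (q p).2) ∧
      (∀ p p', n p (q p').1 (q p').2 = if p = p' then 1 else 0) := by
  obtain ⟨u, w, huw⟩ := hne
  set E := Finset.univ.filter fun p : Fin D × Fin D => p.1 < p.2 ∧ r p.1 p.2 with hE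
  set T := (Finset.univ.erase u).image (tE r u w) with hT
  have hTE : T ⊆ E := tE_sub r hsymm hirr hco huw
  have hTc : T.card + 1 = D := tE_card r (u := u) (w := w)
  have hc : (E \ T).card = m := by
    have := Finset.card_sdiff_add_card_eq_card hTE
    omega
  let e := (Finset.equivFinOfCardEq hc).symm
  have hq : ∀ p, ((e p).1.1 < (e p).1.2 ∧ r (e p).1.1 (e p).1.2) ∧ (e p).1 ∉ T := by
    intro p
    have h := Finset.mem_sdiff.1 (e p).2
    exact ⟨(Finset.mem_filter.1 h.1).2, h.2⟩
  refine ⟨fun p i j => elE (e p).1.1 (e p).1.2 i j - pathM r u w (e p).1.1 i j +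
    pathM r u w (e p).1.2 i j, fun p => (e p).1, ?_, ?_, ?_, fun p => (hq p).1, ?_⟩
  · intro p i j
    show elE (e p).1.1 (e p).1.2 j i - pathM r u w (e p).1.1 j i + pathM r u w (e p).1.2 j i =
      -(elE (e p).1.1 (e p).1.2 i j - pathM r u w (e p).1.1 i j + pathM r u w (e p).1.2 i j)
    rw [elE_swap, pathM_swap r (k := (e p).1.1), pathM_swap r (k := (e p).1.2)]
    ring
  · intro p i j hij
    show elE (e p).1.1 (e p).1.2 i j - pathM r u w (e p).1.1 i j +
      pathM r u w (e p).1.2 i j = 0
    rw [elE_zero r hsymm (hq p).1.2 hij, pathM_zero r hsymm hco huw hij,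
      pathM_zero r hsymm hco huw hij]
    simp
  · intro p i
    rw [Finset.sum_add_distrib, Finset.sum_sub_distrib, elE_sum, pathM_sum, pathM_sum]
    ring
  · intro p p'
    have h' := hq p'
    have h := hq p
    show elE (e p).1.1 (e p).1.2 (e p').1.1 (e p').1.2 -
      pathM r u w (e p).1.1 (e p').1.1 (e p').1.2 +
      pathM r u w (e p).1.2 (e p').1.1 (e p').1.2 = _
    rw [pathM_tree r hsymm hirr hco huw h'.1.1 h'.2, pathM_tree r hsymm hirr hco huw h'.1.1 h'.2,
      sub_zero, add_zero]
    unfold elE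
    by_cases hpp : p = p'
    · subst hpp
      rw [if_pos ⟨rfl, rfl⟩, if_neg, if_pos rfl, sub_zero]
      rintro ⟨h1, -⟩
      exact absurd h.1.1 (by rw [h1]; exact lt_irrefl _)
    · rw [if_neg, if_neg, if_neg hpp, sub_zero]
      · rintro ⟨h1, h2⟩
        have a := h.1.1
        have b := h'.1.1
        rw [h1, h2] at b
        exact lt_asymm a b
      · rintro ⟨h1, h2⟩
        apply hpp
        apply e.injective
        exact Subtype.ext (Prod.ext h1.symm h2.symm)

/-- The number of edges is at least `D - 1`. -/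
theorem card_edges {D : ℕ} (r : Fin D → Fin D → Prop) [DecidableRel r]
    (hsymm : ∀ i j, r i j → r j i) (hirr : ∀ i, ¬ r i i)
    (hco : ∀ i j k, r i j → r i k ∨ r k j) (hne : ∃ i j, r i j) :
    D ≤ (Finset.univ.filter fun p : Fin D × Fin D => p.1 < p.2 ∧ r p.1 p.2).card + 1 := by
  obtain ⟨u, w, huw⟩ := hne
  have h1 := Finset.card_le_card (tE_sub r hsymm hirr hco huw)
  have h2 := tE_card r (u := u) (w := w)
  omega

end P4a177b
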