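import Mathlib

/-!
# A determinant estimate

PROOF SKETCH. Suppose not: then there are arbitrarily large `N` and matrices `B_N` with `M N B_N`
and determinant zero. Dividing by `2π log N → ∞`, the matrices tend to the identity and `det` is
continuous, so the determinant is eventually nonzero. (Or: a strictly diagonally dominant matrix has
nonzero determinant, `det_ne_zero_of_sum_row_lt_diag` in Mathlib: it is enough that
`2π log N - C > (m - 1) C`.)
-/

namespace P4a177b

open scoped Real

theorem det_ne_zero (m : ℕ) (M : ℕ → Matrix (Fin m) (Fin m) ℝ → Prop) (C : ℝ)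
    (hM : ∀ N B, M N B → ∀ p q, |B p q - 2 * π * Real.log N * (if p = q then 1 else 0)| ≤ C) :
    ∃ N₀ : ℕ, ∀ N : ℕ, N₀ ≤ N → ∀ B, M N B → B.det ≠ 0 := by
  have ht : Filter.Tendsto (fun N : ℕ => 2 * π * Real.log N) Filter.atTop Filter.atTop :=
    (Real.tendsto_log_atTop.comp tendsto_natCast_atTop_atTop).const_mul_atTop (by positivity)
  obtain ⟨N₀, hN₀⟩ := Filter.eventually_atTop.1 (ht.eventually_gt_atTop ((m + 1 : ℝ) * |C|))
  refine ⟨N₀, fun N hN B hB => det_ne_zero_of_sum_row_lt_diag fun k => ?_⟩
  have hbig := hN₀ N hN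
  have hC : 0 ≤ |C| := abs_nonneg C
  have hoff : ∀ j ∈ Finset.univ.erase k, ‖B k j‖ ≤ |C| := by
    intro j hj
    have h := hM N B hB k j
    rw [if_neg (Finset.ne_of_mem_erase hj).symm, mul_zero, sub_zero] at h
    rw [Real.norm_eq_abs]
    exact h.trans (le_abs_self C)
  have hsum : ∑ j ∈ Finset.univ.erase k, ‖B k j‖ ≤ (m : ℝ) * |C| := by
    refine (Finset.sum_le_sum hoff).trans ?_
    rw [Finset.sum_const, nsmul_eq_mul]
    refine mul_le_mul_of_nonneg_right ?_ hC
    have h1 : (Finset.univ.erase k).card ≤ m := by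
      refine (Finset.card_erase_le).trans ?_
      simp
    exact_mod_cast h1
  have hdiag := hM N B hB k k
  rw [if_pos rfl, mul_one] at hdiag
  have h2 : 2 * π * Real.log N - |C| ≤ B k k := by
    have h3 := (abs_le.1 hdiag).1
    have h4 := le_abs_self C
    linarith
  have h5 : B k k ≤ ‖B k k‖ := by
    rw [Real.norm_eq_abs]
    exact le_abs_self _
  linarith

end P4a177b
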