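import Pool.Agent.Lib.P4a177b.Prime

/-!
# Generic points of the curve

A point `(x, y)` of the curve `N * ∏ l_i = 1` whose coordinates are not both algebraic is a
generic point: the polynomials with rational coefficients vanishing at `(x, y)` are the multiples
of the equation.
-/

namespace P4a177b

open MvPolynomial

variable {D : ℕ} (A : Arr D)

/-- A prime ideal of `ℚ[x, y]` which strictly contains a nonzero prime ideal is maximal. -/
theorem isMaximal_of_lt (I P : Ideal (MvPolynomial (Fin 2) ℚ)) (hI : I.IsPrime) (hP : P.IsPrime)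
    (h0 : I ≠ ⊥) (hlt : I < P) : P.IsMaximal := by
  by_contra hmax
  obtain ⟨M, hM, hPM⟩ := P.exists_le_maximal hP.ne_top
  have hPM' : P < M := by
    refine lt_of_le_of_ne hPM ?_
    rintro rfl
    exact hmax hM
  have hdim : ringKrullDim (MvPolynomial (Fin 2) ℚ) = 2 := by
    rw [MvPolynomial.ringKrullDim_of_isNoetherianRing, ringKrullDim_eq_zero_of_field]
    simp
  let q : Fin 4 → PrimeSpectrum (MvPolynomial (Fin 2) ℚ) :=
    ![⟨⊥, Ideal.isPrime_bot⟩, ⟨I, hI⟩, ⟨P, hP⟩, ⟨M, hM.isPrime⟩]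
  let s : LTSeries (PrimeSpectrum (MvPolynomial (Fin 2) ℚ)) :=
    { length := 3
      toFun := q
      step := by
        intro i
        fin_cases i
        · exact PrimeSpectrum.asIdeal_lt_asIdeal _ _ |>.1 (bot_lt_iff_ne_bot.2 h0)
        · exact PrimeSpectrum.asIdeal_lt_asIdeal _ _ |>.1 hlt
        · exact PrimeSpectrum.asIdeal_lt_asIdeal _ _ |>.1 hPM' }
  have h3 := Order.LTSeries.length_le_krullDim s
  have h4 : ((3 : ℕ) : WithBot ℕ∞) ≤ ringKrullDim (MvPolynomial (Fin 2) ℚ) := h3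
  rw [hdim] at h4
  exact absurd h4 (by decide)

theorem Arr.mem_span_of_aeval_eq_zero (N : ℕ) (hN : 0 < N) (x y : ℂ) (h : A.OnCurve N x y)
    (hxy : ¬ (IsAlgebraic ℚ x ∧ IsAlgebraic ℚ y)) (p : MvPolynomial (Fin 2) ℚ)
    (hp : aeval ![x, y] p = 0) : p ∈ Ideal.span {A.eqn N} := by
  classical
  by_contra hmem
  let φ : MvPolynomial (Fin 2) ℚ →ₐ[ℚ] ℂ := aeval ![x, y]
  let P : Ideal (MvPolynomial (Fin 2) ℚ) := RingHom.ker φ
  have hP : P.IsPrime := RingHom.ker_isPrime φ
  have hF : φ (A.eqn N) = 0 := by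
    have h1 : φ (A.eqn N) = (N : ℂ) * ∏ i, A.form i x y - 1 := by
      unfold Arr.eqn
      simp [φ, Arr.form]
    rw [h1, h, sub_self]
  have hle : Ideal.span {A.eqn N} ≤ P := by
    rw [Ideal.span_singleton_le_iff_mem]
    exact hF
  have hlt : Ideal.span {A.eqn N} < P :=
    lt_of_le_of_ne hle (fun he => hmem (he ▸ (show p ∈ P from hp)))
  have hne : Ideal.span {A.eqn N} ≠ ⊥ := by
    rw [Ne, Ideal.span_singleton_eq_bot]
    exact (A.irreducible_eqn N hN).ne_zero
  have hmax : P.IsMaximal :=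
    isMaximal_of_lt _ P (A.isPrime_span N hN) hP hne hlt
  let : Field (MvPolynomial (Fin 2) ℚ ⧸ P) := Ideal.Quotient.field P
  have hfin : Module.Finite ℚ (MvPolynomial (Fin 2) ℚ ⧸ P) :=
    finite_of_finite_type_of_isJacobsonRing ℚ _
  let ψ : (MvPolynomial (Fin 2) ℚ ⧸ P) →ₐ[ℚ] ℂ := Ideal.Quotient.liftₐ P φ (fun a ha => ha)
  have key : ∀ q : MvPolynomial (Fin 2) ℚ, IsAlgebraic ℚ (φ q) := by
    intro q
    have h1 : IsAlgebraic ℚ (Ideal.Quotient.mk P q) :=
      (Algebra.IsIntegral.isIntegral (R := ℚ) (Ideal.Quotient.mk P q)).isAlgebraic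
    have h2 : IsAlgebraic ℚ (ψ (Ideal.Quotient.mk P q)) := IsAlgebraic.algHom ψ h1
    exact h2
  apply hxy
  constructor
  · have := key (X 0)
    simpa [φ] using this
  · have := key (X 1)
    simpa [φ] using this

end P4a177b
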