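import Pool.Agent.Lib.P4a177b.GenericA

/-!
# Generic loops on the function field

PROOF SKETCH for `exists_genericLoop`. `CoordRing → ℂ`, `mk p ↦ aeval ![x t, y t] p` is
well-defined (`OnCurve`) and injective by the first theorem, so it extends to the fraction field
(`IsFractionRing.lift`). Every `f : K` is `p / q`; the numerator and the denominator are
polynomials in `x t, y t`, the denominator does not vanish, so the quotient is `C¹` and periodic.
-/

namespace P4a177b

open MvPolynomial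
open scoped Real

variable {D : ℕ} (A : Arr D)

/-- The equation of the curve vanishes at the points of the curve. -/
theorem Arr.aeval_eqn (N : ℕ) (x y : ℂ) (h : A.OnCurve N x y) :
    aeval ![x, y] (A.eqn N) = 0 := by
  have hx : (MvPolynomial.aeval ![x, y] : MvPolynomial (Fin 2) ℚ →ₐ[ℚ] ℂ) (X 0) = x := by simp
  have hy : (MvPolynomial.aeval ![x, y] : MvPolynomial (Fin 2) ℚ →ₐ[ℚ] ℂ) (X 1) = y := by simp
  have h1 : ∀ i, (MvPolynomial.aeval ![x, y] : MvPolynomial (Fin 2) ℚ →ₐ[ℚ] ℂ)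
      (A.form i (X 0) (X 1)) = A.form i x y := by
    intro i
    have := A.form_map ((MvPolynomial.aeval ![x, y] :
      MvPolynomial (Fin 2) ℚ →ₐ[ℚ] ℂ) : MvPolynomial (Fin 2) ℚ →+* ℂ) i (X 0) (X 1)
    simpa only [RingHom.coe_coe, hx, hy] using this
  unfold Arr.eqn
  rw [map_sub, map_mul, map_prod, map_one, map_natCast]
  simp only [h1]
  unfold Arr.OnCurve at h
  rw [h, sub_self]

/-- Evaluation of the functions on the affine curve at a point. -/
noncomputable def Arr.evalPt (N : ℕ) (x y : ℂ) (h : A.OnCurve N x y) : A.CoordRing N →+* ℂ :=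
  Ideal.Quotient.lift (Ideal.span {A.eqn N})
    ((MvPolynomial.aeval ![x, y] : MvPolynomial (Fin 2) ℚ →ₐ[ℚ] ℂ) :
      MvPolynomial (Fin 2) ℚ →+* ℂ) (by
    intro p hp
    obtain ⟨q, rfl⟩ := Ideal.mem_span_singleton.1 hp
    rw [RingHom.coe_coe, map_mul, A.aeval_eqn N x y h, zero_mul])

theorem Arr.evalPt_mk (N : ℕ) (x y : ℂ) (h : A.OnCurve N x y) (p : MvPolynomial (Fin 2) ℚ) :
    A.evalPt N x y h (Ideal.Quotient.mk _ p) = aeval ![x, y] p := rfl

theorem Arr.evalPt_injective (N : ℕ) (hN : 0 < N) (x y : ℂ) (h : A.OnCurve N x y)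
    (hxy : ¬ (IsAlgebraic ℚ x ∧ IsAlgebraic ℚ y)) :
    Function.Injective (A.evalPt N x y h) := by
  rw [injective_iff_map_eq_zero]
  intro a ha
  obtain ⟨p, rfl⟩ := Ideal.Quotient.mk_surjective a
  rw [A.evalPt_mk] at ha
  exact Ideal.Quotient.eq_zero_iff_mem.2 (A.mem_span_of_aeval_eq_zero N hN x y h hxy p ha)

theorem contDiff_aeval (x y : ℝ → ℂ) (hx : ContDiff ℝ 1 x) (hy : ContDiff ℝ 1 y)
    (p : MvPolynomial (Fin 2) ℚ) : ContDiff ℝ 1 fun t => aeval ![x t, y t] p := by
  induction p using MvPolynomial.induction_on with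
  | C a =>
    have : (fun t => (MvPolynomial.aeval ![x t, y t] : MvPolynomial (Fin 2) ℚ →ₐ[ℚ] ℂ)
        (MvPolynomial.C a)) = fun _ => algebraMap ℚ ℂ a := by
      funext t
      rw [MvPolynomial.aeval_C]
    rw [this]
    exact contDiff_const
  | add p q hp hq =>
    simp only [map_add]
    exact hp.add hq
  | mul_X p i hp =>
    simp only [map_mul, MvPolynomial.aeval_X]
    refine hp.mul ?_
    fin_cases i
    · simpa using hx
    · simpa using hy

theorem Arr.exists_genericLoop (N : ℕ) (hN : 0 < N) (K : Type) [Field K]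
    [Algebra (A.CoordRing N) K] [IsFractionRing (A.CoordRing N) K] (x y : ℝ → ℂ)
    (hx : ContDiff ℝ 1 x) (hy : ContDiff ℝ 1 y)
    (hxp : ∀ t, x (t + 2 * π) = x t) (hyp : ∀ t, y (t + 2 * π) = y t)
    (hc : ∀ t, A.OnCurve N (x t) (y t))
    (hg : ∀ t, ¬ (IsAlgebraic ℚ (x t) ∧ IsAlgebraic ℚ (y t))) :
    ∃ γ : GenericLoop K, ∀ (t : ℝ) (p : MvPolynomial (Fin 2) ℚ),
      γ.emb t (algebraMap (A.CoordRing N) K (Ideal.Quotient.mk _ p)) =
        aeval ![x t, y t] p := by
  have hinj : ∀ t, Function.Injective (A.evalPt N (x t) (y t) (hc t)) := fun t =>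
    A.evalPt_injective N hN _ _ (hc t) (hg t)
  have hdom : IsDomain (A.CoordRing N) := (hinj 0).isDomain
  set emb : ℝ → K →+* ℂ := fun t => IsFractionRing.lift (K := K) (hinj t) with hemb
  have hval : ∀ t (p : MvPolynomial (Fin 2) ℚ),
      emb t (algebraMap (A.CoordRing N) K (Ideal.Quotient.mk _ p)) = aeval ![x t, y t] p := by
    intro t p
    simp only [hemb]
    rw [IsFractionRing.lift_algebraMap, A.evalPt_mk]
  have hfrac : ∀ f : K, ∃ p q : MvPolynomial (Fin 2) ℚ,
      (∀ t, aeval ![x t, y t] q ≠ (0 : ℂ)) ∧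
      ∀ t, emb t f = aeval ![x t, y t] p / aeval ![x t, y t] q := by
    intro f
    obtain ⟨a, b, hb, rfl⟩ := IsFractionRing.div_surjective (A := A.CoordRing N) f
    obtain ⟨p, rfl⟩ := Ideal.Quotient.mk_surjective a
    obtain ⟨q, rfl⟩ := Ideal.Quotient.mk_surjective b
    refine ⟨p, q, fun t h0 => ?_, fun t => ?_⟩
    · rw [← A.evalPt_mk N (x t) (y t) (hc t)] at h0
      exact nonZeroDivisors.ne_zero hb ((hinj t) (by rw [h0, map_zero]))
    · rw [map_div₀, hval, hval]
  refine ⟨⟨emb, fun f => ?_, fun f t => ?_⟩, fun t p => hval t p⟩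
  · obtain ⟨p, q, hq, hf⟩ := hfrac f
    have : (fun t => emb t f) = fun t => aeval ![x t, y t] p / aeval ![x t, y t] q :=
      funext hf
    rw [this]
    simp only [div_eq_mul_inv]
    exact (contDiff_aeval x y hx hy p).mul ((contDiff_aeval x y hx hy q).inv hq)
  · obtain ⟨p, q, hq, hf⟩ := hfrac f
    rw [hf, hf, hxp, hyp]

end P4a177b
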