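import Pool.Agent.Lib.P4a177b.Curve

/-!
# Integrality of the K_2 elements
-/

namespace P4a177b

open WithZero

noncomputable section

section General

variable {K : Type*} [Field K] (v : Valuation K ℤᵐ⁰)

/-- The tame symbol modulo torsion. -/
def phi : K2 K →+ (Additive (IsLocalRing.ResidueField v.valuationSubring)ˣ) ⧸
    AddCommGroup.torsion (Additive (IsLocalRing.ResidueField v.valuationSubring)ˣ) :=
  (QuotientAddGroup.mk' _).comp (tame v)

theorem phi_eq_zero_iff (x : K2 K) : phi v x = 0 ↔ UnramAt v x := by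
  unfold phi UnramAt
  rw [AddMonoidHom.comp_apply, QuotientAddGroup.mk'_apply, QuotientAddGroup.eq_zero_iff]
  rfl

/-- The tame symbol of a pair modulo torsion. -/
def sy (a b : Kˣ) : (Additive (IsLocalRing.ResidueField v.valuationSubring)ˣ) ⧸
    AddCommGroup.torsion (Additive (IsLocalRing.ResidueField v.valuationSubring)ˣ) :=
  phi v (symb a b)

theorem sy_mul_left (a b c : Kˣ) : sy v (a * b) c = sy v a c + sy v b c := by
  unfold sy; rw [symb_mul_left, map_add]

theorem sy_mul_right (a b c : Kˣ) : sy v a (b * c) = sy v a b + sy v a c := by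
  unfold sy; rw [symb_mul_right, map_add]

theorem sy_div_left (a b c : Kˣ) : sy v (a / b) c = sy v a c - sy v b c := by
  unfold sy; rw [symb_div_left, map_sub]

theorem sy_div_right (a b c : Kˣ) : sy v a (b / c) = sy v a b - sy v a c := by
  unfold sy; rw [symb_div_right, map_sub]

theorem sy_inv_right (a b : Kˣ) : sy v a b⁻¹ = -sy v a b := by
  unfold sy; rw [symb_inv_right, map_neg]

theorem sy_inv_left (a b : Kˣ) : sy v a⁻¹ b = -sy v a b := by
  unfold sy; rw [symb_inv_left, map_neg]

theorem sy_one_left (a : Kˣ) : sy v 1 a = 0 := by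
  unfold sy; rw [symb_one_left, map_zero]

theorem sy_one_right (a : Kˣ) : sy v a 1 = 0 := by
  unfold sy; rw [symb_one_right, map_zero]

theorem sy_steinberg (a b : Kˣ) (h : (a : K) + (b : K) = 1) : sy v a b = 0 := by
  unfold sy; rw [symb_steinberg a b h, map_zero]

/-- An element of order zero whose residue is a root of unity. -/
def ResTor (a : Kˣ) : Prop := ∃ h : ordv v a = 0, IsOfFinOrder (resUnit v a h)

variable {v}

theorem ResTor.ord {a : Kˣ} (h : ResTor v a) : ordv v a = 0 := h.1

theorem ResTor.mul {a b : Kˣ} (ha : ResTor v a) (hb : ResTor v b) : ResTor v (a * b) := by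
  obtain ⟨ha0, ha⟩ := ha
  obtain ⟨hb0, hb⟩ := hb
  have hab : ordv v (a * b) = 0 := by rw [ordv_mul, ha0, hb0, add_zero]
  refine ⟨hab, ?_⟩
  rw [resUnit_mul v a b ha0 hb0 hab]
  exact ha.mul hb

theorem ResTor.inv {a : Kˣ} (ha : ResTor v a) : ResTor v a⁻¹ := by
  obtain ⟨ha0, ha⟩ := ha
  have hab : ordv v a⁻¹ = 0 := by rw [ordv_inv, ha0, neg_zero]
  refine ⟨hab, ?_⟩
  rw [resUnit_inv v a ha0 hab]
  exact ha.inv

theorem ResTor.div {a b : Kˣ} (ha : ResTor v a) (hb : ResTor v b) : ResTor v (a / b) := by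
  rw [div_eq_mul_inv]
  exact ha.mul hb.inv

theorem resTor_of_principal {a : Kˣ} (h : v ((a : K) - 1) < 1) : ResTor v a := by
  refine ⟨ordv_of_principal v a h, ?_⟩
  rw [resUnit_eq_one v a _ h]
  exact IsOfFinOrder.one

theorem resTor_of_pow {a : Kˣ} (n : ℕ) (hn : 0 < n) (h : ResTor v (a ^ n)) : ResTor v a := by
  obtain ⟨h0, h1⟩ := h
  have ha : ordv v a = 0 := by
    have h2 := ordv_zpow v a n
    rw [zpow_natCast, h0] at h2
    have h3 : (n : ℤ) ≠ 0 := by exact_mod_cast hn.ne'
    rcases mul_eq_zero.1 h2.symm with h | h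
    · exact absurd h h3
    · exact h
  refine ⟨ha, ?_⟩
  have h4 : resUnit v (a ^ n) h0 = (resUnit v a ha) ^ n := by
    have h5 : ordv v (a ^ (n : ℤ)) = 0 := by rw [ordv_zpow, ha, mul_zero]
    have h6 := resUnit_zpow v a ha n h5
    have h7 : (resUnit v a ha) ^ (n : ℤ) = (resUnit v a ha) ^ n := zpow_natCast _ _
    rw [← h7, ← h6]
    exact resUnit_congr v (by rw [zpow_natCast]) _ _
  rw [h4] at h1
  exact (isOfFinOrder_pow.1 h1).resolve_right hn.ne'

theorem resTor_neg_one : ResTor v (-1) := by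
  apply resTor_of_pow 2 (by norm_num)
  apply resTor_of_principal
  simp

variable (v)

theorem sy_restor_right (a b : Kˣ) (hb : ResTor v b) : sy v a b = 0 := by
  obtain ⟨hb0, hb⟩ := hb
  unfold sy
  rw [phi_eq_zero_iff]
  unfold UnramAt
  rw [tame_symb, tameFun_unit_right v a b hb0]
  exact ((AddCommGroup.torsion _).neg_mem ((AddCommGroup.torsion _).zsmul_mem
    (show Additive.ofMul (resUnit v b hb0) ∈ AddCommGroup.torsion _ from
      (isOfFinAddOrder_ofMul_iff.2 hb)) _))

theorem sy_self (a : Kˣ) : sy v a a = 0 := by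
  have h1 : sy v a (-a) = 0 := by
    by_cases ha : (a : K) = 1
    · have : a = 1 := Units.ext ha
      rw [this, sy_one_left]
    · have h1a : (1 : K) - a ≠ 0 := sub_ne_zero.2 (Ne.symm ha)
      have h1b : (1 : K) - (a : K)⁻¹ ≠ 0 := by
        intro h
        apply ha
        have : (a : K)⁻¹ = 1 := (sub_eq_zero.1 h).symm
        rw [inv_eq_one] at this
        exact this
      let u : Kˣ := Units.mk0 _ h1a
      let w : Kˣ := Units.mk0 _ h1b
      have e : -a = u * w⁻¹ := by
        apply Units.ext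
        rw [Units.val_neg, Units.val_mul, Units.val_inv_eq_inv_val]
        change -(a : K) = (1 - a) * (1 - (a : K)⁻¹)⁻¹
        have ha0 : (a : K) ≠ 0 := a.ne_zero
        rw [eq_mul_inv_iff_mul_eq₀ h1b]
        field_simp
        ring
      rw [e, sy_mul_right, sy_inv_right]
      have s1 : sy v a u = 0 := by
        apply sy_steinberg
        change (a : K) + (1 - a) = 1
        ring
      have s2 : sy v a⁻¹ w = 0 := by
        apply sy_steinberg
        change ((a⁻¹ : Kˣ) : K) + (1 - (a : K)⁻¹) = 1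
        rw [Units.val_inv_eq_inv_val]
        ring
      rw [sy_inv_left] at s2
      rw [s1, neg_eq_zero.1 s2]
      simp
  have h2 : sy v a (-a) = sy v a (-1) + sy v a a := by
    rw [← sy_mul_right]
    congr 1
    rw [neg_one_mul]
  rw [h1, sy_restor_right v a (-1) resTor_neg_one, zero_add] at h2
  exact h2.symm

theorem sy_anti (a b : Kˣ) : sy v a b = -sy v b a := by
  have h := sy_self v (a * b)
  rw [sy_mul_left, sy_mul_right, sy_mul_right, sy_self, sy_self, zero_add, add_zero] at h
  exact eq_neg_of_add_eq_zero_left h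

theorem sy_restor_left (a b : Kˣ) (ha : ResTor v a) : sy v a b = 0 := by
  rw [sy_anti, sy_restor_right v b a ha, neg_zero]

theorem sy_units (a b : Kˣ) (ha : ordv v a = 0) (hb : ordv v b = 0) : sy v a b = 0 := by
  unfold sy
  rw [phi_eq_zero_iff]
  unfold UnramAt
  rw [tame_symb, tameFun_of_units v a b ha hb]
  exact IsOfFinAddOrder.zero

theorem sy_neg_right (a b : Kˣ) : sy v a (-b) = sy v a b := by
  rw [← neg_one_mul, sy_mul_right, sy_restor_right v a (-1) resTor_neg_one, zero_add]

theorem sy_neg_left (a b : Kˣ) : sy v (-a) b = sy v a b := by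
  rw [sy_anti, sy_neg_right, ← sy_anti]

/-- Replacing an entry by another one with the same residue ratio. -/
theorem sy_congr_right (a b c : Kˣ) (h : ResTor v (b / c)) : sy v a b = sy v a c := by
  have h1 := sy_restor_right v a (b / c) h
  rw [sy_div_right] at h1
  exact sub_eq_zero.1 h1

theorem sy_congr_left (a b c : Kˣ) (h : ResTor v (a / b)) : sy v a c = sy v b c := by
  rw [sy_anti, sy_congr_right v c a b h, ← sy_anti]

theorem v_int_le (m : ℤ) : v (m : K) ≤ 1 := by
  have h : (m : K) ∈ v.valuationSubring := intCast_mem _ m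
  exact h

theorem exists_prime_of_lt (m : ℤ) (hm : m ≠ 0) (h : v (m : K) < 1) :
    ∃ p : ℕ, p.Prime ∧ v (p : K) < 1 := by
  by_contra hc
  push Not at hc
  have h1 : ∀ n : ℕ, n ≠ 0 → v (n : K) = 1 := by
    intro n
    induction n using Nat.recOnMul with
    | zero => intro h; exact absurd rfl h
    | one => intro _; simp
    | prime p hp =>
      intro _
      exact le_antisymm (by exact_mod_cast v_int_le v (p : ℤ)) (hc p hp)
    | mul a b iha ihb =>
      intro hab
      rw [Nat.cast_mul, map_mul, iha (left_ne_zero_of_mul hab), ihb (right_ne_zero_of_mul hab),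
        one_mul]
  have h2 := h1 m.natAbs (Int.natAbs_ne_zero.2 hm)
  rcases Int.natAbs_eq m with h3 | h3
  · rw [h3] at h
    rw [Int.cast_natCast, h2] at h
    exact lt_irrefl _ h
  · rw [h3] at h
    rw [Int.cast_neg, Int.cast_natCast, Valuation.map_neg, h2] at h
    exact lt_irrefl _ h

theorem v_int_eq_one (p : ℕ) (hp : p.Prime) (hv : v (p : K) < 1) (m : ℤ)
    (hm : ¬ (p : ℤ) ∣ m) : v (m : K) = 1 := by
  refine le_antisymm (v_int_le v m) ?_
  by_contra hlt
  push Not at hlt
  have hcop : IsCoprime (p : ℤ) m :=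
    ((Nat.prime_iff_prime_int.1 hp).coprime_iff_not_dvd).2 hm
  obtain ⟨a, b, hab⟩ := hcop
  have h1 : (a : K) * (p : K) + (b : K) * (m : K) = 1 := by exact_mod_cast congrArg (Int.cast : ℤ → K) hab
  have h2 : v ((a : K) * (p : K) + (b : K) * (m : K)) < 1 := by
    apply Valuation.map_add_lt
    · rw [map_mul, mul_comm]
      exact mul_lt_one_of_lt_of_le hv (v_int_le v a)
    · rw [map_mul, mul_comm]
      exact mul_lt_one_of_lt_of_le hlt (v_int_le v b)
  rw [h1, map_one] at h2
  exact lt_irrefl _ h2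

theorem resTor_int (p : ℕ) (hp : p.Prime) (hv : v (p : K) < 1) (m : ℤ) (u : Kˣ)
    (hu : (u : K) = m) (hm : v (m : K) = 1) : ResTor v u := by
  have hpm : ¬ (p : ℤ) ∣ m := by
    rintro ⟨k, rfl⟩
    rw [Int.cast_mul, map_mul, Int.cast_natCast] at hm
    have : v (p : K) * v (k : K) < 1 := mul_lt_one_of_lt_of_le hv (v_int_le v k)
    rw [hm] at this
    exact lt_irrefl _ this
  apply resTor_of_pow (p - 1) (Nat.sub_pos_of_lt hp.one_lt)
  apply resTor_of_principal
  have := Fact.mk hp
  have h1 : ((m : ZMod p)) ≠ 0 := by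
    intro h
    exact hpm ((ZMod.intCast_zmod_eq_zero_iff_dvd m p).1 h)
  have h2 := ZMod.pow_card_sub_one_eq_one h1
  have h3 : ((m ^ (p - 1) - 1 : ℤ) : ZMod p) = 0 := by
    push_cast
    rw [h2, sub_self]
  obtain ⟨k, hk⟩ := (ZMod.intCast_zmod_eq_zero_iff_dvd _ p).1 h3
  have h4 : ((u ^ (p - 1) : Kˣ) : K) - 1 = (p : K) * (k : K) := by
    rw [Units.val_pow_eq_pow_val, hu]
    have := congrArg (Int.cast : ℤ → K) hk
    push_cast at this
    exact this
  rw [h4, map_mul]
  exact mul_lt_one_of_lt_of_le hv (v_int_le v k)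

/-- In residue characteristic `p`, a unit which satisfies a linear congruence with integer
coefficients has torsion residue. -/
theorem resTor_ratio [CharZero K] (p : ℕ) (hp : p.Prime) (hv : v (p : K) < 1) (u : Kˣ)
    (hu : ordv v u = 0) (m m' : ℤ) (hm : v (m : K) = 1) (h : v ((m : K) * u - m') < 1) :
    ResTor v u := by
  have hvu : v (u : K) = 1 := (ordv_eq_zero_iff v u).1 hu
  have hm' : v (m' : K) = 1 := by
    have h1 : (m' : K) = (m : K) * u - ((m : K) * u - m') := by ring
    rw [h1]
    rw [Valuation.map_sub_eq_of_lt_left v (by rw [map_mul, hm, hvu, one_mul]; exact h), map_mul, hm,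
      hvu, one_mul]
  have hm0 : m ≠ 0 := by
    rintro rfl
    simp at hm
  have hm0' : m' ≠ 0 := by
    rintro rfl
    simp at hm'
  let M : Kˣ := intUnit m hm0
  let M' : Kˣ := intUnit m' hm0'
  have hM : ResTor v M := resTor_int v p hp hv m M rfl hm
  have hM' : ResTor v M' := resTor_int v p hp hv m' M' rfl hm'
  have hP : ResTor v (M * u / M') := by
    apply resTor_of_principal
    have e : ((M * u / M' : Kˣ) : K) - 1 = ((m : K) * u - m') / m' := by
      rw [Units.val_div_eq_div_val, Units.val_mul]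
      change (m : K) * u / m' - 1 = _
      have : (m' : K) ≠ 0 := Int.cast_ne_zero.2 hm0'
      field_simp
    rw [e, map_div₀, hm', div_one]
    exact h
  have e : u = (M * u / M') * (M' / M) := by
    rw [div_mul_div_cancel, mul_div_assoc, mul_div_cancel]
  rw [e]
  exact hP.mul (hM'.div hM)

theorem ordv_intUnit [CharZero K] (m : ℤ) (hm : m ≠ 0) (h : v (m : K) = 1) :
    ordv v (intUnit (K := K) m hm) = 0 := (ordv_eq_zero_iff v _).2 h

theorem resTor_neg {v : Valuation K ℤᵐ⁰} {a : Kˣ} (h : ResTor v a) : ResTor v (-a) := by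
  rw [← neg_one_mul]
  exact resTor_neg_one.mul h

theorem pair_lemma [CharZero K] (η₁ η₂ : Kˣ) (α₁ β₁ α₂ β₂ lam : ℤ) (hlam : lam ≠ 0) (z w : K)
    (hz : v (z - 1) < 1) (hw : v w ≤ 1) (h1 : (β₂ : K) * η₁ - β₁ * η₂ = lam * z)
    (h2 : (α₁ : K) * η₂ - α₂ * η₁ = lam * w) (hη₁ : v (η₁ : K) ≤ 1) (hη₂ : v (η₂ : K) ≤ 1)
    (hab : v (α₁ : K) = 1 ∨ v (β₁ : K) = 1) (hb₁ : v (η₁ : K) < 1 → v (β₁ : K) = 1)
    (hb₂ : v (η₂ : K) < 1 → v (β₂ : K) = 1) (C₁ C₂ : Kˣ)
    (hC₁ : v (η₁ : K) < 1 → (C₁ : K) = β₁) (hC₁' : v (η₁ : K) = 1 → C₁ = 1)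
    (hC₂ : v (η₂ : K) < 1 → (C₂ : K) = β₂) (hC₂' : v (η₂ : K) = 1 → C₂ = 1) :
    sy v (η₁ / intUnit lam hlam) (η₂ / intUnit lam hlam) = -sy v η₁ C₁ + sy v η₂ C₂ := by
  have hvz : v z = 1 := by
    have : z = 1 + (z - 1) := by ring
    rw [this]
    exact Valuation.map_one_add_of_lt v hz
  have hz0 : z ≠ 0 := by
    rintro rfl
    simp at hvz
  have hl0 : (lam : K) ≠ 0 := Int.cast_ne_zero.2 hlam
  set Λ : Kˣ := intUnit lam hlam with hΛ
  have hΛv : (Λ : K) = lam := rfl
  have hvlz : v ((lam : K) * z) = v (lam : K) := by rw [map_mul, hvz, mul_one]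
  rcases hη₁.lt_or_eq with a1 | a1 <;> rcases hη₂.lt_or_eq with a2 | a2
  · -- both are non-units
    have hvl : v (lam : K) < 1 := by
      rw [← hvlz, ← h1]
      apply Valuation.map_sub_lt
      · rw [map_mul, mul_comm]
        exact mul_lt_one_of_lt_of_le a1 (v_int_le v _)
      · rw [map_mul, mul_comm]
        exact mul_lt_one_of_lt_of_le a2 (v_int_le v _)
    obtain ⟨p, hp, hvp⟩ := exists_prime_of_lt v lam hlam hvl
    have hR₁ : ResTor v C₁ := resTor_int v p hp hvp β₁ C₁ (hC₁ a1) (hb₁ a1)
    have hR₂ : ResTor v C₂ := resTor_int v p hp hvp β₂ C₂ (hC₂ a2) (hb₂ a2)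
    rw [sy_restor_right v _ _ hR₁, sy_restor_right v _ _ hR₂, neg_zero, add_zero]
    let Z : Kˣ := Units.mk0 z hz0
    have hZ : ResTor v Z := resTor_of_principal hz
    have hst := sy_steinberg v ((η₁ / Λ) * (C₂ / Z)) ((η₂ / Λ) * (-(C₁ / Z))) (by
      rw [Units.val_mul, Units.val_mul, Units.val_neg, Units.val_div_eq_div_val,
        Units.val_div_eq_div_val, Units.val_div_eq_div_val, Units.val_div_eq_div_val, hC₁ a1,
        hC₂ a2, hΛv]
      change (η₁ : K) / lam * (β₂ / z) + (η₂ : K) / lam * -(β₁ / z) = 1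
      have e : (η₁ : K) / lam * (β₂ / z) + (η₂ : K) / lam * -(β₁ / z) =
          ((β₂ : K) * η₁ - β₁ * η₂) / (lam * z) := by
        field_simp
        ring
      rw [e, h1, div_self (mul_ne_zero hl0 hz0)])
    rw [sy_mul_left, sy_restor_left v (C₂ / Z) _ (hR₂.div hZ), add_zero, sy_mul_right,
      sy_restor_right v _ _ (resTor_neg (hR₁.div hZ)), add_zero] at hst
    exact hst
  · -- only the first is a non-unit
    have hvl : v (lam : K) = 1 := by
      rw [← hvlz, ← h1]
      rw [Valuation.map_sub_eq_of_lt_right v, map_mul, hb₁ a1, a2, one_mul]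
      rw [map_mul, map_mul, hb₁ a1, a2, one_mul, mul_comm]
      exact mul_lt_one_of_lt_of_le a1 (v_int_le v _)
    have hoΛ : ordv v Λ = 0 := ordv_intUnit v lam hlam hvl
    have hoη : ordv v (η₂ / Λ) = 0 := by
      rw [div_eq_mul_inv, ordv_mul, ordv_inv, hoΛ, (ordv_eq_zero_iff v η₂).2 a2]
      rfl
    rw [hC₂' a2, sy_one_right, add_zero, sy_div_left, sy_units v Λ _ hoΛ hoη, sub_zero,
      sy_congr_right v η₁ (η₂ / Λ) C₁⁻¹, sy_inv_right]
    have e : (η₂ / Λ) / C₁⁻¹ = -(-(η₂ * C₁ / Λ)) := by
      rw [neg_neg, div_inv_eq_mul, div_mul_eq_mul_div]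
    rw [e]
    apply resTor_neg
    apply resTor_of_principal
    have e2 : ((-(η₂ * C₁ / Λ) : Kˣ) : K) - 1 = (z - 1) - (β₂ : K) * η₁ / lam := by
      rw [Units.val_neg, Units.val_div_eq_div_val, Units.val_mul, hC₁ a1, hΛv]
      field_simp
      linear_combination h1
    rw [e2]
    apply Valuation.map_sub_lt v hz
    rw [map_div₀, map_mul, hvl, div_one, mul_comm]
    exact mul_lt_one_of_lt_of_le a1 (v_int_le v _)
  · -- only the second is a non-unit
    have hvl : v (lam : K) = 1 := by
      rw [← hvlz, ← h1]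
      rw [Valuation.map_sub_eq_of_lt_left v, map_mul, hb₂ a2, a1, one_mul]
      rw [map_mul, map_mul, hb₂ a2, a1, one_mul, mul_comm]
      exact mul_lt_one_of_lt_of_le a2 (v_int_le v _)
    have hoΛ : ordv v Λ = 0 := ordv_intUnit v lam hlam hvl
    have hoη : ordv v (η₁ / Λ) = 0 := by
      rw [div_eq_mul_inv, ordv_mul, ordv_inv, hoΛ, (ordv_eq_zero_iff v η₁).2 a1]
      rfl
    rw [hC₁' a1, sy_one_right, neg_zero, zero_add, sy_div_right, sy_units v _ Λ hoη hoΛ, sub_zero,
      sy_congr_left v (η₁ / Λ) C₂⁻¹ η₂, sy_inv_left, ← sy_anti]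
    have e : (η₁ / Λ) / C₂⁻¹ = η₁ * C₂ / Λ := by
      rw [div_inv_eq_mul, div_mul_eq_mul_div]
    rw [e]
    apply resTor_of_principal
    have e2 : ((η₁ * C₂ / Λ : Kˣ) : K) - 1 = (z - 1) + (β₁ : K) * η₂ / lam := by
      rw [Units.val_div_eq_div_val, Units.val_mul, hC₂ a2, hΛv]
      field_simp
      linear_combination h1
    rw [e2]
    apply Valuation.map_add_lt v hz
    rw [map_div₀, map_mul, hvl, div_one, mul_comm]
    exact mul_lt_one_of_lt_of_le a2 (v_int_le v _)
  · -- both are units
    have o1 : ordv v η₁ = 0 := (ordv_eq_zero_iff v η₁).2 a1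
    have o2 : ordv v η₂ = 0 := (ordv_eq_zero_iff v η₂).2 a2
    rw [hC₁' a1, hC₂' a2, sy_one_right, sy_one_right, neg_zero, add_zero]
    have hexp : sy v (η₁ / Λ) (η₂ / Λ) = -sy v (η₁ / η₂) Λ := by
      rw [sy_div_left, sy_div_right, sy_div_right, sy_div_left, sy_self, sy_units v η₁ η₂ o1 o2,
        sy_anti v Λ η₂]
      abel
    rw [hexp, neg_eq_zero]
    rcases (v_int_le v lam).lt_or_eq with hvl | hvl
    · obtain ⟨p, hp, hvp⟩ := exists_prime_of_lt v lam hlam hvl
      apply sy_restor_left
      have ou : ordv v (η₁ / η₂) = 0 := by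
        rw [div_eq_mul_inv, ordv_mul, ordv_inv, o1, o2]; rfl
      have hη20 : (η₂ : K) ≠ 0 := η₂.ne_zero
      rcases hab with hα | hβ
      · have hlw : v ((lam : K) * w) < 1 := by
          rw [map_mul]
          exact mul_lt_one_of_lt_of_le hvl hw
        have hα₂ : v (α₂ : K) = 1 := by
          have e : (α₂ : K) * η₁ = α₁ * η₂ - lam * w := by linear_combination -h2
          have e2 : v ((α₂ : K) * η₁) = 1 := by
            rw [e, Valuation.map_sub_eq_of_lt_left v, map_mul, hα, a2, one_mul]
            rw [map_mul v (α₁ : K), hα, a2, one_mul]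
            exact hlw
          rw [map_mul, a1, mul_one] at e2
          exact e2
        apply resTor_ratio v p hp hvp (η₁ / η₂) ou α₂ α₁ hα₂
        have e3 : (α₂ : K) * ((η₁ / η₂ : Kˣ) : K) - α₁ = -(lam * w / η₂) := by
          rw [Units.val_div_eq_div_val]
          field_simp
          linear_combination -h2
        rw [e3, Valuation.map_neg, map_div₀, a2, div_one]
        exact hlw
      · have hlw : v ((lam : K) * z) < 1 := by
          rw [hvlz]
          exact hvl
        have hβ₂ : v (β₂ : K) = 1 := by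
          have e : (β₂ : K) * η₁ = β₁ * η₂ + lam * z := by linear_combination h1
          have e2 : v ((β₂ : K) * η₁) = 1 := by
            rw [e, Valuation.map_add_eq_of_lt_left v, map_mul, hβ, a2, one_mul]
            rw [map_mul v (β₁ : K), hβ, a2, one_mul]
            exact hlw
          rw [map_mul, a1, mul_one] at e2
          exact e2
        apply resTor_ratio v p hp hvp (η₁ / η₂) ou β₂ β₁ hβ₂
        have e3 : (β₂ : K) * ((η₁ / η₂ : Kˣ) : K) - β₁ = lam * z / η₂ := by
          rw [Units.val_div_eq_div_val]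
          field_simp
          linear_combination h1
        rw [e3, map_div₀, a2, div_one]
        exact hlw
    · apply sy_units
      · rw [div_eq_mul_inv, ordv_mul, ordv_inv, o1, o2]; rfl
      · exact ordv_intUnit v lam hlam hvl

theorem pair_units [CharZero K] (η₁ η₂ : Kˣ) (α₁ β₁ α₂ β₂ lam : ℤ) (hlam : lam ≠ 0) (z w : K)
    (hz : v z ≤ 1) (hw : v w ≤ 1) (h1 : (β₂ : K) * η₁ - β₁ * η₂ = lam * z)
    (h2 : (α₁ : K) * η₂ - α₂ * η₁ = lam * w) (a1 : v (η₁ : K) = 1) (a2 : v (η₂ : K) = 1)
    (hab : v (α₁ : K) = 1 ∨ v (β₁ : K) = 1) :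
    sy v (η₁ / intUnit lam hlam) (η₂ / intUnit lam hlam) = 0 := by
  set Λ : Kˣ := intUnit lam hlam with hΛ
  have o1 : ordv v η₁ = 0 := (ordv_eq_zero_iff v η₁).2 a1
  have o2 : ordv v η₂ = 0 := (ordv_eq_zero_iff v η₂).2 a2
  have hexp : sy v (η₁ / Λ) (η₂ / Λ) = -sy v (η₁ / η₂) Λ := by
    rw [sy_div_left, sy_div_right, sy_div_right, sy_div_left, sy_self, sy_units v η₁ η₂ o1 o2,
      sy_anti v Λ η₂]
    abel
  rw [hexp, neg_eq_zero]
  rcases (v_int_le v lam).lt_or_eq with hvl | hvl
  · obtain ⟨p, hp, hvp⟩ := exists_prime_of_lt v lam hlam hvl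
    apply sy_restor_left
    have ou : ordv v (η₁ / η₂) = 0 := by
      rw [div_eq_mul_inv, ordv_mul, ordv_inv, o1, o2]; rfl
    have hη20 : (η₂ : K) ≠ 0 := η₂.ne_zero
    rcases hab with hα | hβ
    · have hlw : v ((lam : K) * w) < 1 := by
        rw [map_mul]
        exact mul_lt_one_of_lt_of_le hvl hw
      have hα₂ : v (α₂ : K) = 1 := by
        have e : (α₂ : K) * η₁ = α₁ * η₂ - lam * w := by linear_combination -h2
        have e2 : v ((α₂ : K) * η₁) = 1 := by
          rw [e, Valuation.map_sub_eq_of_lt_left v, map_mul, hα, a2, one_mul]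
          rw [map_mul v (α₁ : K), hα, a2, one_mul]
          exact hlw
        rw [map_mul, a1, mul_one] at e2
        exact e2
      apply resTor_ratio v p hp hvp (η₁ / η₂) ou α₂ α₁ hα₂
      have e3 : (α₂ : K) * ((η₁ / η₂ : Kˣ) : K) - α₁ = -(lam * w / η₂) := by
        rw [Units.val_div_eq_div_val]
        field_simp
        linear_combination -h2
      rw [e3, Valuation.map_neg, map_div₀, a2, div_one]
      exact hlw
    · have hlw : v ((lam : K) * z) < 1 := by
        rw [map_mul]
        exact mul_lt_one_of_lt_of_le hvl hz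
      have hβ₂ : v (β₂ : K) = 1 := by
        have e : (β₂ : K) * η₁ = β₁ * η₂ + lam * z := by linear_combination h1
        have e2 : v ((β₂ : K) * η₁) = 1 := by
          rw [e, Valuation.map_add_eq_of_lt_left v, map_mul, hβ, a2, one_mul]
          rw [map_mul v (β₁ : K), hβ, a2, one_mul]
          exact hlw
        rw [map_mul, a1, mul_one] at e2
        exact e2
      apply resTor_ratio v p hp hvp (η₁ / η₂) ou β₂ β₁ hβ₂
      have e3 : (β₂ : K) * ((η₁ / η₂ : Kˣ) : K) - β₁ = lam * z / η₂ := by
        rw [Units.val_div_eq_div_val]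
        field_simp
        linear_combination h1
      rw [e3, map_div₀, a2, div_one]
      exact hlw
  · apply sy_units
    · rw [div_eq_mul_inv, ordv_mul, ordv_inv, o1, o2]; rfl
    · exact ordv_intUnit v lam hlam hvl

/-- Coprime integers are not both in the maximal ideal. -/
theorem coprime_val (m n : ℤ) (h : IsCoprime m n) : v (m : K) = 1 ∨ v (n : K) = 1 := by
  by_contra hc
  push Not at hc
  have hm := lt_of_le_of_ne (v_int_le v m) hc.1
  have hn := lt_of_le_of_ne (v_int_le v n) hc.2
  obtain ⟨a, b, hab⟩ := h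
  have h1 : (a : K) * (m : K) + (b : K) * (n : K) = 1 := by
    exact_mod_cast congrArg (Int.cast : ℤ → K) hab
  have h2 : v ((a : K) * (m : K) + (b : K) * (n : K)) < 1 := by
    apply Valuation.map_add_lt
    · rw [map_mul, mul_comm]
      exact mul_lt_one_of_lt_of_le hm (v_int_le v a)
    · rw [map_mul, mul_comm]
      exact mul_lt_one_of_lt_of_le hn (v_int_le v b)
  rw [h1, map_one] at h2
  exact lt_irrefl _ h2

theorem infinite_lemma [CharZero K] {D : ℕ} (α β c : Fin D → ℤ) (t : Kˣ) (s : K)
    (ht : 1 < v (t : K)) (hs : v s ≤ 1) (η : Fin D → Kˣ)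
    (hη : ∀ i, (η i : K) = α i + β i * s + c i / t) (hprim : ∀ i, IsCoprime (α i) (β i))
    (hnode : ∀ i j, α i * β j - α j * β i ≠ 0 →
      ∃ X Y : ℤ, α i * X + β i * Y + c i = 0 ∧ α j * X + β j * Y + c j = 0) :
    ∃ g : Fin D → (Additive (IsLocalRing.ResidueField v.valuationSubring)ˣ) ⧸
      AddCommGroup.torsion (Additive (IsLocalRing.ResidueField v.valuationSubring)ˣ),
      ∀ i j (h : α i * β j - α j * β i ≠ 0),
        sy v (t * η i / intUnit _ h) (t * η j / intUnit _ h) = g i - g j := by
  classical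
  have ht0 : (t : K) ≠ 0 := t.ne_zero
  have hdiv : ∀ m : ℤ, v ((m : K) / t) < 1 := by
    intro m
    rw [map_div₀, div_eq_mul_inv, mul_comm]
    exact mul_lt_one_of_lt_of_le (inv_lt_one_of_one_lt₀ ht) (v_int_le v m)
  have hint : ∀ (m : ℤ) (y : K), v y ≤ 1 → v ((m : K) * y) ≤ 1 := by
    intro m y hy
    rw [map_mul]
    exact mul_le_one' (v_int_le v m) hy
  have hηle : ∀ i, v (η i : K) ≤ 1 := by
    intro i
    rw [hη]
    exact (Valuation.map_add_le v (Valuation.map_add_le v (v_int_le v _) (hint _ _ hs)) (hdiv _).le)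
  have hβ : ∀ i, v (η i : K) < 1 → v (β i : K) = 1 := by
    intro i hi
    by_contra hne
    have hlt := lt_of_le_of_ne (v_int_le v (β i)) hne
    rcases coprime_val v _ _ (hprim i) with h | h
    · have e : (α i : K) = η i - β i * s - c i / t := by rw [hη]; ring
      have h2 : v (α i : K) < 1 := by
        rw [e]
        apply Valuation.map_sub_lt v _ (hdiv _)
        apply Valuation.map_sub_lt v hi
        rw [map_mul]
        exact mul_lt_one_of_lt_of_le hlt hs
      rw [h] at h2
      exact lt_irrefl _ h2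
    · exact hne h
  have hβ0 : ∀ i, v (η i : K) < 1 → β i ≠ 0 := by
    intro i hi h0
    have := hβ i hi
    rw [h0] at this
    simp at this
  let C : Fin D → Kˣ := fun i => if h : v (η i : K) < 1 then intUnit (β i) (hβ0 i h) else 1
  have hC : ∀ i, v (η i : K) < 1 → (C i : K) = β i := by
    intro i hi
    change ((if h : v (η i : K) < 1 then intUnit (β i) (hβ0 i h) else 1 : Kˣ) : K) = β i
    rw [dif_pos hi]
    rfl
  have hC' : ∀ i, v (η i : K) = 1 → C i = 1 := by
    intro i hi
    change (if h : v (η i : K) < 1 then intUnit (β i) (hβ0 i h) else 1) = 1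
    rw [dif_neg (by rw [hi]; exact lt_irrefl _)]
  refine ⟨fun i => sy v (η i) t - sy v (η i) (C i), ?_⟩
  intro i j h
  obtain ⟨X, Y, hi, hj⟩ := hnode i j h
  have hi' : (α i : K) * X + β i * Y + c i = 0 := by exact_mod_cast congrArg (Int.cast : ℤ → K) hi
  have hj' : (α j : K) * X + β j * Y + c j = 0 := by exact_mod_cast congrArg (Int.cast : ℤ → K) hj
  have hp := pair_lemma v (η i) (η j) (α i) (β i) (α j) (β j) _ h (1 - X / t) (s - Y / t)
    (by
      rw [show (1 : K) - X / t - 1 = -(X / t) by ring, Valuation.map_neg]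
      exact hdiv X)
    (Valuation.map_sub_le v hs (hdiv Y).le)
    (by
      rw [hη, hη]
      push_cast
      field_simp
      linear_combination (β j : K) * hi' - (β i : K) * hj')
    (by
      rw [hη, hη]
      push_cast
      field_simp
      linear_combination (α i : K) * hj' - (α j : K) * hi')
    (hηle i) (hηle j) (coprime_val v _ _ (hprim i)) (hβ i) (hβ j) (C i) (C j) (hC i) (hC' i)
    (hC j) (hC' j)
  set Λ := intUnit (K := K) _ h
  rw [mul_div_assoc, mul_div_assoc, sy_mul_left, sy_mul_right, sy_mul_right, hp, sy_self,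
    sy_div_right, sy_div_left, sy_anti v t (η j), sy_anti v t Λ]
  change _ = (sy v (η i) t - sy v (η i) (C i)) - (sy v (η j) t - sy v (η j) (C j))
  abel

end General

section Assembly

variable {D : ℕ} {K : Type*} [Field K] [CharZero K] {A : Arr D} {N : ℕ} {x y : K}

/-- A finite valuation: both coordinates are integral. -/
theorem finite_case (v : Valuation K ℤᵐ⁰) (h : A.OnCurve N x y) (hx : v x ≤ 1) (hy : v y ≤ 1)
    (i j : Fin D) : phi v (Arr.tau h i j) = 0 := by
  have hle : ∀ i, v (A.form i x y) ≤ 1 := by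
    intro i
    unfold Arr.form
    refine Valuation.map_add_le v (Valuation.map_add_le v ?_ ?_) (v_int_le v _)
    · rw [map_mul]; exact mul_le_one' (v_int_le v _) hx
    · rw [map_mul]; exact mul_le_one' (v_int_le v _) hy
  have hone : ∀ i, v (A.form i x y) = 1 := by
    intro i
    by_contra hne
    have hlt := lt_of_le_of_ne (hle i) hne
    have h1 : v ((N : K) * ∏ i, A.form i x y) < 1 := by
      rw [← Finset.mul_prod_erase _ _ (Finset.mem_univ i), map_mul, map_mul, map_prod]
      have hN : v (N : K) ≤ 1 := by exact_mod_cast v_int_le v (N : ℤ)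
      have hp : ∏ k ∈ Finset.univ.erase i, v (A.form k x y) ≤ 1 :=
        Finset.prod_le_one' (fun k _ => hle k)
      rw [mul_comm]
      exact mul_lt_one_of_lt_of_le (mul_lt_one_of_lt_of_le hlt hp) hN
    rw [show (N : K) * ∏ i, A.form i x y = 1 from h, map_one] at h1
    exact lt_irrefl _ h1
  unfold Arr.tau
  split_ifs with hl
  · exact map_zero _
  · obtain ⟨X, Y, hi, hj⟩ := A.node i j hl
    have hi' : (A.a i : K) * X + A.b i * Y + A.c i = 0 := by
      exact_mod_cast congrArg (Int.cast : ℤ → K) hi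
    have hj' : (A.a j : K) * X + A.b j * Y + A.c j = 0 := by
      exact_mod_cast congrArg (Int.cast : ℤ → K) hj
    have hsub : ∀ (y : K) (m : ℤ), v y ≤ 1 → v (y - m) ≤ 1 :=
      fun y m hy => Valuation.map_sub_le v hy (v_int_le v m)
    exact pair_units v (Arr.L h i) (Arr.L h j) (A.a i) (A.b i) (A.a j) (A.b j) (A.lam i j) hl
      (x - X) (y - Y) (hsub _ _ hx) (hsub _ _ hy)
      (by
        change (A.b j : K) * A.form i x y - A.b i * A.form j x y = _
        unfold Arr.form Arr.lam
        push_cast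
        linear_combination (A.b j : K) * hi' - (A.b i : K) * hj')
      (by
        change (A.a i : K) * A.form j x y - A.a j * A.form i x y = _
        unfold Arr.form Arr.lam
        push_cast
        linear_combination (A.a i : K) * hj' - (A.a j : K) * hi')
      (hone i) (hone j) (coprime_val v _ _ (A.prim i))

/-- For every valuation the tame symbols of the `tau` are of the form `g i - g j`. -/
theorem exists_g (v : Valuation K ℤᵐ⁰) (h : A.OnCurve N x y) :
    ∃ g : Fin D → (Additive (IsLocalRing.ResidueField v.valuationSubring)ˣ) ⧸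
      AddCommGroup.torsion (Additive (IsLocalRing.ResidueField v.valuationSubring)ˣ),
      ∀ i j, A.lam i j ≠ 0 → phi v (Arr.tau h i j) = g i - g j := by
  by_cases hxy : v x ≤ 1 ∧ v y ≤ 1
  · exact ⟨0, fun i j _ => by
      rw [finite_case v h hxy.1 hxy.2]
      simp⟩
  · rcases le_total (v y) (v x) with hle | hle
    · -- t = x
      have hx1 : 1 < v x := by
        by_contra hc
        push Not at hc
        exact hxy ⟨hc, hle.trans hc⟩
      have hx0 : x ≠ 0 := by
        rintro rfl
        simp at hx1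
      let t : Kˣ := Units.mk0 x hx0
      let η : Fin D → Kˣ := fun i => Arr.L h i / t
      obtain ⟨g, hg⟩ := infinite_lemma v A.a A.b A.c t (y / x) hx1
        (by
          rw [map_div₀]
          exact div_le_one_of_le₀ hle zero_le)
        η
        (by
          intro i
          change ((Arr.L h i / t : Kˣ) : K) = _
          rw [Units.val_div_eq_div_val]
          change A.form i x y / x = (A.a i : K) + A.b i * (y / x) + A.c i / x
          unfold Arr.form
          field_simp)
        A.prim A.node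
      refine ⟨g, fun i j hij => ?_⟩
      unfold Arr.tau
      rw [dif_neg hij]
      have := hg i j hij
      have e : ∀ i, t * η i = Arr.L h i := fun i => mul_div_cancel _ _
      rw [e, e] at this
      exact this
    · -- t = y
      have hy1 : 1 < v y := by
        by_contra hc
        push Not at hc
        exact hxy ⟨hle.trans hc, hc⟩
      have hy0 : y ≠ 0 := by
        rintro rfl
        simp at hy1
      let t : Kˣ := Units.mk0 y hy0
      let η : Fin D → Kˣ := fun i => Arr.L h i / t
      obtain ⟨g, hg⟩ := infinite_lemma v A.b A.a A.c t (x / y) hy1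
        (by
          rw [map_div₀]
          exact div_le_one_of_le₀ hle zero_le)
        η
        (by
          intro i
          change ((Arr.L h i / t : Kˣ) : K) = _
          rw [Units.val_div_eq_div_val]
          change A.form i x y / y = (A.b i : K) + A.a i * (x / y) + A.c i / y
          unfold Arr.form
          field_simp
          ring)
        (fun i => (A.prim i).symm)
        (by
          intro i j hij
          obtain ⟨X, Y, h1, h2⟩ := A.node i j (by
            intro h0
            apply hij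
            linear_combination -h0)
          exact ⟨Y, X, by linear_combination h1, by linear_combination h2⟩)
      refine ⟨g, fun i j hij => ?_⟩
      unfold Arr.tau
      rw [dif_neg hij]
      have hij' : A.b i * A.a j - A.b j * A.a i ≠ 0 := by
        intro h0
        apply hij
        unfold Arr.lam
        linear_combination -h0
      have := hg i j hij'
      have e : ∀ i, t * η i = Arr.L h i := fun i => mul_div_cancel _ _
      rw [e, e] at this
      have hneg : intUnit (K := K) _ hij' = -intUnit (A.lam i j) hij := by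
        apply Units.ext
        rw [Units.val_neg]
        change ((A.b i * A.a j - A.b j * A.a i : ℤ) : K) = -((A.lam i j : ℤ) : K)
        unfold Arr.lam
        push_cast
        ring
      rw [hneg, div_neg, div_neg, sy_neg_left, sy_neg_right] at this
      exact this

theorem integral_sum (h : A.OnCurve N x y) (n : Fin D → Fin D → ℤ)
    (hanti : ∀ i j, n j i = -n i j) (hpar : ∀ i j, A.lam i j = 0 → n i j = 0)
    (hrow : ∀ i, ∑ j, n i j = 0) :
    Integral (∑ p ∈ Finset.univ.filter (fun p : Fin D × Fin D => p.1 < p.2),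
      n p.1 p.2 • Arr.tau h p.1 p.2) := by
  intro v
  rw [← phi_eq_zero_iff, map_sum]
  obtain ⟨g, hg⟩ := exists_g v h
  have h1 : ∀ p ∈ Finset.univ.filter (fun p : Fin D × Fin D => p.1 < p.2),
      phi v (n p.1 p.2 • Arr.tau h p.1 p.2) = n p.1 p.2 • g p.1 - n p.1 p.2 • g p.2 := by
    intro p _
    rw [map_zsmul, ← smul_sub]
    by_cases hl : A.lam p.1 p.2 = 0
    · rw [hpar _ _ hl, zero_smul, zero_smul]
    · rw [hg _ _ hl]
  rw [Finset.sum_congr rfl h1, Finset.sum_sub_distrib]
  have h2 : ∑ p ∈ Finset.univ.filter (fun p : Fin D × Fin D => p.1 < p.2), n p.1 p.2 • g p.2 =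
      -∑ p ∈ Finset.univ.filter (fun p : Fin D × Fin D => p.2 < p.1), n p.1 p.2 • g p.1 := by
    rw [← Finset.sum_neg_distrib]
    refine Finset.sum_bij (fun p _ => (p.2, p.1)) ?_ ?_ ?_ ?_
    · intro p hp
      rw [Finset.mem_filter] at hp ⊢
      exact ⟨Finset.mem_univ _, hp.2⟩
    · intro p _ q _ hpq
      rw [Prod.mk.injEq] at hpq
      exact Prod.ext hpq.2 hpq.1
    · intro p hp
      rw [Finset.mem_filter] at hp
      exact ⟨(p.2, p.1), Finset.mem_filter.2 ⟨Finset.mem_univ _, hp.2⟩, rfl⟩
    · intro p _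
      change n p.1 p.2 • g p.2 = -(n p.2 p.1 • g p.2)
      rw [hanti p.1 p.2, neg_smul, neg_neg]
  rw [h2, sub_neg_eq_add]
  have h3 : ∑ p ∈ Finset.univ.filter (fun p : Fin D × Fin D => p.1 = p.2), n p.1 p.2 • g p.1 =
      0 := by
    apply Finset.sum_eq_zero
    intro p hp
    rw [Finset.mem_filter] at hp
    rw [hpar p.1 p.2 (by rw [hp.2]; exact A.lam_self _), zero_smul]
  have h4 : ∑ p : Fin D × Fin D, n p.1 p.2 • g p.1 = 0 := by
    rw [Fintype.sum_prod_type]
    apply Finset.sum_eq_zero
    intro i _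
    change ∑ j, n i j • g i = 0
    rw [← Finset.sum_smul, hrow i, zero_smul]
  have h5 : ∑ p : Fin D × Fin D, n p.1 p.2 • g p.1 =
      ∑ p ∈ Finset.univ.filter (fun p : Fin D × Fin D => p.1 < p.2), n p.1 p.2 • g p.1 +
      (∑ p ∈ Finset.univ.filter (fun p : Fin D × Fin D => p.2 < p.1), n p.1 p.2 • g p.1 +
      ∑ p ∈ Finset.univ.filter (fun p : Fin D × Fin D => p.1 = p.2), n p.1 p.2 • g p.1) := by
    rw [← Finset.sum_filter_add_sum_filter_not Finset.univ
      (fun p : Fin D × Fin D => p.1 < p.2)]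
    congr 1
    rw [← Finset.sum_filter_add_sum_filter_not
      (Finset.univ.filter fun p : Fin D × Fin D => ¬ p.1 < p.2)
      (fun p : Fin D × Fin D => p.2 < p.1), Finset.filter_filter, Finset.filter_filter]
    congr 1
    · apply Finset.sum_congr _ (fun _ _ => rfl)
      ext p
      simp only [Finset.mem_filter, Finset.mem_univ, true_and, not_lt]
      exact ⟨fun h => h.2, fun h => ⟨h.le, h⟩⟩
    · apply Finset.sum_congr _ (fun _ _ => rfl)
      ext p
      simp only [Finset.mem_filter, Finset.mem_univ, true_and, not_lt]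
      exact ⟨fun h => le_antisymm h.2 h.1, fun h => ⟨h.ge, h.le⟩⟩
  rw [h3, add_zero] at h5
  rw [← h5, h4]

end Assembly

end

end P4a177b
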