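import Mathlib

/-!
# Milnor's K_2 of a field and tame symbols

All constructions are written additively.
-/

namespace P4a177b

open scoped TensorProduct
open WithZero

noncomputable section

section K2

variable (K : Type*) [Field K]

/-- The subgroup of `Kˣ ⊗ Kˣ` generated by the elements `a ⊗ b` with `a + b = 1`. -/
def steinberg : AddSubgroup (Additive Kˣ ⊗[ℤ] Additive Kˣ) :=
  AddSubgroup.closure {x | ∃ a b : Kˣ, (a : K) + (b : K) = 1 ∧
    x = Additive.ofMul a ⊗ₜ[ℤ] Additive.ofMul b}

/-- Milnor's `K₂` of a field, written additively. -/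
abbrev K2 : Type _ := (Additive Kˣ ⊗[ℤ] Additive Kˣ) ⧸ steinberg K

variable {K}

/-- The symbol `{a, b}` in `K₂(K)`. -/
def symb (a b : Kˣ) : K2 K :=
  QuotientAddGroup.mk (Additive.ofMul a ⊗ₜ[ℤ] Additive.ofMul b)

theorem symb_mul_left (a b c : Kˣ) : symb (a * b) c = symb a c + symb b c := by
  unfold symb
  rw [ofMul_mul, TensorProduct.add_tmul]
  rfl

theorem symb_mul_right (a b c : Kˣ) : symb a (b * c) = symb a b + symb a c := by
  unfold symb
  rw [ofMul_mul, TensorProduct.tmul_add]
  rfl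

theorem symb_steinberg (a b : Kˣ) (h : (a : K) + (b : K) = 1) : symb a b = 0 := by
  unfold symb
  rw [QuotientAddGroup.eq_zero_iff]
  exact AddSubgroup.subset_closure ⟨a, b, h, rfl⟩

theorem symb_one_left (a : Kˣ) : symb 1 a = 0 := by
  have h := symb_mul_left 1 1 a
  rw [mul_one] at h
  simpa using h.symm

theorem symb_one_right (a : Kˣ) : symb a 1 = 0 := by
  have h := symb_mul_right a 1 1
  rw [mul_one] at h
  simpa using h.symm

theorem symb_inv_left (a b : Kˣ) : symb a⁻¹ b = -symb a b := by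
  have h := symb_mul_left a a⁻¹ b
  rw [mul_inv_cancel, symb_one_left] at h
  exact (neg_eq_of_add_eq_zero_right h.symm).symm

theorem symb_inv_right (a b : Kˣ) : symb a b⁻¹ = -symb a b := by
  have h := symb_mul_right a b b⁻¹
  rw [mul_inv_cancel, symb_one_right] at h
  exact (neg_eq_of_add_eq_zero_right h.symm).symm

theorem symb_div_left (a b c : Kˣ) : symb (a / b) c = symb a c - symb b c := by
  rw [div_eq_mul_inv, symb_mul_left, symb_inv_left, sub_eq_add_neg]

theorem symb_div_right (a b c : Kˣ) : symb a (b / c) = symb a b - symb a c := by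
  rw [div_eq_mul_inv, symb_mul_right, symb_inv_right, sub_eq_add_neg]

/-- The universal property of `K₂`. -/
def liftK2 {G : Type*} [AddCommGroup G] (B : Kˣ → Kˣ → G)
    (hl : ∀ a b c, B (a * b) c = B a c + B b c)
    (hr : ∀ a b c, B a (b * c) = B a b + B a c)
    (hs : ∀ a b : Kˣ, (a : K) + (b : K) = 1 → B a b = 0) : K2 K →+ G :=
  QuotientAddGroup.lift (steinberg K)
    (TensorProduct.liftAddHom (R := ℤ) (M := Additive Kˣ) (N := Additive Kˣ) (P := G)
      (AddMonoidHom.mk' (fun a => AddMonoidHom.mk' (fun b => B a.toMul b.toMul)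
        (fun b c => hr _ _ _)) (fun a b => by ext c; exact hl _ _ _))
      (fun r a b => by rw [map_zsmul, map_zsmul]; rfl))
    (by
      unfold steinberg
      rw [AddSubgroup.closure_le]
      rintro x ⟨a, b, hab, rfl⟩
      exact hs a b hab)

theorem liftK2_symb {G : Type*} [AddCommGroup G] (B : Kˣ → Kˣ → G)
    (hl : ∀ a b c, B (a * b) c = B a c + B b c)
    (hr : ∀ a b c, B a (b * c) = B a b + B a c)
    (hs : ∀ a b : Kˣ, (a : K) + (b : K) = 1 → B a b = 0) (a b : Kˣ) :
    liftK2 B hl hr hs (symb a b) = B a b := rfl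

end K2

section Tame

variable {K : Type*} [Field K]

/-- The order of a nonzero element with respect to a discrete valuation
(positive on the maximal ideal). -/
def ordv (v : Valuation K ℤᵐ⁰) (a : Kˣ) : ℤ := -log (v (a : K))

theorem ordv_mul (v : Valuation K ℤᵐ⁰) (a b : Kˣ) : ordv v (a * b) = ordv v a + ordv v b := by
  unfold ordv
  rw [Units.val_mul, map_mul, log_mul (by simp) (by simp)]
  ring

theorem ordv_one (v : Valuation K ℤᵐ⁰) : ordv v 1 = 0 := by
  unfold ordv
  simp

theorem ordv_inv (v : Valuation K ℤᵐ⁰) (a : Kˣ) : ordv v a⁻¹ = -ordv v a := by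
  have h := ordv_mul v a a⁻¹
  rw [mul_inv_cancel, ordv_one] at h
  linarith

theorem ordv_zpow (v : Valuation K ℤᵐ⁰) (a : Kˣ) (n : ℤ) : ordv v (a ^ n) = n * ordv v a := by
  unfold ordv
  rw [Units.val_zpow_eq_zpow_val, map_zpow₀, log_zpow]
  simp

theorem ordv_eq_zero_iff (v : Valuation K ℤᵐ⁰) (a : Kˣ) : ordv v a = 0 ↔ v (a : K) = 1 := by
  unfold ordv
  constructor
  · intro h
    have h1 : log (v (a : K)) = 0 := by linarith
    have h2 := exp_log (x := v (a : K)) (by simp)
    rw [← h2, h1, exp_zero]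
  · intro h
    rw [h]
    simp

theorem ordv_neg (v : Valuation K ℤᵐ⁰) (a : Kˣ) : ordv v (-a) = ordv v a := by
  unfold ordv
  rw [Units.val_neg, Valuation.map_neg]

theorem ordv_neg_one (v : Valuation K ℤᵐ⁰) : ordv v (-1) = 0 := by
  rw [ordv_neg, ordv_one]

/-- The element `(-1)^(mn) a^n b^(-m)` with `m = ord a` and `n = ord b`. -/
def tameElt (v : Valuation K ℤᵐ⁰) (a b : Kˣ) : Kˣ :=
  (-1) ^ (ordv v a * ordv v b) * a ^ (ordv v b) * (b ^ (ordv v a))⁻¹

theorem ordv_tameElt (v : Valuation K ℤᵐ⁰) (a b : Kˣ) : ordv v (tameElt v a b) = 0 := by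
  unfold tameElt
  rw [ordv_mul, ordv_mul, ordv_inv, ordv_zpow, ordv_zpow, ordv_zpow, ordv_neg_one]
  ring

theorem mem_unitGroup_iff (v : Valuation K ℤᵐ⁰) (a : Kˣ) :
    a ∈ v.valuationSubring.unitGroup ↔ ordv v a = 0 := by
  rw [ordv_eq_zero_iff, ValuationSubring.mem_unitGroup_iff]
  exact (v.isEquiv_valuation_valuationSubring.eq_one_iff_eq_one).symm

/-- The residue class of an element of order zero, as a unit of the residue field. -/
def resUnit (v : Valuation K ℤᵐ⁰) (a : Kˣ) (h : ordv v a = 0) :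
    (IsLocalRing.ResidueField v.valuationSubring)ˣ :=
  v.valuationSubring.unitGroupToResidueFieldUnits ⟨a, (mem_unitGroup_iff v a).2 h⟩

theorem resUnit_mul (v : Valuation K ℤᵐ⁰) (a b : Kˣ) (ha : ordv v a = 0) (hb : ordv v b = 0)
    (hab : ordv v (a * b) = 0) : resUnit v (a * b) hab = resUnit v a ha * resUnit v b hb := by
  unfold resUnit
  rw [← map_mul]
  rfl

/-- `a` and `b` of order zero have the same residue iff `a / b - 1` lies in the maximal ideal. -/
theorem resUnit_eq_one (v : Valuation K ℤᵐ⁰) (a : Kˣ) (ha : ordv v a = 0)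
    (h : v ((a : K) - 1) < 1) : resUnit v a ha = 1 := by
  unfold resUnit
  have hk := v.valuationSubring.ker_unitGroupToResidueFieldUnits
  rw [← MonoidHom.mem_ker, hk, Subgroup.mem_comap]
  change a ∈ v.valuationSubring.principalUnitGroup
  rw [ValuationSubring.mem_principalUnitGroup_iff]
  exact (v.isEquiv_valuation_valuationSubring.lt_one_iff_lt_one).1 h

/-- The tame symbol of a pair, in the (additively written) multiplicative group of the residue
field. -/
def tameFun (v : Valuation K ℤᵐ⁰) (a b : Kˣ) :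
    Additive (IsLocalRing.ResidueField v.valuationSubring)ˣ :=
  Additive.ofMul (resUnit v (tameElt v a b) (ordv_tameElt v a b))

theorem tameElt_mul_left (v : Valuation K ℤᵐ⁰) (a b c : Kˣ) :
    tameElt v (a * b) c = tameElt v a c * tameElt v b c := by
  unfold tameElt
  rw [ordv_mul, add_mul, zpow_add, mul_zpow, zpow_add, mul_inv]
  ac_rfl

theorem tameElt_mul_right (v : Valuation K ℤᵐ⁰) (a b c : Kˣ) :
    tameElt v a (b * c) = tameElt v a b * tameElt v a c := by
  unfold tameElt
  rw [ordv_mul, mul_add, zpow_add, mul_zpow, zpow_add, mul_inv]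
  ac_rfl

theorem resUnit_congr (v : Valuation K ℤᵐ⁰) {a b : Kˣ} (h : a = b) (ha : ordv v a = 0)
    (hb : ordv v b = 0) : resUnit v a ha = resUnit v b hb := by
  subst h; rfl

theorem tameFun_mul_left (v : Valuation K ℤᵐ⁰) (a b c : Kˣ) :
    tameFun v (a * b) c = tameFun v a c + tameFun v b c := by
  unfold tameFun
  rw [← ofMul_mul, ← resUnit_mul v _ _ _ _ (by rw [ordv_mul, ordv_tameElt, ordv_tameElt, add_zero])]
  exact congrArg _ (resUnit_congr v (tameElt_mul_left v a b c) _ _)

theorem tameFun_mul_right (v : Valuation K ℤᵐ⁰) (a b c : Kˣ) :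
    tameFun v a (b * c) = tameFun v a b + tameFun v a c := by
  unfold tameFun
  rw [← ofMul_mul, ← resUnit_mul v _ _ _ _ (by rw [ordv_mul, ordv_tameElt, ordv_tameElt, add_zero])]
  exact congrArg _ (resUnit_congr v (tameElt_mul_right v a b c) _ _)

end Tame

end

end P4a177b
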