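import Pool.Agent.Lib.P4a177b.Curve

/-!
# Local coordinates at a node of the arrangement

PROOF SKETCH. Let `(x₀, y₀)` be the integral node of the lines `i, j` (`A.node`). The map
`Φ (x, y) = (l_i * ∏_{k ≠ i, j} l_k, l_j)` from `ℂ²` to `ℂ²` is polynomial, `Φ (x₀, y₀) = 0`,
and its derivative at `(x₀, y₀)` is `(H₀ dl_i, dl_j)`, `H₀ = ∏_{k ≠ i, j} l_k (x₀, y₀) ≠ 0` by
`A.gen` and `A.par`, invertible since `lam i j ≠ 0`. Take the local inverse `Ψ = (ψ₁, ψ₂)`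
(`ContDiffAt.toOpenPartialHomeomorph`/`HasStrictFDerivAt.localInverse`, `ContDiffAt.to_localInverse`,
it is `C¹` near `0`), and shrink the polydisc so that all the forms `l_k`, `k ≠ i, j`, stay in the
ball around their (nonzero) value at the node. `r` is chosen transcendental in a small
interval (algebraic numbers are countable). Real differentiability is enough (`ContDiffOn ℝ`).
-/

namespace P4a177b

variable {D : ℕ} (A : Arr D)

/-- There are transcendental numbers in every interval. -/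
theorem exists_transcendental_Ioo {ε : ℝ} (hε : 0 < ε) :
    ∃ r : ℝ, 0 < r ∧ r < ε ∧ Transcendental ℚ r := by
  by_contra h
  push Not at h
  have hsub : Set.Ioo (0 : ℝ) ε ⊆ {x : ℝ | IsAlgebraic ℚ x} := by
    intro x hx
    have := h x hx.1 hx.2
    unfold Transcendental at this
    exact not_not.1 this
  have hc : (Set.Ioo (0 : ℝ) ε).Countable := (Algebraic.countable ℚ ℝ).mono hsub
  rw [Cardinal.Real.Ioo_countable_iff] at hc
  linarith

/-- The linear part of a form. -/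
noncomputable def Arr.lin (k : Fin D) : (ℂ × ℂ) →L[ℂ] ℂ :=
  (A.a k : ℂ) • ContinuousLinearMap.fst ℂ ℂ ℂ + (A.b k : ℂ) • ContinuousLinearMap.snd ℂ ℂ ℂ

theorem Arr.lin_apply (k : Fin D) (p : ℂ × ℂ) :
    A.lin k p = (A.a k : ℂ) * p.1 + (A.b k : ℂ) * p.2 := by
  simp [Arr.lin]

theorem Arr.form_eq_lin (k : Fin D) (p : ℂ × ℂ) :
    A.form k p.1 p.2 = A.lin k p + (A.c k : ℂ) := by
  rw [Arr.lin_apply]; rfl

theorem Arr.hasFDerivAt_form (k : Fin D) (p : ℂ × ℂ) :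
    HasFDerivAt (fun q : ℂ × ℂ => A.form k q.1 q.2) (A.lin k) p := by
  have h : (fun q : ℂ × ℂ => A.form k q.1 q.2) = fun q => A.lin k q + (A.c k : ℂ) :=
    funext (A.form_eq_lin k)
  rw [h]
  exact (A.lin k).hasFDerivAt.add_const _

theorem Arr.contDiff_form (k : Fin D) :
    ContDiff ℂ 1 (fun q : ℂ × ℂ => A.form k q.1 q.2) := by
  have h : (fun q : ℂ × ℂ => A.form k q.1 q.2) = fun q => A.lin k q + (A.c k : ℂ) :=
    funext (A.form_eq_lin k)
  rw [h]
  exact (A.lin k).contDiff.add contDiff_const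

/-- The product of the remaining forms. -/
noncomputable def Arr.rest (i j : Fin D) (q : ℂ × ℂ) : ℂ :=
  ∏ k ∈ (Finset.univ.erase i).erase j, A.form k q.1 q.2

theorem Arr.contDiff_rest (i j : Fin D) : ContDiff ℂ 1 (A.rest i j) := by
  have h : A.rest i j = fun q => ∏ k ∈ (Finset.univ.erase i).erase j, A.form k q.1 q.2 := rfl
  rw [h]
  exact contDiff_prod (fun k _ => A.contDiff_form k)

/-- The local coordinates. -/
noncomputable def Arr.Phi (i j : Fin D) (q : ℂ × ℂ) : ℂ × ℂ :=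
  (A.form i q.1 q.2 * A.rest i j q, A.form j q.1 q.2)

theorem Arr.contDiff_Phi (i j : Fin D) : ContDiff ℂ 1 (A.Phi i j) :=
  ((A.contDiff_form i).mul (A.contDiff_rest i j)).prodMk (A.contDiff_form j)

/-- The derivative of the local coordinates. -/
noncomputable def Arr.dPhi (i j : Fin D) (H : ℂ) : (ℂ × ℂ) →L[ℂ] (ℂ × ℂ) :=
  (H • A.lin i).prod (A.lin j)

/-- The inverse of the derivative of the local coordinates. -/
noncomputable def Arr.dPsi (i j : Fin D) (H : ℂ) : (ℂ × ℂ) →L[ℂ] (ℂ × ℂ) :=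
  (((A.b j : ℂ) / ((A.lam i j : ℂ) * H)) • ContinuousLinearMap.fst ℂ ℂ ℂ -
    ((A.b i : ℂ) / (A.lam i j : ℂ)) • ContinuousLinearMap.snd ℂ ℂ ℂ).prod
  (((A.a i : ℂ) / (A.lam i j : ℂ)) • ContinuousLinearMap.snd ℂ ℂ ℂ -
    ((A.a j : ℂ) / ((A.lam i j : ℂ) * H)) • ContinuousLinearMap.fst ℂ ℂ ℂ)

/-- The derivative of the local coordinates, as an equivalence. -/
noncomputable def Arr.ePhi (i j : Fin D) (H : ℂ) (hij : A.lam i j ≠ 0) (hH : H ≠ 0) :
    (ℂ × ℂ) ≃L[ℂ] (ℂ × ℂ) :=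
  ContinuousLinearEquiv.equivOfInverse (A.dPhi i j H) (A.dPsi i j H)
    (by
      have hl : (A.lam i j : ℂ) ≠ 0 := by exact_mod_cast hij
      have hl2 : (A.lam i j : ℂ) = (A.a i : ℂ) * A.b j - A.a j * A.b i := by
        rw [Arr.lam_def]; push_cast; ring
      rintro ⟨u, v⟩
      simp only [Arr.dPhi, Arr.dPsi, Arr.lin, ContinuousLinearMap.prod_apply,
        sub_apply, smul_apply,
        add_apply, ContinuousLinearMap.coe_fst', ContinuousLinearMap.coe_snd',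
        smul_eq_mul]
      ext
      · simp only
        field_simp
        rw [hl2]; ring
      · simp only
        field_simp
        rw [hl2]; ring)
    (by
      have hl : (A.lam i j : ℂ) ≠ 0 := by exact_mod_cast hij
      have hl2 : (A.lam i j : ℂ) = (A.a i : ℂ) * A.b j - A.a j * A.b i := by
        rw [Arr.lam_def]; push_cast; ring
      rintro ⟨u, v⟩
      simp only [Arr.dPhi, Arr.dPsi, Arr.lin, ContinuousLinearMap.prod_apply,
        sub_apply, smul_apply,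
        add_apply, ContinuousLinearMap.coe_fst', ContinuousLinearMap.coe_snd',
        smul_eq_mul]
      ext
      · simp only
        field_simp
        rw [hl2]; ring
      · simp only
        field_simp
        rw [hl2]; ring)

theorem Arr.ePhi_coe (i j : Fin D) (H : ℂ) (hij : A.lam i j ≠ 0) (hH : H ≠ 0) :
    ((A.ePhi i j H hij hH : (ℂ × ℂ) ≃L[ℂ] (ℂ × ℂ)) : (ℂ × ℂ) →L[ℂ] (ℂ × ℂ)) = A.dPhi i j H := rfl

theorem Arr.hasFDerivAt_Phi (i j : Fin D) (p : ℂ × ℂ) (hp : A.form i p.1 p.2 = 0) :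
    HasFDerivAt (A.Phi i j) (A.dPhi i j (A.rest i j p)) p := by
  have hr : HasFDerivAt (A.rest i j) (fderiv ℂ (A.rest i j) p) p :=
    ((A.contDiff_rest i j).differentiable one_ne_zero p).hasFDerivAt
  have h1 := (A.hasFDerivAt_form i p).fun_mul hr
  have h2 : A.form i p.1 p.2 • fderiv ℂ (A.rest i j) p + A.rest i j p • A.lin i =
      A.rest i j p • A.lin i := by
    rw [hp]
    ext <;> simp
  rw [h2] at h1
  exact h1.prodMk (A.hasFDerivAt_form j p)

theorem Arr.exists_chart (i j : Fin D) (hij : A.lam i j ≠ 0) :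
    ∃ (r : ℝ) (U : Set (ℂ × ℂ)) (ψ₁ ψ₂ : ℂ × ℂ → ℂ) (v : Fin D → ℂ),
      0 < r ∧ Transcendental ℚ r ∧ IsOpen U ∧
      (∀ X Y : ℂ, ‖X‖ ≤ r → ‖Y‖ ≤ r → (X, Y) ∈ U) ∧
      ContDiffOn ℝ 1 ψ₁ U ∧ ContDiffOn ℝ 1 ψ₂ U ∧
      (∀ X Y : ℂ, (X, Y) ∈ U →
        A.form i (ψ₁ (X, Y)) (ψ₂ (X, Y)) *
          ∏ k ∈ (Finset.univ.erase i).erase j, A.form k (ψ₁ (X, Y)) (ψ₂ (X, Y)) = X ∧
        A.form j (ψ₁ (X, Y)) (ψ₂ (X, Y)) = Y ∧
        ∀ k, k ≠ i → k ≠ j →
          v k ≠ 0 ∧ ‖A.form k (ψ₁ (X, Y)) (ψ₂ (X, Y)) - v k‖ ≤ ‖v k‖ / 2) := by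
  classical
  have hne : i ≠ j := by
    rintro rfl
    exact hij (A.lam_self i)
  obtain ⟨x₀, y₀, hx, hy⟩ := A.node i j hij
  set p : ℂ × ℂ := ((x₀ : ℂ), (y₀ : ℂ)) with hp
  have hpi : A.form i p.1 p.2 = 0 := by
    unfold Arr.form
    rw [hp]
    simp only
    exact_mod_cast hx
  have hpj : A.form j p.1 p.2 = 0 := by
    unfold Arr.form
    rw [hp]
    simp only
    exact_mod_cast hy
  have hpk : ∀ k, k ≠ i → k ≠ j → A.form k p.1 p.2 ≠ 0 := by
    intro k hki hkj h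
    exact A.gen i j k hne hkj.symm hki.symm p.1 p.2 ⟨hpi, hpj, h⟩
  have hH : A.rest i j p ≠ 0 := by
    unfold Arr.rest
    rw [Finset.prod_ne_zero_iff]
    intro k hk
    rw [Finset.mem_erase, Finset.mem_erase] at hk
    exact hpk k hk.2.1 hk.1
  have hcd : ContDiffAt ℂ 1 (A.Phi i j) p := (A.contDiff_Phi i j).contDiffAt
  have hfd : HasFDerivAt (A.Phi i j)
      ((A.ePhi i j (A.rest i j p) hij hH : (ℂ × ℂ) ≃L[ℂ] (ℂ × ℂ)) : (ℂ × ℂ) →L[ℂ] (ℂ × ℂ)) p := by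
    rw [A.ePhi_coe]
    exact A.hasFDerivAt_Phi i j p hpi
  have hstrict := hcd.hasStrictFDerivAt' hfd one_ne_zero
  have hPhip : A.Phi i j p = (0, 0) := by
    unfold Arr.Phi
    rw [hpi, hpj, zero_mul]
  -- the local inverse
  set Ψ : ℂ × ℂ → ℂ × ℂ := hcd.localInverse hfd one_ne_zero with hΨ
  have hΨp : Ψ (0, 0) = p := by
    rw [← hPhip]
    exact hcd.localInverse_apply_image hfd one_ne_zero
  have hΨcd : ContDiffAt ℂ 1 Ψ (0, 0) := by
    have := hcd.to_localInverse hfd one_ne_zero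
    rwa [hPhip] at this
  have hright : ∀ᶠ q in nhds ((0, 0) : ℂ × ℂ), A.Phi i j (Ψ q) = q := by
    have := hstrict.eventually_right_inverse
    rwa [hPhip] at this
  obtain ⟨u, hu, hucd⟩ := hΨcd.contDiffOn le_rfl (by simp)
  have hcont : ContinuousAt Ψ (0, 0) := hΨcd.continuousAt
  have hclose : ∀ k : Fin D, ∀ᶠ q in nhds ((0, 0) : ℂ × ℂ), k ≠ i → k ≠ j →
      ‖A.form k (Ψ q).1 (Ψ q).2 - A.form k p.1 p.2‖ ≤ ‖A.form k p.1 p.2‖ / 2 := by
    intro k
    by_cases hk : k ≠ i ∧ k ≠ j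
    · have hpos : 0 < ‖A.form k p.1 p.2‖ / 2 := by
        have := norm_pos_iff.2 (hpk k hk.1 hk.2)
        linarith
      have hc : ContinuousAt (fun q => A.form k (Ψ q).1 (Ψ q).2) (0, 0) := by
        have h1 : ContinuousAt (fun q : ℂ × ℂ => A.form k q.1 q.2) (Ψ (0, 0)) :=
          (A.contDiff_form k).continuous.continuousAt
        exact ContinuousAt.comp (f := Ψ) h1 hcont
      have ht := hc.tendsto
      simp only [hΨp] at ht
      have := (Metric.tendsto_nhds.1 ht) _ hpos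
      filter_upwards [this] with q hq _ _
      rw [dist_eq_norm] at hq
      exact hq.le
    · refine Filter.Eventually.of_forall ?_
      intro q h1 h2
      exact absurd ⟨h1, h2⟩ hk
  have hall : ∀ᶠ q in nhds ((0, 0) : ℂ × ℂ), ∀ k : Fin D, k ≠ i → k ≠ j →
      ‖A.form k (Ψ q).1 (Ψ q).2 - A.form k p.1 p.2‖ ≤ ‖A.form k p.1 p.2‖ / 2 :=
    Filter.eventually_all.2 hclose
  have hfin : ∀ᶠ q in nhds ((0, 0) : ℂ × ℂ), q ∈ u ∧ A.Phi i j (Ψ q) = q ∧
      ∀ k : Fin D, k ≠ i → k ≠ j →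
      ‖A.form k (Ψ q).1 (Ψ q).2 - A.form k p.1 p.2‖ ≤ ‖A.form k p.1 p.2‖ / 2 := by
    filter_upwards [hu, hright, hall] with q h1 h2 h3
    exact ⟨h1, h2, h3⟩
  obtain ⟨ε, hε, hball⟩ := Metric.eventually_nhds_iff_ball.1 hfin
  obtain ⟨r, hr0, hrε, hrt⟩ := exists_transcendental_Ioo hε
  have hΨon : ContDiffOn ℝ 1 Ψ (Metric.ball (0, 0) ε) :=
    (hucd.mono (fun q hq => (hball q hq).1)).restrict_scalars ℝ
  refine ⟨r, Metric.ball (0, 0) ε, fun q => (Ψ q).1, fun q => (Ψ q).2,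
    fun k => A.form k p.1 p.2, hr0, hrt, Metric.isOpen_ball, ?_, hΨon.fst, hΨon.snd, ?_⟩
  · intro X Y hX hY
    rw [Metric.mem_ball, dist_eq_norm]
    have : ((X, Y) : ℂ × ℂ) - (0, 0) = (X, Y) := by simp
    rw [this, Prod.norm_def]
    exact max_lt (hX.trans_lt hrε) (hY.trans_lt hrε)
  · intro X Y hXY
    obtain ⟨_, h2, h3⟩ := hball _ hXY
    unfold Arr.Phi Arr.rest at h2
    rw [Prod.mk.injEq] at h2
    refine ⟨h2.1, h2.2, ?_⟩
    intro k hki hkj
    exact ⟨hpk k hki hkj, h3 k hki hkj⟩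

end P4a177b
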