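import Pool.Agent.Lib.P4a177b.LoopA

/-!
# The vanishing loops and the growth of the regulator integrals

With the chart of `LoopA` (for `i ≠ j`, as `lam i i = 0`) and `N ≥ N₀` with
`1 / (N r) ≤ r`, put `X t = r e^{it}`, `Y t = (1 / (N r)) e^{-it}`, `x t = ψ₁ (X t, Y t)`,
`y t = ψ₂ (X t, Y t)`. Then `l_i ∏_{k ≠ i,j} l_k * l_j = X Y = 1/N`, i.e. `OnCurve`.
The forms `l_k`, `k ≠ j`, are bounded with their logarithmic derivatives, uniformly in `N`, by
compactness; the winding number of `l_k` is `0` for `k ≠ i, j`, `1` for `k = i` and `-1` for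
`k = j`.
-/

namespace P4a177b

open scoped Real

noncomputable section

variable {D : ℕ} (A : Arr D)

/-- The coefficient of `2π log N`: `1` for the node itself, `-1` for the node with the two lines
exchanged and `0` for all other nodes. -/
def dlt (i j k l : Fin D) : ℝ :=
  if k = i ∧ l = j then 1 else if k = j ∧ l = i then -1 else 0

namespace LoopB

/-- The loop `(r e^{it}, ε e^{-it})`. -/
def lp (r ε : ℝ) (t : ℝ) : ℂ × ℂ :=
  ((r : ℂ) * Complex.exp (t * Complex.I), (ε : ℂ) * Complex.exp (-(t * Complex.I)))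

/-- The velocity field of the loops `lp`. -/
def vf (p : ℂ × ℂ) : ℂ × ℂ := (p.1 * Complex.I, -(p.2 * Complex.I))

theorem hasDerivAt_exp (t : ℝ) : HasDerivAt (fun t : ℝ => Complex.exp (t * Complex.I))
    (Complex.exp (t * Complex.I) * Complex.I) t := by
  have h1 : HasDerivAt (fun t : ℝ => (t : ℂ) * Complex.I) (1 * Complex.I) t :=
    (Complex.ofRealCLM.hasDerivAt (x := t)).mul_const Complex.I
  have h2 := (Complex.hasDerivAt_exp ((t : ℂ) * Complex.I)).comp_of_eq t h1 rfl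
  simpa [Function.comp_def] using h2

theorem hasDerivAt_expn (t : ℝ) : HasDerivAt (fun t : ℝ => Complex.exp (-(t * Complex.I)))
    (-(Complex.exp (-(t * Complex.I)) * Complex.I)) t := by
  have h1 : HasDerivAt (fun t : ℝ => -((t : ℂ) * Complex.I)) (-(1 * Complex.I)) t :=
    ((Complex.ofRealCLM.hasDerivAt (x := t)).mul_const Complex.I).neg
  have h2 := (Complex.hasDerivAt_exp (-((t : ℂ) * Complex.I))).comp_of_eq t h1 rfl
  simpa [Function.comp_def] using h2

theorem hasDerivAt_lp (r ε t : ℝ) : HasDerivAt (lp r ε) (vf (lp r ε t)) t := by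
  have h1 := (hasDerivAt_exp t).const_mul (r : ℂ)
  have h2 := (hasDerivAt_expn t).const_mul (ε : ℂ)
  have h3 := h1.prodMk h2
  unfold lp vf
  convert h3 using 1
  simp only [Prod.mk.injEq]
  constructor <;> ring

theorem continuous_vf : Continuous vf := by
  unfold vf; fun_prop

theorem contDiff_lp (r ε : ℝ) : ContDiff ℝ 1 (lp r ε) := by
  unfold lp
  apply ContDiff.prodMk
  · exact contDiff_const.mul (Complex.contDiff_exp.comp
      (Complex.ofRealCLM.contDiff.mul contDiff_const))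
  · exact contDiff_const.mul (Complex.contDiff_exp.comp
      (Complex.ofRealCLM.contDiff.mul contDiff_const).neg)

theorem exp_per (t : ℝ) : Complex.exp (((t + 2 * π : ℝ) : ℂ) * Complex.I) =
    Complex.exp (t * Complex.I) := by
  have h : ((t + 2 * π : ℝ) : ℂ) * Complex.I = t * Complex.I + 2 * π * Complex.I := by
    push_cast; ring
  rw [h, Complex.exp_periodic]

theorem lp_periodic (r ε t : ℝ) : lp r ε (t + 2 * π) = lp r ε t := by
  unfold lp
  rw [Complex.exp_neg, exp_per, Complex.exp_neg]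

theorem norm_lp_fst (r ε t : ℝ) : ‖(lp r ε t).1‖ = |r| := by
  unfold lp
  simp [Complex.norm_exp]

theorem norm_lp_snd (r ε t : ℝ) : ‖(lp r ε t).2‖ = |ε| := by
  unfold lp
  simp [Complex.norm_exp]

theorem lp_mul (r ε t : ℝ) : (lp r ε t).1 * (lp r ε t).2 = (r : ℂ) * ε := by
  unfold lp
  have h : Complex.exp (t * Complex.I) * Complex.exp (-(t * Complex.I)) = 1 := by
    rw [← Complex.exp_add, add_neg_cancel, Complex.exp_zero]
  calc _ = (r : ℂ) * ε * (Complex.exp (t * Complex.I) * Complex.exp (-(t * Complex.I))) := by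
        ring
    _ = _ := by rw [h, mul_one]

/-- Uniform bounds for a nonvanishing function on a compact set. -/
theorem bounds {U K : Set (ℂ × ℂ)} (hU : IsOpen U) (hK : IsCompact K) (hKU : K ⊆ U)
    {G : ℂ × ℂ → ℂ} (hG : ContDiffOn ℝ 1 G U) (hne : ∀ p ∈ K, G p ≠ 0) :
    ∃ C, 0 ≤ C ∧ ∀ p ∈ K, |Real.log ‖G p‖| ≤ C ∧ ‖fderiv ℝ G p (vf p) / G p‖ ≤ C := by
  have hGc : ContinuousOn G K := hG.continuousOn.mono hKU
  have hd : ContinuousOn (fun p => fderiv ℝ G p) K :=
    (hG.continuousOn_fderiv_of_isOpen hU (by norm_num)).mono hKU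
  have h1 : ContinuousOn (fun p => Real.log ‖G p‖) K :=
    hGc.norm.log (fun p hp => norm_ne_zero_iff.2 (hne p hp))
  have h2 : ContinuousOn (fun p => fderiv ℝ G p (vf p) / G p) K :=
    (hd.clm_apply continuous_vf.continuousOn).div hGc hne
  obtain ⟨C1, hC1⟩ := hK.exists_bound_of_continuousOn h1
  obtain ⟨C2, hC2⟩ := hK.exists_bound_of_continuousOn h2
  refine ⟨max 0 (max C1 C2), le_max_left _ _, fun p hp => ⟨?_, ?_⟩⟩
  · exact (hC1 p hp).trans ((le_max_left _ _).trans (le_max_right _ _))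
  · exact (hC2 p hp).trans ((le_max_right _ _).trans (le_max_right _ _))

theorem hasDerivAt_comp_lp {U : Set (ℂ × ℂ)} (hU : IsOpen U) {G : ℂ × ℂ → ℂ}
    (hG : ContDiffOn ℝ 1 G U) {r ε t : ℝ} (h : lp r ε t ∈ U) :
    HasDerivAt (fun t => G (lp r ε t)) (fderiv ℝ G (lp r ε t) (vf (lp r ε t))) t := by
  have h1 : DifferentiableAt ℝ G (lp r ε t) :=
    (hG.differentiableOn (by norm_num)).differentiableAt (hU.mem_nhds h)
  exact h1.hasFDerivAt.comp_hasDerivAt t (hasDerivAt_lp r ε t)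

/-- A loop of the form `c exp(h)` has logarithmic derivative `h'`. -/
theorem logDeriv_of_exp {u h : ℝ → ℂ} {c : ℂ} (hc : c ≠ 0) (hu : ∀ t, u t = c * Complex.exp (h t))
    {h' : ℂ} {t : ℝ} (hh : HasDerivAt h h' t) : deriv u t / u t = h' := by
  have h1 : HasDerivAt (fun t => c * Complex.exp (h t)) (c * (Complex.exp (h t) * h')) t :=
    ((Complex.hasDerivAt_exp (h t)).comp_of_eq t hh rfl).const_mul c
  have h2 : u = fun t => c * Complex.exp (h t) := funext hu
  rw [h2, h1.deriv]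
  have := Complex.exp_ne_zero (h t)
  field_simp

/-- The integral of `d arg u` for `u = c exp(h)`. -/
theorem integral_dArg {u h : ℝ → ℂ} {c : ℂ} (hc : c ≠ 0) (hu : ∀ t, u t = c * Complex.exp (h t))
    (hd : ContDiff ℝ 1 h) :
    ∫ t in (0 : ℝ)..(2 * π), (deriv u t / u t).im = (h (2 * π) - h 0).im := by
  have hdd : Differentiable ℝ h := hd.differentiable (by norm_num)
  have h1 : ∀ t, (deriv u t / u t).im = (deriv h t).im := fun t => by
    rw [logDeriv_of_exp hc hu (hdd t).hasDerivAt]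
  simp_rw [h1]
  have h2 : ∀ t, HasDerivAt (fun t => (h t).im) (deriv h t).im t := fun t =>
    (Complex.imCLM.hasFDerivAt (x := h t)).comp_hasDerivAt t (hdd t).hasDerivAt
  rw [intervalIntegral.integral_eq_sub_of_hasDerivAt (fun t _ => h2 t)]
  · simp
  · exact (Complex.continuous_im.comp (hd.continuous_deriv (by norm_num))).intervalIntegrable _ _

/-- Dividing by a constant does not change the logarithmic derivative. -/
theorem dlog_div_const (u : ℝ → ℂ) (c : ℂ) (hc : c ≠ 0) (t : ℝ) :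
    deriv (fun t => u t / c) t / (u t / c) = deriv u t / u t := by
  rw [deriv_div_const]
  field_simp

theorem eta_div (u w : ℝ → ℂ) (c : ℂ) (hc : c ≠ 0) (hu : ∀ t, u t ≠ 0) (hw : ∀ t, w t ≠ 0)
    (t : ℝ) : etaForm (fun t => u t / c) (fun t => w t / c) t =
      (Real.log ‖u t‖ - Real.log ‖c‖) * (deriv w t / w t).im -
      (Real.log ‖w t‖ - Real.log ‖c‖) * (deriv u t / u t).im := by
  unfold etaForm
  rw [dlog_div_const u c hc, dlog_div_const w c hc, norm_div, norm_div,
    Real.log_div (norm_ne_zero_iff.2 (hu t)) (norm_ne_zero_iff.2 hc),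
    Real.log_div (norm_ne_zero_iff.2 (hw t)) (norm_ne_zero_iff.2 hc)]

/-- The easy case: both functions have bounded logarithm and logarithmic derivative. -/
theorem eta_bound (u w : ℝ → ℂ) (c : ℂ) (hc : c ≠ 0) (hu : ∀ t, u t ≠ 0) (hw : ∀ t, w t ≠ 0)
    {B : ℝ} (hB : 0 ≤ B) (hlu : ∀ t, |Real.log ‖u t‖| ≤ B) (hlw : ∀ t, |Real.log ‖w t‖| ≤ B)
    (hdu : ∀ t, ‖deriv u t / u t‖ ≤ B) (hdw : ∀ t, ‖deriv w t / w t‖ ≤ B) :
    |∫ t in (0 : ℝ)..(2 * π), etaForm (fun t => u t / c) (fun t => w t / c) t| ≤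
      2 * (B + |Real.log ‖c‖|) * B * (2 * π) := by
  have h := intervalIntegral.norm_integral_le_of_norm_le_const (a := 0) (b := 2 * π)
    (f := etaForm (fun t => u t / c) (fun t => w t / c))
    (C := 2 * (B + |Real.log ‖c‖|) * B) (fun t _ => by
      rw [eta_div u w c hc hu hw, Real.norm_eq_abs]
      have h1 : |(deriv w t / w t).im| ≤ B := (Complex.abs_im_le_norm _).trans (hdw t)
      have h2 : |(deriv u t / u t).im| ≤ B := (Complex.abs_im_le_norm _).trans (hdu t)
      have h3 : |Real.log ‖u t‖ - Real.log ‖c‖| ≤ B + |Real.log ‖c‖| :=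
        (abs_sub _ _).trans (add_le_add_left (hlu t) _)
      have h4 : |Real.log ‖w t‖ - Real.log ‖c‖| ≤ B + |Real.log ‖c‖| :=
        (abs_sub _ _).trans (add_le_add_left (hlw t) _)
      have h5 : 0 ≤ B + |Real.log ‖c‖| := by positivity
      calc _ ≤ |(Real.log ‖u t‖ - Real.log ‖c‖) * (deriv w t / w t).im| +
            |(Real.log ‖w t‖ - Real.log ‖c‖) * (deriv u t / u t).im| := abs_sub _ _
        _ ≤ (B + |Real.log ‖c‖|) * B + (B + |Real.log ‖c‖|) * B := by
            rw [abs_mul, abs_mul]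
            exact add_le_add (mul_le_mul h3 h1 (abs_nonneg _) h5)
              (mul_le_mul h4 h2 (abs_nonneg _) h5)
        _ = _ := by ring)
  rw [sub_zero, abs_of_pos Real.two_pi_pos, Real.norm_eq_abs] at h
  exact h

/-- The main case: `w = ε e^{-it}`. -/
theorem eta_main (u w h : ℝ → ℂ) (c : ℂ) (hc : c ≠ 0) (hu : ∀ t, u t ≠ 0)
    {ε : ℝ} (hε : 0 < ε) (hw : ∀ t, w t = (ε : ℂ) * Complex.exp (-(t * Complex.I)))
    {B : ℝ} (hlu : ∀ t, |Real.log ‖u t‖| ≤ B)
    {d : ℂ} (hd : d ≠ 0) (huh : ∀ t, u t = d * Complex.exp (h t)) (hh : ContDiff ℝ 1 h)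
    {n : ℝ} (hn : (h (2 * π) - h 0).im = 2 * π * n) :
    |(∫ t in (0 : ℝ)..(2 * π), etaForm (fun t => u t / c) (fun t => w t / c) t) -
      (-Real.log ε + Real.log ‖c‖) * (2 * π * n)| ≤ (B + |Real.log ‖c‖|) * (2 * π) := by
  have hε' : (ε : ℂ) ≠ 0 := Complex.ofReal_ne_zero.2 hε.ne'
  have hwne : ∀ t, w t ≠ 0 := fun t => by
    rw [hw]; exact mul_ne_zero hε' (Complex.exp_ne_zero _)
  have hhd : Differentiable ℝ h := hh.differentiable (by norm_num)
  have h1 : ∀ t, deriv w t / w t = -Complex.I := by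
    intro t
    have h2 : HasDerivAt (fun t : ℝ => -((t : ℂ) * Complex.I)) (-(1 * Complex.I)) t :=
      ((Complex.ofRealCLM.hasDerivAt (x := t)).mul_const Complex.I).neg
    rw [logDeriv_of_exp hε' hw h2, one_mul]
  have h3 : ∀ t, Real.log ‖w t‖ = Real.log ε := by
    intro t
    rw [hw]
    simp [Complex.norm_exp, abs_of_pos hε]
  have hu' : u = fun t => d * Complex.exp (h t) := funext huh
  have hcu : Continuous u := by
    rw [hu']
    exact continuous_const.mul (Complex.continuous_exp.comp hh.continuous)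
  have hlc : Continuous fun t => Real.log ‖u t‖ - Real.log ‖c‖ :=
    (hcu.norm.log (fun t => norm_ne_zero_iff.2 (hu t))).sub continuous_const
  have hdc : Continuous fun t => (deriv u t / u t).im := by
    have : (fun t => (deriv u t / u t).im) = fun t => (deriv h t).im := by
      funext t
      rw [logDeriv_of_exp hd huh (hhd t).hasDerivAt]
    rw [this]
    exact Complex.continuous_im.comp (hh.continuous_deriv (by norm_num))
  have h4 : ∀ t, etaForm (fun t => u t / c) (fun t => w t / c) t =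
      -(Real.log ‖u t‖ - Real.log ‖c‖) +
        (-Real.log ε + Real.log ‖c‖) * (deriv u t / u t).im := by
    intro t
    rw [eta_div u w c hc hu hwne, h1, h3]
    simp only [Complex.neg_im, Complex.I_im]
    ring
  have h5 : Continuous fun t => -(Real.log ‖u t‖ - Real.log ‖c‖) := hlc.neg
  have h6 : Continuous fun t => (-Real.log ε + Real.log ‖c‖) * (deriv u t / u t).im :=
    hdc.const_mul _
  simp_rw [h4]
  rw [intervalIntegral.integral_add (h5.intervalIntegrable _ _)
    (h6.intervalIntegrable _ _), intervalIntegral.integral_const_mul,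
    integral_dArg hd huh hh, hn, add_sub_cancel_right]
  have h := intervalIntegral.norm_integral_le_of_norm_le_const (a := 0) (b := 2 * π)
    (f := fun t => -(Real.log ‖u t‖ - Real.log ‖c‖))
    (C := (B + |Real.log ‖c‖|)) (fun t _ => by
      rw [Real.norm_eq_abs, abs_neg]
      exact (abs_sub _ _).trans (add_le_add_left (hlu t) _))
  rw [sub_zero, abs_of_pos Real.two_pi_pos, Real.norm_eq_abs] at h
  exact h

end LoopB

open LoopB

theorem Arr.exists_loops (i j : Fin D) (hij : A.lam i j ≠ 0) :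
    ∃ (C : ℝ) (N₀ : ℕ), ∀ N : ℕ, N₀ ≤ N → ∃ x y : ℝ → ℂ,
      ContDiff ℝ 1 x ∧ ContDiff ℝ 1 y ∧
      (∀ t, x (t + 2 * π) = x t) ∧ (∀ t, y (t + 2 * π) = y t) ∧
      (∀ t, A.OnCurve N (x t) (y t)) ∧
      (∀ t, ¬ (IsAlgebraic ℚ (x t) ∧ IsAlgebraic ℚ (y t))) ∧
      ∀ k l, A.lam k l ≠ 0 →
        |(∫ t in (0 : ℝ)..(2 * π), etaForm (fun t => A.form k (x t) (y t) / (A.lam k l : ℂ))
            (fun t => A.form l (x t) (y t) / (A.lam k l : ℂ)) t) -
          2 * π * Real.log N * dlt i j k l| ≤ C := by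
  obtain ⟨r, U, ψ₁, ψ₂, v, hr, htr, hU, hUr, hψ₁, hψ₂, hc⟩ := A.exists_chart i j hij
  have hne : i ≠ j := by
    rintro rfl
    exact hij (A.lam_self i)
  set S : Finset (Fin D) := (Finset.univ.erase i).erase j with hS
  have hSm : ∀ k, k ∈ S ↔ k ≠ i ∧ k ≠ j := by
    intro k
    simp only [hS, Finset.mem_erase, Finset.mem_univ, and_true]
    tauto
  let G : Fin D → ℂ × ℂ → ℂ := fun k p => A.form k (ψ₁ p) (ψ₂ p)
  have hG : ∀ k, ContDiffOn ℝ 1 (G k) U := by
    intro k
    exact ((contDiffOn_const.mul hψ₁).add (contDiffOn_const.mul hψ₂)).add contDiffOn_const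
  have hG1 : ∀ p ∈ U, G i p * ∏ k ∈ S, G k p = p.1 := fun p hp => (hc p.1 p.2 hp).1
  have hG2 : ∀ p ∈ U, G j p = p.2 := fun p hp => (hc p.1 p.2 hp).2.1
  have hG3 : ∀ k ∈ S, ∀ p ∈ U, ‖G k p - v k‖ ≤ ‖v k‖ / 2 := fun k hk p hp =>
    ((hc p.1 p.2 hp).2.2 k ((hSm k).1 hk).1 ((hSm k).1 hk).2).2
  let K : Set (ℂ × ℂ) := Metric.sphere 0 r ×ˢ Metric.closedBall 0 r
  have hK : IsCompact K := (isCompact_sphere 0 r).prod (isCompact_closedBall 0 r)
  have hKU : K ⊆ U := by
    rintro ⟨X, Y⟩ ⟨h1, h2⟩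
    rw [mem_sphere_zero_iff_norm] at h1
    rw [mem_closedBall_zero_iff] at h2
    exact hUr X Y h1.le h2
  have hp0 : ((0 : ℂ), (0 : ℂ)) ∈ U := hUr 0 0 (by simp [hr.le]) (by simp [hr.le])
  have hv : ∀ k ∈ S, v k ≠ 0 := fun k hk =>
    ((hc 0 0 hp0).2.2 k ((hSm k).1 hk).1 ((hSm k).1 hk).2).1
  have hne0 : ∀ k, k ≠ j → ∀ p ∈ K, G k p ≠ 0 := by
    intro k hk p hp
    by_cases hki : k = i
    · subst hki
      intro h0
      have h1 := hG1 p (hKU hp)
      rw [h0, zero_mul] at h1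
      have h2 : ‖p.1‖ = r := mem_sphere_zero_iff_norm.1 hp.1
      rw [← h1, norm_zero] at h2
      exact hr.ne h2
    · have hkS : k ∈ S := (hSm k).2 ⟨hki, hk⟩
      intro h0
      have h1 := hG3 k hkS p (hKU hp)
      rw [h0, zero_sub, norm_neg] at h1
      have h2 : 0 < ‖v k‖ := norm_pos_iff.2 (hv k hkS)
      linarith
  have hB : ∃ B, 0 ≤ B ∧ ∀ k, k ≠ j → ∀ p ∈ K, |Real.log ‖G k p‖| ≤ B ∧
      ‖fderiv ℝ (G k) p (vf p) / G k p‖ ≤ B := by
    have h1 : ∀ k, ∃ C, 0 ≤ C ∧ (k ≠ j → ∀ p ∈ K, |Real.log ‖G k p‖| ≤ C ∧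
        ‖fderiv ℝ (G k) p (vf p) / G k p‖ ≤ C) := by
      intro k
      by_cases hk : k = j
      · exact ⟨0, le_rfl, fun h => absurd hk h⟩
      · obtain ⟨C, h0, hC⟩ := bounds hU hK hKU (hG k) (hne0 k hk)
        exact ⟨C, h0, fun _ => hC⟩
    choose C hC0 hC using h1
    refine ⟨∑ k, C k, Finset.sum_nonneg (fun k _ => hC0 k), fun k hk p hp => ?_⟩
    have h2 : C k ≤ ∑ k, C k := Finset.single_le_sum (fun k _ => hC0 k) (Finset.mem_univ k)
    exact ⟨(hC k hk p hp).1.trans h2, (hC k hk p hp).2.trans h2⟩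
  obtain ⟨B, hB0, hB⟩ := hB
  obtain ⟨Λ, hΛ0, hΛ⟩ : ∃ Λ : ℝ, 0 ≤ Λ ∧ ∀ k l, |Real.log ‖(A.lam k l : ℂ)‖| ≤ Λ := by
    refine ⟨∑ k, ∑ l, |Real.log ‖(A.lam k l : ℂ)‖|,
      Finset.sum_nonneg (fun k _ => Finset.sum_nonneg (fun l _ => abs_nonneg _)), fun k l => ?_⟩
    exact (Finset.single_le_sum (f := fun l => |Real.log ‖(A.lam k l : ℂ)‖|)
      (fun l _ => abs_nonneg _) (Finset.mem_univ l)).trans
      (Finset.single_le_sum (f := fun k => ∑ l, |Real.log ‖(A.lam k l : ℂ)‖|)
      (fun k _ => Finset.sum_nonneg (fun l _ => abs_nonneg _)) (Finset.mem_univ k))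
  have hpi := Real.pi_pos
  refine ⟨2 * (B + Λ) * B * (2 * π) + ((B + Λ) * (2 * π) + (|Real.log r| + Λ) * (2 * π)),
    ⌈1 / r ^ 2⌉₊ + 1, fun N hN => ?_⟩
  have hN1 : 0 < (N : ℝ) := by
    have : 0 < N := by omega
    exact_mod_cast this
  have hN2 : 1 / r ^ 2 ≤ N := by
    have h1 : (⌈1 / r ^ 2⌉₊ : ℝ) ≤ N := by exact_mod_cast (Nat.le_succ _).trans hN
    exact (Nat.le_ceil _).trans h1
  set ε : ℝ := 1 / (N * r) with hε
  have hε0 : 0 < ε := by positivity
  have hεr : ε ≤ r := by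
    rw [hε, div_le_iff₀ (by positivity)]
    rw [div_le_iff₀ (by positivity)] at hN2
    nlinarith
  have hlK : ∀ t, lp r ε t ∈ K := by
    intro t
    refine ⟨?_, ?_⟩
    · rw [mem_sphere_zero_iff_norm, norm_lp_fst, abs_of_pos hr]
    · rw [mem_closedBall_zero_iff, norm_lp_snd, abs_of_pos hε0]
      exact hεr
  have hlU : ∀ t, lp r ε t ∈ U := fun t => hKU (hlK t)
  have hform : ∀ k t, A.form k (ψ₁ (lp r ε t)) (ψ₂ (lp r ε t)) = G k (lp r ε t) :=
    fun k t => rfl
  have hFj : ∀ t, G j (lp r ε t) = (ε : ℂ) * Complex.exp (-(t * Complex.I)) := fun t =>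
    hG2 _ (hlU t)
  have hder : ∀ k t, deriv (fun t => G k (lp r ε t)) t =
      fderiv ℝ (G k) (lp r ε t) (vf (lp r ε t)) := fun k t =>
    (hasDerivAt_comp_lp hU (hG k) (hlU t)).deriv
  have hcd : ∀ k, ContDiff ℝ 1 (fun t => G k (lp r ε t)) := fun k =>
    (hG k).comp_contDiff (contDiff_lp r ε) hlU
  -- the lifts
  let g : Fin D → ℝ → ℂ := fun k t => Complex.log (G k (lp r ε t) / v k)
  have hgs : ∀ k ∈ S, ∀ t, G k (lp r ε t) / v k ∈ Complex.slitPlane := by
    intro k hk t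
    have h1 := hG3 k hk _ (hlU t)
    have h2 : 0 < ‖v k‖ := norm_pos_iff.2 (hv k hk)
    apply Complex.ball_one_subset_slitPlane
    rw [mem_ball_iff_norm]
    have h3 : G k (lp r ε t) / v k - 1 = (G k (lp r ε t) - v k) / v k := by
      field_simp [hv k hk]
    rw [h3, norm_div, div_lt_one h2]
    linarith
  have hgc : ∀ k ∈ S, ContDiff ℝ 1 (g k) := by
    intro k hk
    rw [contDiff_iff_contDiffAt]
    intro t
    have h1 : ContDiffAt ℝ 1 Complex.log (G k (lp r ε t) / v k) :=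
      (Complex.contDiffAt_log (hgs k hk t)).restrict_scalars ℝ
    have h2 : ContDiffAt ℝ 1 (fun t => G k (lp r ε t) / v k) t :=
      ((hcd k).div_const _).contDiffAt
    exact h1.comp t h2
  have hge : ∀ k ∈ S, ∀ t, G k (lp r ε t) = v k * Complex.exp (g k t) := by
    intro k hk t
    have h1 : G k (lp r ε t) / v k ≠ 0 := Complex.slitPlane_ne_zero (hgs k hk t)
    simp only [g]
    rw [Complex.exp_log h1, mul_div_cancel₀ _ (hv k hk)]
  have hgp : ∀ k, g k (2 * π) = g k 0 := by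
    intro k
    have h1 := lp_periodic r ε 0
    rw [zero_add] at h1
    simp only [g, h1]
  have hVne : ∏ k ∈ S, v k ≠ 0 := Finset.prod_ne_zero_iff.2 hv
  let gi : ℝ → ℂ := fun t => (t : ℂ) * Complex.I - ∑ k ∈ S, g k t
  have hgic : ContDiff ℝ 1 gi :=
    (Complex.ofRealCLM.contDiff.mul contDiff_const).sub (ContDiff.sum hgc)
  have hdi : (r : ℂ) / ∏ k ∈ S, v k ≠ 0 :=
    div_ne_zero (Complex.ofReal_ne_zero.2 hr.ne') hVne
  have hgie : ∀ t, G i (lp r ε t) = ((r : ℂ) / ∏ k ∈ S, v k) * Complex.exp (gi t) := by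
    intro t
    have h1 := hG1 _ (hlU t)
    have h2 : ∏ k ∈ S, G k (lp r ε t) = (∏ k ∈ S, v k) * Complex.exp (∑ k ∈ S, g k t) := by
      rw [Complex.exp_sum, ← Finset.prod_mul_distrib]
      exact Finset.prod_congr rfl (fun k hk => hge k hk t)
    rw [h2] at h1
    have h3 : (lp r ε t).1 = (r : ℂ) * Complex.exp (t * Complex.I) := rfl
    rw [h3] at h1
    simp only [gi]
    rw [Complex.exp_sub]
    have h4 := Complex.exp_ne_zero (∑ k ∈ S, g k t)
    field_simp
    rw [← h1]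
    ring
  have hlift : ∀ k, k ≠ j → ∃ (d : ℂ) (h : ℝ → ℂ), d ≠ 0 ∧ ContDiff ℝ 1 h ∧
      (∀ t, G k (lp r ε t) = d * Complex.exp (h t)) ∧
      (h (2 * π) - h 0).im = 2 * π * (if k = i then 1 else 0) := by
    intro k hk
    by_cases hki : k = i
    · subst hki
      refine ⟨_, gi, hdi, hgic, hgie, ?_⟩
      have h1 : gi (2 * π) - gi 0 = (2 * π : ℝ) * Complex.I := by
        simp only [gi, hgp]
        push_cast
        ring
      rw [h1]
      simp
    · have hkS : k ∈ S := (hSm k).2 ⟨hki, hk⟩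
      refine ⟨v k, g k, hv k hkS, hgc k hkS, hge k hkS, ?_⟩
      rw [hgp, sub_self, if_neg hki]
      simp
  have hl1 : ∀ k, k ≠ j → ∀ t, |Real.log ‖G k (lp r ε t)‖| ≤ B := fun k hk t =>
    (hB k hk _ (hlK t)).1
  have hl2 : ∀ k, k ≠ j → ∀ t, ‖deriv (fun t => G k (lp r ε t)) t / G k (lp r ε t)‖ ≤ B :=
    fun k hk t => by
      rw [hder]
      exact (hB k hk _ (hlK t)).2
  have hlne : ∀ k, k ≠ j → ∀ t, G k (lp r ε t) ≠ 0 := fun k hk t => hne0 k hk _ (hlK t)
  have hlogε : -Real.log ε = Real.log N + Real.log r := by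
    rw [hε, Real.log_div one_ne_zero (by positivity), Real.log_one, zero_sub, neg_neg,
      Real.log_mul hN1.ne' hr.ne']
  -- the main case
  have hmain : ∀ k, k ≠ j → ∀ m : ℤ, m ≠ 0 → |Real.log ‖(m : ℂ)‖| ≤ Λ →
      |(∫ t in (0 : ℝ)..(2 * π), etaForm (fun t => G k (lp r ε t) / (m : ℂ))
        (fun t => G j (lp r ε t) / (m : ℂ)) t) -
          2 * π * Real.log N * (if k = i then 1 else 0)| ≤
        (B + Λ) * (2 * π) + (|Real.log r| + Λ) * (2 * π) := by
    intro k hk m hm hmΛ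
    obtain ⟨d, h, hd, hh, hlf, hn⟩ := hlift k hk
    have hm' : (m : ℂ) ≠ 0 := Int.cast_ne_zero.2 hm
    have h1 := eta_main (fun t => G k (lp r ε t)) (fun t => G j (lp r ε t)) h (m : ℂ) hm'
      (hlne k hk) hε0 hFj (hl1 k hk) hd hlf hh hn
    rw [hlogε] at h1
    set I := (∫ t in (0 : ℝ)..(2 * π), etaForm (fun t => G k (lp r ε t) / (m : ℂ))
        (fun t => G j (lp r ε t) / (m : ℂ)) t) with hI
    set n : ℝ := if k = i then 1 else 0 with hn'
    have hn0 : |n| ≤ 1 := by
      rw [hn']; split_ifs <;> simp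
    have h2 : I - 2 * π * Real.log N * n =
        (I - (Real.log N + Real.log r + Real.log ‖(m : ℂ)‖) * (2 * π * n)) +
        (Real.log r + Real.log ‖(m : ℂ)‖) * (2 * π * n) := by ring
    rw [h2]
    refine (abs_add_le _ _).trans (add_le_add (h1.trans ?_) ?_)
    · exact mul_le_mul_of_nonneg_right (add_le_add_right hmΛ _) (by positivity)
    · rw [abs_mul, abs_mul, abs_of_pos Real.two_pi_pos]
      refine mul_le_mul ((abs_add_le _ _).trans (add_le_add_right hmΛ _)) ?_ (by positivity)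
        (by positivity)
      exact mul_le_of_le_one_right (by positivity) hn0
  have hCpos : 0 ≤ 2 * (B + Λ) * B * (2 * π) := by positivity
  have hCpos' : 0 ≤ (B + Λ) * (2 * π) + (|Real.log r| + Λ) * (2 * π) := by positivity
  refine ⟨fun t => ψ₁ (lp r ε t), fun t => ψ₂ (lp r ε t), hψ₁.comp_contDiff (contDiff_lp r ε) hlU,
    hψ₂.comp_contDiff (contDiff_lp r ε) hlU, fun t => ?_, fun t => ?_, fun t => ?_, fun t => ?_,
    fun k l hkl => ?_⟩
  · simp only [lp_periodic]
  · simp only [lp_periodic]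
  · -- on the curve
    show (N : ℂ) * ∏ k, G k (lp r ε t) = 1
    have h1 : ∏ k, G k (lp r ε t) = G i (lp r ε t) * (G j (lp r ε t) * ∏ k ∈ S, G k (lp r ε t)) := by
      rw [← Finset.mul_prod_erase Finset.univ _ (Finset.mem_univ i),
        ← Finset.mul_prod_erase (Finset.univ.erase i) _ (Finset.mem_erase.2 ⟨hne.symm,
          Finset.mem_univ j⟩)]
    have h2 : ∏ k, G k (lp r ε t) = (r : ℂ) * ε := by
      rw [h1, ← lp_mul r ε t, ← hG1 _ (hlU t), hG2 _ (hlU t)]
      ring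
    rw [h2, hε]
    have h3 : (N : ℂ) ≠ 0 := by exact_mod_cast hN1.ne'
    have h4 : (r : ℂ) ≠ 0 := Complex.ofReal_ne_zero.2 hr.ne'
    push_cast
    field_simp
  · -- not algebraic
    rintro ⟨hx, hy⟩
    have hint : ∀ m : ℤ, IsAlgebraic ℚ (m : ℂ) := fun m => by
      have := isAlgebraic_algebraMap (R := ℚ) (A := ℂ) (m : ℚ)
      simpa using this
    have hal : ∀ k, IsAlgebraic ℚ (G k (lp r ε t)) := by
      intro k
      exact (((hint _).mul hx).add ((hint _).mul hy)).add (hint _)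
    have hprod : IsAlgebraic ℚ (∏ k ∈ S, G k (lp r ε t)) := by
      refine Finset.prod_induction _ (fun z => IsAlgebraic ℚ z) (fun _ _ h1 h2 => h1.mul h2) ?_
        (fun k _ => hal k)
      exact isAlgebraic_one
    have hX : IsAlgebraic ℚ ((lp r ε t).1) := by
      rw [← hG1 _ (hlU t)]
      exact (hal i).mul hprod
    have hXc : IsAlgebraic ℚ ((starRingEnd ℂ) ((lp r ε t).1)) :=
      hX.algHom (((starRingEnd ℂ) : ℂ →+* ℂ).toRatAlgHom)
    have h1 : (lp r ε t).1 * (starRingEnd ℂ) ((lp r ε t).1) = ((r ^ 2 : ℝ) : ℂ) := by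
      rw [Complex.mul_conj, Complex.normSq_eq_norm_sq, norm_lp_fst, sq_abs]
    have h2 : IsAlgebraic ℚ ((r ^ 2 : ℝ) : ℂ) := by
      rw [← h1]
      exact hX.mul hXc
    have h3 : IsAlgebraic ℚ (r ^ 2 : ℝ) := by
      have h4 : IsAlgebraic ℚ (algebraMap ℝ ℂ (r ^ 2)) := h2
      exact (isAlgebraic_algebraMap_iff (algebraMap ℝ ℂ).injective).1 h4
    exact htr (IsAlgebraic.of_pow (by norm_num) h3)
  · -- the integrals
    have hkl' : k ≠ l := by
      rintro rfl
      exact hkl (A.lam_self k)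
    have hmc : (A.lam k l : ℂ) ≠ 0 := Int.cast_ne_zero.2 hkl
    by_cases hlj : l = j
    · subst hlj
      have h1 := hmain k hkl' (A.lam k l) hkl (hΛ k l)
      have h2 : dlt i l k l = if k = i then 1 else 0 := by
        unfold dlt
        by_cases hki : k = i
        · simp [hki]
        · simp [hki, hkl']
      rw [h2]
      exact h1.trans (le_add_of_nonneg_left hCpos)
    · by_cases hkj : k = j
      · subst hkj
        have h1 := hmain l hlj (A.lam k l) hkl (hΛ k l)
        have h2 : dlt i k k l = -(if l = i then 1 else 0) := by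
          unfold dlt
          by_cases hki : l = i
          · simp [hki, hne.symm]
          · simp [hki, hlj]
        have h3 : (∫ t in (0 : ℝ)..(2 * π), etaForm (fun t => G k (lp r ε t) / (A.lam k l : ℂ))
            (fun t => G l (lp r ε t) / (A.lam k l : ℂ)) t) =
            -(∫ t in (0 : ℝ)..(2 * π), etaForm (fun t => G l (lp r ε t) / (A.lam k l : ℂ))
            (fun t => G k (lp r ε t) / (A.lam k l : ℂ)) t) := by
          rw [← intervalIntegral.integral_neg]
          exact intervalIntegral.integral_congr (fun t _ => eta_swap _ _ t)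
        rw [h2]
        show |(∫ t in (0 : ℝ)..(2 * π), etaForm (fun t => G k (lp r ε t) / (A.lam k l : ℂ))
            (fun t => G l (lp r ε t) / (A.lam k l : ℂ)) t) - _| ≤ _
        rw [h3]
        refine le_trans ?_ (h1.trans (le_add_of_nonneg_left hCpos))
        rw [← abs_neg]
        apply le_of_eq
        congr 1
        ring
      · have h1 := eta_bound (fun t => G k (lp r ε t)) (fun t => G l (lp r ε t)) (A.lam k l : ℂ)
          hmc (hlne k hkj) (hlne l hlj) hB0 (hl1 k hkj) (hl1 l hlj) (hl2 k hkj) (hl2 l hlj)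
        have h2 : dlt i j k l = 0 := by
          unfold dlt
          simp [hlj, hkj]
        rw [h2, mul_zero, sub_zero]
        refine le_trans h1 (le_trans ?_ (le_add_of_nonneg_right hCpos'))
        have h3 : B + |Real.log ‖(A.lam k l : ℂ)‖| ≤ B + Λ := add_le_add_right (hΛ k l) _
        exact mul_le_mul_of_nonneg_right (mul_le_mul_of_nonneg_right
          (mul_le_mul_of_nonneg_left h3 (by norm_num)) hB0) (by positivity)

end

end P4a177b
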