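import Pool.Agent.Lib.P4a177b.SmoothA

/-!
# Smoothness of the projective closure when no two lines are parallel
-/

namespace P4a177b

open MvPolynomial

noncomputable section

variable {D : ℕ} (A : Arr D)

/-- The homogeneous equation `N * ∏ (a_i x + b_i y + c_i z) - z ^ D` of the projective closure. -/
def Arr.homEqn (N : ℕ) : MvPolynomial (Fin 3) ℂ :=
  (N : MvPolynomial (Fin 3) ℂ) *
    ∏ i, ((A.a i : MvPolynomial (Fin 3) ℂ) * X 0 + (A.b i : MvPolynomial (Fin 3) ℂ) * X 1 +
      (A.c i : MvPolynomial (Fin 3) ℂ) * X 2) - X 2 ^ D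

/-- The partial derivative of a finite product of polynomials. -/
theorem pderiv_finset_prod {σ R ι : Type*} [CommRing R] [DecidableEq ι] (k : σ) (s : Finset ι)
    (f : ι → MvPolynomial σ R) :
    pderiv k (∏ i ∈ s, f i) = ∑ i ∈ s, (∏ j ∈ s.erase i, f j) * pderiv k (f i) := by
  induction s using Finset.induction_on with
  | empty => simp
  | insert a s ha ih =>
    rw [Finset.prod_insert ha, Derivation.leibniz, ih, Finset.sum_insert ha,
      Finset.erase_insert ha, smul_eq_mul, smul_eq_mul, Finset.mul_sum, add_comm]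
    congr 1
    refine Finset.sum_congr rfl fun i hi => ?_
    have hia : a ≠ i := by
      rintro rfl
      exact ha hi
    rw [Finset.erase_insert_of_ne hia, Finset.prod_insert, mul_assoc]
    exact fun h => ha (Finset.mem_of_mem_erase h)

/-- The value of the partial derivatives of the affine equation. -/
theorem Arr.aeval_pderiv_eqn_sum (N : ℕ) (x y : ℂ) (k : Fin 2) :
    aeval ![x, y] (pderiv k (A.eqn N)) =
      (N : ℂ) * ∑ i, (∏ j ∈ Finset.univ.erase i, A.form j x y) * ![(A.a i : ℂ), (A.b i : ℂ)] k := by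
  have h1 : ∀ i, pderiv k (A.form i (X 0 : MvPolynomial (Fin 2) ℚ) (X 1)) =
      ![(A.a i : MvPolynomial (Fin 2) ℚ), (A.b i : MvPolynomial (Fin 2) ℚ)] k := by
    intro i
    unfold Arr.form
    fin_cases k <;> simp [pderiv_X]
  have h2 : ∀ i, aeval ![x, y] (A.form i (X 0 : MvPolynomial (Fin 2) ℚ) (X 1)) =
      A.form i x y := by
    intro i
    simp [Arr.form]
  unfold Arr.eqn
  rw [map_sub, Derivation.leibniz, pderiv_finset_prod]
  simp only [smul_eq_mul, Derivation.map_natCast, Derivation.map_one_eq_zero, mul_zero, add_zero,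
    sub_zero, map_mul, map_natCast, map_sum, map_prod, h1, h2]
  congr 1
  refine Finset.sum_congr rfl fun i _ => ?_
  congr 1
  fin_cases k <;> simp

/-- The value of the homogeneous equation. -/
theorem Arr.eval_homEqn (N : ℕ) (p : Fin 3 → ℂ) : eval p (A.homEqn N) =
    (N : ℂ) * ∏ i, ((A.a i : ℂ) * p 0 + A.b i * p 1 + A.c i * p 2) - p 2 ^ D := by
  unfold Arr.homEqn
  simp

/-- The value of the first two partial derivatives of the homogeneous equation. -/
theorem Arr.eval_pderiv_homEqn (N : ℕ) (p : Fin 3 → ℂ) (k : Fin 2) :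
    eval p (pderiv (Fin.castSucc k) (A.homEqn N)) =
      (N : ℂ) * ∑ i, (∏ j ∈ Finset.univ.erase i,
        ((A.a j : ℂ) * p 0 + A.b j * p 1 + A.c j * p 2)) * ![(A.a i : ℂ), (A.b i : ℂ)] k := by
  have h1 : ∀ i, pderiv (Fin.castSucc k) ((A.a i : MvPolynomial (Fin 3) ℂ) * X 0 +
      (A.b i : MvPolynomial (Fin 3) ℂ) * X 1 + (A.c i : MvPolynomial (Fin 3) ℂ) * X 2) =
      ![(A.a i : MvPolynomial (Fin 3) ℂ), (A.b i : MvPolynomial (Fin 3) ℂ)] k := by
    intro i
    fin_cases k <;> simp [pderiv_X]
  have h3 : pderiv (Fin.castSucc k) (X 2 ^ D : MvPolynomial (Fin 3) ℂ) = 0 := by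
    rw [Derivation.leibniz_pow]
    have : pderiv (Fin.castSucc k) (X 2 : MvPolynomial (Fin 3) ℂ) = 0 := by
      fin_cases k <;> simp [pderiv_X]
    rw [this]
    simp
  unfold Arr.homEqn
  rw [map_sub, h3, Derivation.leibniz, pderiv_finset_prod]
  simp only [smul_eq_mul, Derivation.map_natCast, mul_zero, add_zero,
    sub_zero, map_mul, map_natCast, map_sum, map_prod, h1, map_add, map_intCast, eval_X]
  congr 1
  refine Finset.sum_congr rfl fun i _ => ?_
  congr 1
  fin_cases k <;> simp

theorem Arr.smooth_proj (hnp : ∀ i j, i ≠ j → A.lam i j ≠ 0) : ∃ N₀ : ℕ, ∀ N : ℕ, N₀ ≤ N →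
    ∀ p : Fin 3 → ℂ, eval p (A.homEqn N) = 0 → (∀ k, eval p (pderiv k (A.homEqn N)) = 0) →
      p = 0 := by
  obtain ⟨N₀, hN₀⟩ := A.smooth_affine
  refine ⟨max N₀ 1, fun N hN p hp hd => ?_⟩
  have hN1 : 1 ≤ N := le_trans (le_max_right _ _) hN
  have hN2 : N₀ ≤ N := le_trans (le_max_left _ _) hN
  have hNC : (N : ℂ) ≠ 0 := by
    have : N ≠ 0 := by omega
    exact_mod_cast this
  rw [A.eval_homEqn] at hp
  have hd' : ∀ k : Fin 2, (N : ℂ) * ∑ i, (∏ j ∈ Finset.univ.erase i,
        ((A.a j : ℂ) * p 0 + A.b j * p 1 + A.c j * p 2)) * ![(A.a i : ℂ), (A.b i : ℂ)] k = 0 := by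
    intro k
    rw [← A.eval_pderiv_homEqn]
    exact hd _
  obtain ⟨i₀, j₀, hij₀⟩ := A.dir
  have hne₀ : i₀ ≠ j₀ := by
    rintro rfl
    apply hij₀
    ring
  have hD : D ≠ 0 := by
    rintro rfl
    exact Fin.elim0 i₀
  by_cases hz : p 2 = 0
  · -- points at infinity
    have hp' : ∏ i, ((A.a i : ℂ) * p 0 + A.b i * p 1 + A.c i * p 2) = 0 := by
      rw [hz, zero_pow hD, sub_zero] at hp
      rcases mul_eq_zero.1 hp with h | h
      · exact absurd h hNC
      · rw [hz]
        exact h
    obtain ⟨i, -, hi⟩ := Finset.prod_eq_zero_iff.1 hp'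
    have hk : ∀ k : Fin 2, (∏ j ∈ Finset.univ.erase i,
        ((A.a j : ℂ) * p 0 + A.b j * p 1 + A.c j * p 2)) * ![(A.a i : ℂ), (A.b i : ℂ)] k = 0 := by
      intro k
      have h := hd' k
      rw [Finset.sum_eq_single i] at h
      · rcases mul_eq_zero.1 h with h | h
        · exact absurd h hNC
        · exact h
      · intro j _ hj
        rw [Finset.prod_eq_zero (i := i) _ hi, zero_mul]
        exact Finset.mem_erase.2 ⟨hj.symm, Finset.mem_univ _⟩
      · intro h
        exact absurd (Finset.mem_univ _) h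
    have hab : ¬ ((A.a i : ℂ) = 0 ∧ (A.b i : ℂ) = 0) := by
      rintro ⟨h1, h2⟩
      have h1' : A.a i = 0 := by exact_mod_cast h1
      have h2' : A.b i = 0 := by exact_mod_cast h2
      have := A.prim i
      rw [h1', h2'] at this
      exact not_isCoprime_zero_zero this
    have hprod : ∏ j ∈ Finset.univ.erase i,
        ((A.a j : ℂ) * p 0 + A.b j * p 1 + A.c j * p 2) = 0 := by
      by_contra hne
      apply hab
      have h0 := hk 0
      have h1 := hk 1
      constructor
      · rcases mul_eq_zero.1 h0 with h | h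
        · exact absurd h hne
        · simpa using h
      · rcases mul_eq_zero.1 h1 with h | h
        · exact absurd h hne
        · simpa using h
    obtain ⟨j, hj, hj0⟩ := Finset.prod_eq_zero_iff.1 hprod
    have hji : i ≠ j := (Finset.ne_of_mem_erase hj).symm
    have hlam : ((A.a i : ℂ) * A.b j - A.a j * A.b i) ≠ 0 := by
      have := hnp i j hji
      unfold Arr.lam at this
      exact_mod_cast this
    rw [hz] at hi hj0
    have e0 : ((A.a i : ℂ) * A.b j - A.a j * A.b i) * p 0 = 0 := by
      linear_combination (A.b j : ℂ) * hi - (A.b i : ℂ) * hj0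
    have e1 : ((A.a i : ℂ) * A.b j - A.a j * A.b i) * p 1 = 0 := by
      linear_combination (A.a i : ℂ) * hj0 - (A.a j : ℂ) * hi
    have p0 : p 0 = 0 := by
      rcases mul_eq_zero.1 e0 with h | h
      · exact absurd h hlam
      · exact h
    have p1 : p 1 = 0 := by
      rcases mul_eq_zero.1 e1 with h | h
      · exact absurd h hlam
      · exact h
    funext k
    fin_cases k
    · exact p0
    · exact p1
    · exact hz
  · -- affine points
    exfalso
    have hform : ∀ i, (A.a i : ℂ) * p 0 + A.b i * p 1 + A.c i * p 2 =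
        p 2 * A.form i (p 0 / p 2) (p 1 / p 2) := by
      intro i
      unfold Arr.form
      field_simp
    have hcurve : A.OnCurve N (p 0 / p 2) (p 1 / p 2) := by
      unfold Arr.OnCurve
      simp only [hform, Finset.prod_mul_distrib, Finset.prod_const, Finset.card_univ,
        Fintype.card_fin] at hp
      have hzD : p 2 ^ D ≠ 0 := pow_ne_zero _ hz
      apply mul_left_cancel₀ hzD
      linear_combination hp
    refine hN₀ N hN2 _ _ hcurve ?_
    have key : ∀ k : Fin 2, aeval ![p 0 / p 2, p 1 / p 2] (pderiv k (A.eqn N)) = 0 := by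
      intro k
      rw [A.aeval_pderiv_eqn_sum]
      have h := hd' k
      simp only [hform, Finset.prod_mul_distrib, Finset.prod_const] at h
      have hcard : ∀ i : Fin D, (Finset.univ.erase i).card = D - 1 := by
        intro i
        rw [Finset.card_erase_of_mem (Finset.mem_univ _), Finset.card_univ, Fintype.card_fin]
      simp only [hcard, mul_assoc] at h
      rw [← Finset.mul_sum, mul_left_comm] at h
      rcases mul_eq_zero.1 h with h | h
      · exact absurd h (pow_ne_zero _ hz)
      · exact h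
    exact ⟨key 0, key 1⟩

end

end P4a177b
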