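import Pool.Agent.Lib.P4a177b.GenericB
import Pool.Agent.Lib.P4a177b.LoopB
import Pool.Agent.Lib.P4a177b.Integ
import Pool.Agent.Lib.P4a177b.SmoothP
import Pool.Agent.Lib.P4a177b.Cycles
import Pool.Agent.Lib.P4a177b.Det

/-!
# Assembly
-/

namespace P4a177b

open MvPolynomial
open scoped Real

noncomputable section

variable {D : ℕ} (A : Arr D)

section FunctionField

variable {N : ℕ} {K : Type} [Field K] [Algebra (A.CoordRing N) K]

/-- The coordinate functions in the function field. -/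
def Arr.coord (N : ℕ) (K : Type) [Field K] [Algebra (A.CoordRing N) K] (k : Fin 2) : K :=
  algebraMap (A.CoordRing N) K (Ideal.Quotient.mk _ (X k))

theorem Arr.coord_onCurve : A.OnCurve N (A.coord N K 0) (A.coord N K 1) := by
  unfold Arr.OnCurve Arr.coord
  have h0 : algebraMap (A.CoordRing N) K (Ideal.Quotient.mk (Ideal.span {A.eqn N}) (A.eqn N)) = 0 := by
    rw [Ideal.Quotient.eq_zero_iff_mem.2 (Ideal.subset_span (Set.mem_singleton _)), map_zero]
  have h1 : ((algebraMap (A.CoordRing N) K).comp (Ideal.Quotient.mk (Ideal.span {A.eqn N})))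
      ((N : MvPolynomial (Fin 2) ℚ) * ∏ i, A.form i (X 0) (X 1) - 1) = 0 := h0
  rw [map_sub, map_one, map_mul, map_natCast, map_prod, sub_eq_zero] at h1
  rw [← h1]
  congr 1
  apply Finset.prod_congr rfl
  intro i _
  exact (Arr.form_map A ((algebraMap (A.CoordRing N) K).comp
    (Ideal.Quotient.mk (Ideal.span {A.eqn N}))) i (X 0) (X 1)).symm

theorem charZero_of_algebra (A : Arr D) (N : ℕ) (K : Type) [Field K]
    [Algebra (A.CoordRing N) K] : CharZero K := by
  let f : ℚ →+* K := (algebraMap (A.CoordRing N) K).comp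
    ((Ideal.Quotient.mk (Ideal.span {A.eqn N})).comp C)
  exact charZero_of_injective_ringHom f.injective

end FunctionField

theorem exp_reg (i j : Fin D) (hij : A.lam i j ≠ 0) :
    ∃ (C : ℝ) (N₀ : ℕ), ∀ N : ℕ, N₀ ≤ N → ∀ (K : Type) [Field K] [CharZero K]
      [Algebra (A.CoordRing N) K] [IsFractionRing (A.CoordRing N) K], ∃ γ : GenericLoop K,
      ∀ k l, A.lam k l ≠ 0 →
        |reg γ (Arr.tau (A.coord_onCurve (N := N) (K := K)) k l) -
          2 * π * Real.log N * dlt i j k l| ≤ C := by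
  obtain ⟨C, N₀, h⟩ := A.exists_loops i j hij
  refine ⟨C, max N₀ 1, ?_⟩
  intro N hN K _ _ _ _
  have hN0 : 0 < N := lt_of_lt_of_le Nat.one_pos ((le_max_right _ _).trans hN)
  obtain ⟨x, y, hx, hy, hxp, hyp, hc, hg, hb⟩ := h N ((le_max_left _ _).trans hN)
  obtain ⟨γ, hγ⟩ := A.exists_genericLoop N hN0 K x y hx hy hxp hyp hc hg
  refine ⟨γ, ?_⟩
  intro k l hkl
  have hform : ∀ (m : Fin D) (t : ℝ), γ.emb t (A.form m (A.coord N K 0) (A.coord N K 1)) =
      A.form m (x t) (y t) := by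
    intro m t
    have h1 := hγ t (A.form m (X 0) (X 1))
    have h3 : algebraMap (A.CoordRing N) K (Ideal.Quotient.mk _ (A.form m (X 0) (X 1))) =
        A.form m (A.coord N K 0) (A.coord N K 1) :=
      Arr.form_map A ((algebraMap (A.CoordRing N) K).comp
        (Ideal.Quotient.mk (Ideal.span {A.eqn N}))) m (X 0) (X 1)
    rw [h3] at h1
    have h2 : aeval ![x t, y t] (A.form m (X 0 : MvPolynomial (Fin 2) ℚ) (X 1)) =
        A.form m (x t) (y t) := by
      have := Arr.form_map A (aeval ![x t, y t] : MvPolynomial (Fin 2) ℚ →ₐ[ℚ] ℂ).toRingHom m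
        (X 0) (X 1)
      simpa using this
    rw [h2] at h1
    exact h1
  have hval : ∀ (m : Fin D) (t : ℝ),
      γ.emb t ((Arr.L (A.coord_onCurve (N := N) (K := K)) m / intUnit (A.lam k l) hkl : Kˣ) : K) =
      A.form m (x t) (y t) / (A.lam k l : ℂ) := by
    intro m t
    rw [Units.val_div_eq_div_val, map_div₀]
    unfold Arr.L intUnit
    rw [Units.val_mk0, Units.val_mk0, hform, map_intCast]
  have heq : reg γ (Arr.tau (A.coord_onCurve (N := N) (K := K)) k l) =
      ∫ t in (0 : ℝ)..(2 * π), etaForm (fun t => A.form k (x t) (y t) / (A.lam k l : ℂ))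
            (fun t => A.form l (x t) (y t) / (A.lam k l : ℂ)) t := by
    unfold Arr.tau
    rw [dif_neg hkl, reg_symb]
    unfold regFun
    have e1 : (fun t => γ.emb t ((Arr.L (A.coord_onCurve (N := N) (K := K)) k /
        intUnit (A.lam k l) hkl : Kˣ) : K)) = fun t => A.form k (x t) (y t) / (A.lam k l : ℂ) :=
      funext (hval k)
    have e2 : (fun t => γ.emb t ((Arr.L (A.coord_onCurve (N := N) (K := K)) l /
        intUnit (A.lam k l) hkl : Kˣ) : K)) = fun t => A.form l (x t) (y t) / (A.lam k l : ℂ) :=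
      funext (hval l)
    rw [e1, e2]
  rw [heq]
  exact hb k l hkl

/-- The relation `not parallel` is cotransitive. -/
theorem Arr.lam_cotrans (i j k : Fin D) (h : A.lam i j ≠ 0) : A.lam i k ≠ 0 ∨ A.lam k j ≠ 0 := by
  by_contra hc
  push Not at hc
  obtain ⟨h1, h2⟩ := hc
  apply h
  unfold Arr.lam at h1 h2 ⊢
  obtain ⟨u, w, huw⟩ := A.prim k
  have e : A.a i * A.b j - A.a j * A.b i =
      (u * A.a j + w * A.b j) * (A.a i * A.b k - A.a k * A.b i) +
      (u * A.a i + w * A.b i) * (A.a k * A.b j - A.a j * A.b k) := by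
    linear_combination (-(A.a i * A.b j - A.a j * A.b i)) * huw
  rw [e, h1, h2]
  ring

theorem main : ∃ N₀ : ℕ, ∀ N : ℕ, N₀ ≤ N →
    (Ideal.span {A.eqn N}).IsPrime ∧
    (∀ x y : ℂ, aeval ![x, y] (A.eqn N) = 0 →
      ¬ (aeval ![x, y] (pderiv 0 (A.eqn N)) = 0 ∧ aeval ![x, y] (pderiv 1 (A.eqn N)) = 0)) ∧
    ((∀ i j, i ≠ j → A.lam i j ≠ 0) → ∀ p : Fin 3 → ℂ, eval p (A.homEqn N) = 0 →
      (∀ k, eval p (pderiv k (A.homEqn N)) = 0) → p = 0) ∧
    ∀ (K : Type) [Field K] [Algebra (A.CoordRing N) K] [IsFractionRing (A.CoordRing N) K],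
      ∃ ξ : Fin (A.nodes + 1 - D) → K2 K, (∀ p, Integral (ξ p)) ∧
        ∃ γ : Fin (A.nodes + 1 - D) → GenericLoop K,
          (Matrix.of fun p q => reg (γ q) (ξ p)).det ≠ 0 := by
  classical
  have hsymm : ∀ i j, A.lam i j ≠ 0 → A.lam j i ≠ 0 := by
    intro i j h h'
    rw [A.lam_swap, h', neg_zero] at h
    exact h rfl
  have hirr : ∀ i, ¬ A.lam i i ≠ 0 := fun i h => h (A.lam_self i)
  have hco : ∀ i j k, A.lam i j ≠ 0 → A.lam i k ≠ 0 ∨ A.lam k j ≠ 0 := A.lam_cotrans
  have hne : ∃ i j, A.lam i j ≠ 0 := A.dir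
  have hcard := card_edges (fun i j => A.lam i j ≠ 0) hsymm hirr hco hne
  set m := A.nodes + 1 - D with hm
  have hmD : m + D = A.nodes + 1 := by
    unfold Arr.nodes at hm ⊢
    omega
  obtain ⟨n, q, hanti, hpar, hrow, hq, hnq⟩ :=
    exists_cycles (fun i j => A.lam i j ≠ 0) hsymm hirr hco hne m hmD
  -- loops
  choose C N₁ hloop using fun p : Fin m => exp_reg A (q p).1 (q p).2 (hq p).2
  obtain ⟨N₂, hN₂⟩ := A.smooth_affine
  obtain ⟨N₃, hN₃⟩ : ∃ N₃ : ℕ, (∀ i j, i ≠ j → A.lam i j ≠ 0) → ∀ N : ℕ, N₃ ≤ N →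
      ∀ p : Fin 3 → ℂ, eval p (A.homEqn N) = 0 → (∀ k, eval p (pderiv k (A.homEqn N)) = 0) →
      p = 0 := by
    by_cases h : ∀ i j, i ≠ j → A.lam i j ≠ 0
    · obtain ⟨N₃, hN₃⟩ := A.smooth_proj h
      exact ⟨N₃, fun _ => hN₃⟩
    · exact ⟨0, fun h' => absurd h' h⟩
  -- bound for the matrix entries
  let S : Finset (Fin D × Fin D) := Finset.univ.filter fun p : Fin D × Fin D => p.1 < p.2
  let Cb : ℝ := ∑ p : Fin m, ∑ p' : Fin m, ∑ e ∈ S, |(n p e.1 e.2 : ℝ)| * |C p'|
  let M : ℕ → Matrix (Fin m) (Fin m) ℝ → Prop := fun N B =>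
    ∀ p p', |B p p' - 2 * π * Real.log N * (if p = p' then 1 else 0)| ≤ Cb
  obtain ⟨N₄, hN₄⟩ := det_ne_zero m M Cb (fun N B h p q => h p q)
  refine ⟨max (max (max 1 N₂) (max N₃ N₄)) (Finset.univ.sup N₁), ?_⟩
  intro N hN
  have hN0 : 0 < N := by
    have : 1 ≤ N := by
      refine le_trans ?_ hN
      simp
    omega
  have hNN₂ : N₂ ≤ N := le_trans (by simp) hN
  have hNN₃ : N₃ ≤ N := le_trans (by simp) hN
  have hNN₄ : N₄ ≤ N := le_trans (by simp) hN
  have hNN₁ : ∀ p, N₁ p ≤ N := fun p =>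
    (Finset.le_sup (f := N₁) (Finset.mem_univ p)).trans ((le_max_right _ _).trans hN)
  refine ⟨A.isPrime_span N hN0, ?_, fun h => hN₃ h N hNN₃, ?_⟩
  · intro x y hxy
    apply hN₂ N hNN₂ x y
    unfold Arr.eqn at hxy
    rw [map_sub, map_mul, map_prod, map_one, map_natCast, sub_eq_zero] at hxy
    unfold Arr.OnCurve
    rw [← hxy]
    congr 1
    apply Finset.prod_congr rfl
    intro i _
    have := Arr.form_map A (aeval ![x, y] : MvPolynomial (Fin 2) ℚ →ₐ[ℚ] ℂ).toRingHom i
        (X 0) (X 1)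
    simpa using this.symm
  · intro K _ _ _
    have : CharZero K := charZero_of_algebra A N K
    choose γ hγ using fun p : Fin m => hloop p N (hNN₁ p) K
    let h := A.coord_onCurve (N := N) (K := K)
    refine ⟨fun p => ∑ e ∈ S, n p e.1 e.2 • Arr.tau h e.1 e.2, ?_, γ, ?_⟩
    · intro p
      apply integral_sum h (n p) (hanti p) _ (hrow p)
      intro i j hij
      exact hpar p i j (not_not.2 hij)
    · apply hN₄ N hNN₄
      intro p p'
      rw [Matrix.of_apply, map_sum]
      have hterm : ∀ e ∈ S, reg (γ p') (n p e.1 e.2 • Arr.tau h e.1 e.2) =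
          (n p e.1 e.2 : ℝ) * reg (γ p') (Arr.tau h e.1 e.2) := by
        intro e _
        rw [map_zsmul, zsmul_eq_mul]
      rw [Finset.sum_congr rfl hterm]
      have hmain : 2 * π * Real.log N * (if p = p' then (1 : ℝ) else 0) =
          ∑ e ∈ S, (n p e.1 e.2 : ℝ) * (2 * π * Real.log N * dlt (q p').1 (q p').2 e.1 e.2) := by
        rw [Finset.sum_eq_single (q p')]
        · have h1 : dlt (q p').1 (q p').2 (q p').1 (q p').2 = 1 := by
            unfold dlt
            simp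
          rw [h1, hnq p p']
          push_cast
          ring
        · intro e he hne'
          have h2 : dlt (q p').1 (q p').2 e.1 e.2 = 0 := by
            unfold dlt
            rw [if_neg, if_neg]
            · rintro ⟨ha, hb⟩
              have h3 : e.1 < e.2 := (Finset.mem_filter.1 he).2
              have h4 := (hq p').1
              rw [ha, hb] at h3
              exact absurd h3 (not_lt.2 h4.le)
            · rintro ⟨ha, hb⟩
              exact hne' (Prod.ext ha hb)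
          rw [h2]
          ring
        · intro hne'
          exact absurd (Finset.mem_filter.2 ⟨Finset.mem_univ (q p'), (hq p').1⟩ : q p' ∈ S) hne'
      rw [hmain, ← Finset.sum_sub_distrib]
      refine (Finset.abs_sum_le_sum_abs _ _).trans ?_
      have hle : ∀ e ∈ S, |(n p e.1 e.2 : ℝ) * reg (γ p') (Arr.tau h e.1 e.2) -
          (n p e.1 e.2 : ℝ) * (2 * π * Real.log N * dlt (q p').1 (q p').2 e.1 e.2)| ≤
          |(n p e.1 e.2 : ℝ)| * |C p'| := by
        intro e _
        by_cases hl : A.lam e.1 e.2 = 0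
        · rw [hpar p e.1 e.2 (not_not.2 hl)]
          simp
        · rw [← mul_sub, abs_mul]
          exact mul_le_mul_of_nonneg_left ((hγ p' e.1 e.2 hl).trans (le_abs_self _)) (abs_nonneg _)
      refine (Finset.sum_le_sum hle).trans ?_
      have hnn : ∀ (a b : Fin m), 0 ≤ ∑ e ∈ S, |(n a e.1 e.2 : ℝ)| * |C b| :=
        fun a b => Finset.sum_nonneg (fun e _ => mul_nonneg (abs_nonneg _) (abs_nonneg _))
      calc ∑ e ∈ S, |(n p e.1 e.2 : ℝ)| * |C p'|
          ≤ ∑ b : Fin m, ∑ e ∈ S, |(n p e.1 e.2 : ℝ)| * |C b| :=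
            Finset.single_le_sum (f := fun b => ∑ e ∈ S, |(n p e.1 e.2 : ℝ)| * |C b|)
              (fun b _ => hnn p b) (Finset.mem_univ p')
        _ ≤ Cb := Finset.single_le_sum
              (f := fun a => ∑ b : Fin m, ∑ e ∈ S, |(n a e.1 e.2 : ℝ)| * |C b|)
              (fun a _ => Finset.sum_nonneg (fun b _ => hnn a b)) (Finset.mem_univ p)

end

end P4a177b
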