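import Pool.Agent.Lib.P4a177b.Curve

/-!
# Irreducibility of the equation `N * ∏ l_i - 1`
-/

namespace P4a177b

open MvPolynomial

variable {D : ℕ} (A : Arr D)

namespace Prm

/-- The parametrisation of the line `i` as a ring homomorphism `ℚ[x, y] → ℚ[t]`. -/
noncomputable def rho (i : Fin D) (u v : ℤ) : MvPolynomial (Fin 2) ℚ →ₐ[ℚ] Polynomial ℚ :=
  aeval ![(-(u : Polynomial ℚ) * (A.c i : Polynomial ℚ) - (A.b i : Polynomial ℚ) * Polynomial.X),
    (-(v : Polynomial ℚ) * (A.c i : Polynomial ℚ) + (A.a i : Polynomial ℚ) * Polynomial.X)]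

theorem rho_form (i j : Fin D) (u v : ℤ) :
    rho A i u v (A.form j (X 0) (X 1)) =
      A.form j (-(u : Polynomial ℚ) * (A.c i : Polynomial ℚ)
        - (A.b i : Polynomial ℚ) * Polynomial.X)
        (-(v : Polynomial ℚ) * (A.c i : Polynomial ℚ) + (A.a i : Polynomial ℚ) * Polynomial.X) := by
  have := A.form_map (rho A i u v : MvPolynomial (Fin 2) ℚ →+* Polynomial ℚ) j (X 0) (X 1)
  simpa [rho] using this

theorem rho_form_self (i : Fin D) (u v : ℤ) (huv : u * A.a i + v * A.b i = 1) :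
    rho A i u v (A.form i (X 0) (X 1)) = 0 := by
  rw [rho_form]
  unfold Arr.form
  have h : (u : Polynomial ℚ) * A.a i + v * A.b i = 1 := by exact_mod_cast congrArg (Int.cast) huv
  linear_combination (-(A.c i : Polynomial ℚ)) * h

theorem dvd_of_rho_eq_zero (i : Fin D) (u v : ℤ) (huv : u * A.a i + v * A.b i = 1)
    (p : MvPolynomial (Fin 2) ℚ) (hp : rho A i u v p = 0) : A.form i (X 0) (X 1) ∣ p := by
  let l : MvPolynomial (Fin 2) ℚ := A.form i (X 0) (X 1)
  let m : MvPolynomial (Fin 2) ℚ :=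
    -(v : MvPolynomial (Fin 2) ℚ) * X 0 + (u : MvPolynomial (Fin 2) ℚ) * X 1
  let φ : MvPolynomial (Fin 2) ℚ →ₐ[ℚ] (MvPolynomial (Fin 2) ℚ ⧸ Ideal.span {l}) :=
    ((Ideal.Quotient.mkₐ ℚ (Ideal.span {l})).comp (Polynomial.aeval m)).comp (rho A i u v)
  have h : (u : MvPolynomial (Fin 2) ℚ) * A.a i + v * A.b i = 1 := by
    exact_mod_cast congrArg (Int.cast) huv
  have hφ : φ = Ideal.Quotient.mkₐ ℚ (Ideal.span {l}) := by
    apply MvPolynomial.algHom_ext
    intro k
    simp only [φ, AlgHom.comp_apply, Ideal.Quotient.mkₐ_eq_mk]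
    rw [Ideal.Quotient.eq]
    rw [Ideal.mem_span_singleton]
    fin_cases k
    · refine ⟨-(u : MvPolynomial (Fin 2) ℚ), ?_⟩
      simp [rho, l, m, Arr.form]
      linear_combination (X 0) * h
    · refine ⟨-(v : MvPolynomial (Fin 2) ℚ), ?_⟩
      simp [rho, l, m, Arr.form]
      linear_combination (X 1) * h
  have h1 : φ p = 0 := by
    simp [φ, hp]
  rw [hφ, Ideal.Quotient.mkₐ_eq_mk, Ideal.Quotient.eq_zero_iff_mem,
    Ideal.mem_span_singleton] at h1
  exact h1

theorem form_totalDegree_le (i : Fin D) :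
    (A.form i (X 0) (X 1) : MvPolynomial (Fin 2) ℚ).totalDegree ≤ 1 := by
  unfold Arr.form
  have h0 : ((A.a i : MvPolynomial (Fin 2) ℚ) * X 0).totalDegree ≤ 1 := by
    refine (totalDegree_mul _ _).trans ?_
    have : ((A.a i : MvPolynomial (Fin 2) ℚ)).totalDegree = 0 := by
      have : (A.a i : MvPolynomial (Fin 2) ℚ) = C (A.a i : ℚ) := by simp
      rw [this, totalDegree_C]
    simp [this]
  have h1 : ((A.b i : MvPolynomial (Fin 2) ℚ) * X 1).totalDegree ≤ 1 := by
    refine (totalDegree_mul _ _).trans ?_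
    have : ((A.b i : MvPolynomial (Fin 2) ℚ)).totalDegree = 0 := by
      have : (A.b i : MvPolynomial (Fin 2) ℚ) = C (A.b i : ℚ) := by simp
      rw [this, totalDegree_C]
    simp [this]
  have h2 : ((A.c i : MvPolynomial (Fin 2) ℚ)).totalDegree ≤ 1 := by
    have : (A.c i : MvPolynomial (Fin 2) ℚ) = C (A.c i : ℚ) := by simp
    rw [this, totalDegree_C]
    exact Nat.zero_le _
  exact (totalDegree_add _ _).trans (max_le ((totalDegree_add _ _).trans (max_le h0 h1)) h2)

theorem rho_form_ne_zero (i j : Fin D) (hij : i ≠ j) (u v : ℤ)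
    (huv : u * A.a i + v * A.b i = 1) : rho A i u v (A.form j (X 0) (X 1)) ≠ 0 := by
  intro h
  rw [rho_form] at h
  have h1 : (A.form j (-(u : Polynomial ℚ) * (A.c i : Polynomial ℚ)
        - (A.b i : Polynomial ℚ) * Polynomial.X)
        (-(v : Polynomial ℚ) * (A.c i : Polynomial ℚ) + (A.a i : Polynomial ℚ) * Polynomial.X))
      = Polynomial.C (((A.a i * A.b j - A.a j * A.b i : ℤ) : ℚ)) * Polynomial.X
        + Polynomial.C ((A.a j * (-(u * A.c i)) + A.b j * (-(v * A.c i)) + A.c j : ℤ) : ℚ) := by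
    unfold Arr.form
    simp
    ring
  rw [h1] at h
  have hc1 := congrArg (fun p => Polynomial.coeff p 1) h
  have hc0 := congrArg (fun p => Polynomial.coeff p 0) h
  simp [-Int.cast_mul, -Int.cast_sub, -Int.cast_add, -Int.cast_neg, -eq_intCast, -map_intCast] at hc1
  simp [-Int.cast_mul, -Int.cast_sub, -Int.cast_add, -Int.cast_neg, -eq_intCast, -map_intCast] at hc0
  norm_cast at hc0 hc1
  refine A.par i j hij ?_ ((-(u * A.c i) : ℤ) : ℂ) ((-(v * A.c i) : ℤ) : ℂ) ⟨?_, ?_⟩
  · exact hc1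
  · norm_cast
    linear_combination (-A.c i) * huv
  · norm_cast
    linear_combination hc0

theorem form_ne_zero (i : Fin D) :
    (A.form i (X 0) (X 1) : MvPolynomial (Fin 2) ℚ) ≠ 0 := by
  obtain ⟨i0, j0, hd⟩ := A.dir
  have hne : i0 ≠ j0 := by
    rintro rfl
    apply hd
    ring
  obtain ⟨j, hj⟩ : ∃ j, j ≠ i := by
    by_cases h : i0 = i
    · exact ⟨j0, fun h' => hne (h.trans h'.symm)⟩
    · exact ⟨i0, h⟩
  obtain ⟨u, v, huv⟩ := A.prim j
  intro h0
  have := rho_form_ne_zero A j i hj u v huv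
  rw [h0, map_zero] at this
  exact this rfl

theorem isUnit_of_totalDegree_eq_zero {p : MvPolynomial (Fin 2) ℚ} (hp : p ≠ 0)
    (h : p.totalDegree = 0) : IsUnit p := by
  rw [isUnit_iff_eq_C_of_isReduced]
  rw [totalDegree_eq_zero_iff_eq_C] at h
  refine ⟨coeff 0 p, ?_, h⟩
  rw [isUnit_iff_ne_zero]
  intro h0
  rw [h0, map_zero] at h
  exact hp h

theorem form_totalDegree (i : Fin D) :
    (A.form i (X 0) (X 1) : MvPolynomial (Fin 2) ℚ).totalDegree = 1 := by
  refine le_antisymm (form_totalDegree_le A i) ?_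
  by_contra hlt
  have h0 : (A.form i (X 0) (X 1) : MvPolynomial (Fin 2) ℚ).totalDegree = 0 := by omega
  have hu := isUnit_of_totalDegree_eq_zero (form_ne_zero A i) h0
  obtain ⟨u, v, huv⟩ := A.prim i
  have h1 := hu.map (rho A i u v)
  rw [rho_form_self A i u v huv] at h1
  exact not_isUnit_zero h1

theorem isRelPrime_form (i j : Fin D) (hij : i ≠ j) :
    IsRelPrime (A.form i (X 0) (X 1) : MvPolynomial (Fin 2) ℚ) (A.form j (X 0) (X 1)) := by
  intro d hdi hdj
  obtain ⟨e, he⟩ := hdi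
  have hd0 : d ≠ 0 := by
    rintro rfl
    rw [zero_mul] at he
    exact form_ne_zero A i he
  have he0 : e ≠ 0 := by
    rintro rfl
    rw [mul_zero] at he
    exact form_ne_zero A i he
  have hdeg := congrArg totalDegree he
  rw [form_totalDegree, totalDegree_mul_of_isDomain hd0 he0] at hdeg
  rcases Nat.eq_zero_or_pos d.totalDegree with h | h
  · exact isUnit_of_totalDegree_eq_zero hd0 h
  · exfalso
    have he1 : e.totalDegree = 0 := by omega
    have hu := isUnit_of_totalDegree_eq_zero he0 he1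
    have hdvd : (A.form i (X 0) (X 1) : MvPolynomial (Fin 2) ℚ) ∣ A.form j (X 0) (X 1) := by
      rw [he]
      exact (hu.dvd_mul_right.2 hdj |> fun h => (hu.mul_right_dvd).2 hdj)
    obtain ⟨u, v, huv⟩ := A.prim i
    obtain ⟨f, hf⟩ := hdvd
    apply rho_form_ne_zero A i j hij u v huv
    rw [hf, map_mul, rho_form_self A i u v huv, zero_mul]

theorem rho_eqn (N : ℕ) (i : Fin D) (u v : ℤ) (huv : u * A.a i + v * A.b i = 1) :
    rho A i u v (A.eqn N) = -1 := by
  unfold Arr.eqn
  have : ∏ i, (A.form i (X 0) (X 1) : MvPolynomial (Fin 2) ℚ) =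
      A.form i (X 0) (X 1) * ∏ k ∈ Finset.univ.erase i, A.form k (X 0) (X 1) :=
    (Finset.mul_prod_erase _ _ (Finset.mem_univ i)).symm
  rw [this, map_sub, map_mul, map_mul, rho_form_self A i u v huv]
  simp

theorem eqn_totalDegree_le (N : ℕ) : (A.eqn N).totalDegree ≤ D := by
  unfold Arr.eqn
  refine (totalDegree_sub _ _).trans (max_le ?_ (by simp))
  refine (totalDegree_mul _ _).trans ?_
  have h1 : ((N : MvPolynomial (Fin 2) ℚ)).totalDegree = 0 := by
    have : (N : MvPolynomial (Fin 2) ℚ) = C (N : ℚ) := by simp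
    rw [this, totalDegree_C]
  rw [h1, zero_add]
  refine (totalDegree_finsetProd _ _).trans ?_
  refine (Finset.sum_le_sum fun i _ => form_totalDegree_le A i).trans ?_
  simp

theorem prod_totalDegree (s : Finset (Fin D)) :
    (∏ i ∈ s, (A.form i (X 0) (X 1) : MvPolynomial (Fin 2) ℚ)).totalDegree = s.card := by
  classical
  induction s using Finset.induction_on with
  | empty => simp
  | insert a s ha ih =>
    rw [Finset.prod_insert ha, totalDegree_mul_of_isDomain (form_ne_zero A a)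
      (Finset.prod_ne_zero_iff.2 fun i _ => form_ne_zero A i), ih, form_totalDegree,
      Finset.card_insert_of_notMem ha, add_comm]

/-- A nonzero divisor of the equation is constant on every line. -/
theorem factor_const (N : ℕ) (G H : MvPolynomial (Fin 2) ℚ) (hGH : A.eqn N = G * H)
    (i : Fin D) : ∃ g : ℚ, (A.form i (X 0) (X 1) : MvPolynomial (Fin 2) ℚ) ∣ G - C g := by
  obtain ⟨u, v, huv⟩ := A.prim i
  have h1 : rho A i u v G * rho A i u v H = -1 := by
    rw [← map_mul, ← hGH, rho_eqn A N i u v huv]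
  have hu : IsUnit (rho A i u v G) := by
    apply IsUnit.of_mul_eq_one (-(rho A i u v H))
    rw [mul_neg, h1, neg_neg]
  rw [Polynomial.isUnit_iff] at hu
  obtain ⟨g, -, hg⟩ := hu
  refine ⟨g, dvd_of_rho_eq_zero A i u v huv _ ?_⟩
  rw [map_sub, ← hg]
  have : rho A i u v (C g) = Polynomial.C g := by
    have := (rho A i u v).commutes g
    simpa using this
  rw [this, sub_self]

theorem eval_eq_of_dvd (i : Fin D) (G : MvPolynomial (Fin 2) ℚ) (g : ℚ)
    (h : (A.form i (X 0) (X 1) : MvPolynomial (Fin 2) ℚ) ∣ G - C g) (x y : ℤ)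
    (hxy : A.a i * x + A.b i * y + A.c i = 0) : aeval ![(x : ℚ), (y : ℚ)] G = g := by
  obtain ⟨f, hf⟩ := h
  have h1 := congrArg (aeval ![(x : ℚ), (y : ℚ)]) hf
  rw [map_sub, map_mul] at h1
  have h2 : aeval ![(x : ℚ), (y : ℚ)] (A.form i (X 0) (X 1) : MvPolynomial (Fin 2) ℚ) = 0 := by
    have := A.form_map ((aeval ![(x : ℚ), (y : ℚ)] : MvPolynomial (Fin 2) ℚ →ₐ[ℚ] ℚ) :
      MvPolynomial (Fin 2) ℚ →+* ℚ) i (X 0) (X 1)
    have h3 : A.form i (x : ℚ) (y : ℚ) = 0 := by
      unfold Arr.form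
      exact_mod_cast hxy
    simpa [h3] using this
  rw [h2, zero_mul] at h1
  have h4 : aeval ![(x : ℚ), (y : ℚ)] (C g : MvPolynomial (Fin 2) ℚ) = g := by simp
  rw [h4] at h1
  exact sub_eq_zero.1 h1

theorem const_eq (N : ℕ) (G H : MvPolynomial (Fin 2) ℚ) (hGH : A.eqn N = G * H) :
    ∃ g : ℚ, ∀ i, (A.form i (X 0) (X 1) : MvPolynomial (Fin 2) ℚ) ∣ G - C g := by
  choose g hg using factor_const A N G H hGH
  have key : ∀ i j, A.a i * A.b j - A.a j * A.b i ≠ 0 → g i = g j := by
    intro i j hij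
    obtain ⟨x, y, hx, hy⟩ := A.node i j hij
    rw [← eval_eq_of_dvd A i G (g i) (hg i) x y hx, ← eval_eq_of_dvd A j G (g j) (hg j) x y hy]
  obtain ⟨i0, j0, hd⟩ := A.dir
  refine ⟨g i0, fun i => ?_⟩
  have : g i = g i0 := by
    by_cases h1 : A.a i * A.b i0 - A.a i0 * A.b i = 0
    · by_cases h2 : A.a i * A.b j0 - A.a j0 * A.b i = 0
      · exfalso
        have ha : A.a i * (A.a i0 * A.b j0 - A.a j0 * A.b i0) = 0 := by
          linear_combination (A.a i0) * h2 - (A.a j0) * h1
        have hb : A.b i * (A.a i0 * A.b j0 - A.a j0 * A.b i0) = 0 := by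
          linear_combination (A.b i0) * h2 - (A.b j0) * h1
        have ha' := (mul_eq_zero.1 ha).resolve_right hd
        have hb' := (mul_eq_zero.1 hb).resolve_right hd
        obtain ⟨u, v, huv⟩ := A.prim i
        rw [ha', hb'] at huv
        simp at huv
      · rw [key i j0 h2, key i0 j0 hd]
    · exact key i i0 h1
  rw [← this]
  exact hg i

end Prm

open Prm in
theorem Arr.irreducible_eqn (N : ℕ) (hN : 0 < N) : Irreducible (A.eqn N) := by
  obtain ⟨i0, j0, hd⟩ := A.dir
  obtain ⟨u, v, huv⟩ := A.prim i0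
  have hne : A.eqn N ≠ 0 := by
    intro h
    have := rho_eqn A N i0 u v huv
    rw [h, map_zero] at this
    exact one_ne_zero (neg_eq_zero.1 this.symm)
  have hD : 0 < D := i0.pos
  constructor
  · intro hu
    rw [isUnit_iff_eq_C_of_isReduced] at hu
    obtain ⟨r, -, hr⟩ := hu
    have h1 := rho_eqn A N i0 u v huv
    have h2 : rho A i0 u v (C r) = Polynomial.C r := by
      have := (rho A i0 u v).commutes r
      simpa using this
    rw [hr, h2] at h1
    have h3 : r = -1 := by
      have : (Polynomial.C r : Polynomial ℚ) = Polynomial.C (-1) := by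
        rw [h1]; simp
      exact Polynomial.C_injective this
    have h4 : (N : MvPolynomial (Fin 2) ℚ) * ∏ i, A.form i (X 0) (X 1) = 0 := by
      have : A.eqn N = C (-1) := by rw [hr, h3]
      unfold Arr.eqn at this
      simpa [sub_eq_iff_eq_add] using this
    rcases mul_eq_zero.1 h4 with h5 | h5
    · rw [Nat.cast_eq_zero] at h5
      omega
    · rw [Finset.prod_eq_zero_iff] at h5
      obtain ⟨i, -, hi⟩ := h5
      exact form_ne_zero A i hi
  · intro G H hGH
    have hG : G ≠ 0 := by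
      rintro rfl
      rw [zero_mul] at hGH
      exact hne hGH
    have hH : H ≠ 0 := by
      rintro rfl
      rw [mul_zero] at hGH
      exact hne hGH
    obtain ⟨g, hg⟩ := const_eq A N G H hGH
    have hdvd : ∏ i, (A.form i (X 0) (X 1) : MvPolynomial (Fin 2) ℚ) ∣ G - C g :=
      Fintype.prod_dvd_of_isRelPrime (fun i j hij => isRelPrime_form A i j hij) hg
    by_cases h0 : G - C g = 0
    · left
      have : G = C g := sub_eq_zero.1 h0
      exact isUnit_of_totalDegree_eq_zero hG (by rw [this, totalDegree_C])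
    · right
      have h1 := totalDegree_le_of_dvd_of_isDomain hdvd h0
      rw [prod_totalDegree, Finset.card_univ, Fintype.card_fin] at h1
      have h2 := totalDegree_sub_C_le G g
      have h3 := eqn_totalDegree_le A N
      rw [hGH, totalDegree_mul_of_isDomain hG hH] at h3
      exact isUnit_of_totalDegree_eq_zero hH (by omega)

theorem Arr.isPrime_span (N : ℕ) (hN : 0 < N) : (Ideal.span {A.eqn N}).IsPrime := by
  have h := A.irreducible_eqn N hN
  rw [Ideal.span_singleton_prime h.ne_zero]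
  exact h.prime

end P4a177b
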