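import Pool.Agent.Lib.P4a177b.Curve

/-!
# Smoothness of the curves `N * ∏ l_i = 1` for large `N`

Let `(x, y)` be a point of the curve where both partial derivatives vanish. Then
(divide by `N ∏ l_k = 1`) `∑ a_k / l_k = 0` and `∑ b_k / l_k = 0`, so for every `j`:
`∑_k lam k j / l_k = 0` (*). Let `M ≥ 1` bound all `|lam k l|`. Let `p` be the index with `|l_p|`
minimal. By (*) there are two further lines whose forms are at most `M D |l_p|`, and three
distinct lines are never simultaneously close to a point.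
-/

namespace P4a177b

open MvPolynomial

noncomputable section

variable {D : ℕ} (A : Arr D)

theorem aeval_pderiv_prod {ι : Type*} (s : Finset ι) (f : ι → MvPolynomial (Fin 2) ℚ)
    (v : Fin 2) (P : Fin 2 → ℂ) (h : ∀ i ∈ s, aeval P (f i) ≠ 0) :
    aeval P (pderiv v (∏ i ∈ s, f i)) =
      (∏ i ∈ s, aeval P (f i)) * ∑ i ∈ s, aeval P (pderiv v (f i)) / aeval P (f i) := by
  classical
  induction s using Finset.induction_on with
  | empty => simp
  | insert a s ha ih =>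
    have h1 : aeval P (f a) ≠ 0 := h a (Finset.mem_insert_self a s)
    have h2 : ∀ i ∈ s, aeval P (f i) ≠ 0 := fun i hi => h i (Finset.mem_insert_of_mem hi)
    rw [Finset.prod_insert ha, pderiv_mul, map_add, map_mul, map_mul, ih h2,
      Finset.prod_insert ha, Finset.sum_insert ha, map_prod]
    field_simp

theorem Arr.aeval_form (i : Fin D) (x y : ℂ) :
    aeval ![x, y] (A.form i (X 0) (X 1) : MvPolynomial (Fin 2) ℚ) = A.form i x y := by
  unfold Arr.form
  simp

theorem Arr.aeval_pderiv_form (i : Fin D) (v : Fin 2) (x y : ℂ) :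
    aeval ![x, y] (pderiv v (A.form i (X 0) (X 1) : MvPolynomial (Fin 2) ℚ)) =
      (![(A.a i : ℂ), (A.b i : ℂ)] v) := by
  have h1 : ∀ m : ℤ, (m : MvPolynomial (Fin 2) ℚ) = C (m : ℚ) := by
    intro m; simp
  unfold Arr.form
  rw [h1, h1, h1]
  fin_cases v <;> simp [pderiv_X]

theorem Arr.aeval_pderiv_eqn {N : ℕ} {x y : ℂ} (h : A.OnCurve N x y) (v : Fin 2) :
    aeval ![x, y] (pderiv v (A.eqn N)) = ∑ i, (![(A.a i : ℂ), (A.b i : ℂ)] v) / A.form i x y := by
  unfold Arr.eqn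
  have hN : (N : MvPolynomial (Fin 2) ℚ) = C (N : ℚ) := by simp
  rw [map_sub, hN, pderiv_C_mul, pderiv_one, sub_zero, map_mul,
    aeval_pderiv_prod _ _ _ _ (fun i _ => by rw [A.aeval_form]; exact h.form_ne_zero i)]
  have h3 : (aeval ![x, y] (C (N : ℚ)) : ℂ) = (N : ℂ) := by simp
  rw [h3, ← mul_assoc]
  have h4 : (N : ℂ) * ∏ i, aeval ![x, y] (A.form i (X 0) (X 1) : MvPolynomial (Fin 2) ℚ) = 1 := by
    rw [Finset.prod_congr rfl fun i _ => A.aeval_form i x y]
    exact h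
  rw [h4, one_mul]
  refine Finset.sum_congr rfl fun i _ => ?_
  rw [A.aeval_pderiv_form, A.aeval_form]

/-- parallelism is transitive -/
theorem Arr.lam_trans {p i j : Fin D} (h1 : A.lam p i = 0) (h2 : A.lam p j = 0) :
    A.lam i j = 0 := by
  obtain ⟨u, v, huv⟩ := A.prim p
  unfold Arr.lam at *
  have e1 : A.a p * (A.a i * A.b j - A.a j * A.b i) = 0 := by
    linear_combination A.a i * h2 - A.a j * h1
  have e2 : A.b p * (A.a i * A.b j - A.a j * A.b i) = 0 := by
    linear_combination A.b i * h2 - A.b j * h1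
  linear_combination u * e1 + v * e2 - (A.a i * A.b j - A.a j * A.b i) * huv

theorem Arr.exists_nonpar (p : Fin D) : ∃ j, A.lam p j ≠ 0 := by
  by_contra hcon
  push Not at hcon
  obtain ⟨i, j, hij⟩ := A.dir
  exact hij (A.lam_trans (hcon i) (hcon j))

/-- Two different parallel lines: a point cannot be close to both. -/
theorem Arr.par_bound {i j : Fin D} (hij : i ≠ j) (hl : A.lam i j = 0) (x y : ℂ) :
    1 ≤ ‖A.form i x y‖ + ‖A.form j x y‖ := by
  obtain ⟨u, v, huv⟩ := A.prim i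
  obtain ⟨u', v', huv'⟩ := A.prim j
  have hl' : A.a i * A.b j = A.a j * A.b i := by
    have := hl; unfold Arr.lam at this; linarith
  -- `(a_j, b_j) = e * (a_i, b_i)`
  set e : ℤ := u * A.a j + v * A.b j with he
  have ea : A.a j = e * A.a i := by
    rw [he]; linear_combination (-A.a j) * huv - v * hl'
  have eb : A.b j = e * A.b i := by
    rw [he]; linear_combination (-A.b j) * huv + u * hl'
  have he1 : IsUnit e := by
    refine IsUnit.of_mul_eq_one (u' * A.a i + v' * A.b i) ?_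
    have : e * (u' * A.a i + v' * A.b i) = u' * (e * A.a i) + v' * (e * A.b i) := by ring
    rw [this, ← ea, ← eb]; exact huv'
  have hee : e * e = 1 := by
    rcases Int.isUnit_iff.1 he1 with h | h <;> rw [h] <;> norm_num
  have hne : A.c j - e * A.c i ≠ 0 := by
    intro h0
    have hc : A.c j = e * A.c i := by linarith
    refine A.par i j hij hl (-(A.c i * u : ℤ)) (-(A.c i * v : ℤ)) ⟨?_, ?_⟩
    · have : A.a i * (-(A.c i * u)) + A.b i * (-(A.c i * v)) + A.c i = 0 := by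
        linear_combination (-A.c i) * huv
      exact_mod_cast this
    · have : A.a j * (-(A.c i * u)) + A.b j * (-(A.c i * v)) + A.c j = 0 := by
        rw [ea, eb, hc]
        linear_combination (-(A.c i * e)) * huv
      exact_mod_cast this
  have h1 : A.form j x y - (e : ℂ) * A.form i x y = ((A.c j - e * A.c i : ℤ) : ℂ) := by
    unfold Arr.form
    rw [ea, eb]
    push_cast
    ring
  have h2 : (1 : ℝ) ≤ ‖((A.c j - e * A.c i : ℤ) : ℂ)‖ := by
    rw [Complex.norm_intCast]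
    exact_mod_cast Int.one_le_abs hne
  have h3 : ‖(e : ℂ)‖ = 1 := by
    rw [Complex.norm_intCast]
    have : |e| = 1 := by
      rcases Int.isUnit_iff.1 he1 with h | h <;> rw [h] <;> norm_num
    exact_mod_cast this
  calc (1 : ℝ) ≤ ‖A.form j x y - (e : ℂ) * A.form i x y‖ := by rw [h1]; exact h2
    _ ≤ ‖A.form j x y‖ + ‖(e : ℂ) * A.form i x y‖ := norm_sub_le _ _
    _ = ‖A.form i x y‖ + ‖A.form j x y‖ := by rw [norm_mul, h3, one_mul, add_comm]

/-- Three distinct lines: a point cannot be close to all of them. -/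
theorem Arr.triple_bound {M : ℝ} (hM1 : 1 ≤ M) (hM : ∀ i j, |(A.lam i j : ℝ)| ≤ M)
    {p q s : Fin D} (hpq : p ≠ q) (hqs : q ≠ s) (hps : p ≠ s) (x y : ℂ) {t : ℝ}
    (hp : ‖A.form p x y‖ ≤ t) (hq : ‖A.form q x y‖ ≤ t) (hs : ‖A.form s x y‖ ≤ t) :
    1 ≤ 3 * M * t := by
  have ht : 0 ≤ t := (norm_nonneg _).trans hp
  have hcase : ∀ i j : Fin D, i ≠ j → A.lam i j = 0 → ‖A.form i x y‖ ≤ t →
      ‖A.form j x y‖ ≤ t → 1 ≤ 3 * M * t := by
    intro i j hij hl h1 h2
    have h3 := A.par_bound hij hl x y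
    nlinarith
  by_cases h1 : A.lam p q = 0
  · exact hcase p q hpq h1 hp hq
  -- the determinant
  set Δ : ℤ := A.lam q s * A.c p + A.lam s p * A.c q + A.lam p q * A.c s with hΔ
  have hdet : ∀ u v : ℂ, (A.lam q s : ℂ) * A.form p u v + (A.lam s p : ℂ) * A.form q u v +
      (A.lam p q : ℂ) * A.form s u v = (Δ : ℂ) := by
    intro u v
    rw [hΔ]
    unfold Arr.form Arr.lam
    push_cast
    ring
  have hΔ0 : Δ ≠ 0 := by
    intro h0
    obtain ⟨u, v, hu, hv⟩ := A.node p q h1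
    have hu' : A.form p (u : ℂ) (v : ℂ) = 0 := by unfold Arr.form; exact_mod_cast hu
    have hv' : A.form q (u : ℂ) (v : ℂ) = 0 := by unfold Arr.form; exact_mod_cast hv
    have h2 := hdet u v
    rw [hu', hv', h0] at h2
    have h3 : A.form s (u : ℂ) (v : ℂ) = 0 := by
      have h4 : (A.lam p q : ℂ) * A.form s (u : ℂ) (v : ℂ) = 0 := by simpa using h2
      rcases mul_eq_zero.1 h4 with h5 | h5
      · exact absurd (by exact_mod_cast h5) h1
      · exact h5
    exact A.gen p q s hpq hqs hps u v ⟨hu', hv', h3⟩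
  have h2 : (1 : ℝ) ≤ ‖(Δ : ℂ)‖ := by
    rw [Complex.norm_intCast]
    exact_mod_cast Int.one_le_abs hΔ0
  have hb : ∀ (i j k : Fin D), ‖A.form k x y‖ ≤ t → ‖(A.lam i j : ℂ) * A.form k x y‖ ≤ M * t := by
    intro i j k hk
    rw [norm_mul, Complex.norm_intCast]
    exact mul_le_mul (hM i j) hk (norm_nonneg _) (by linarith)
  calc (1 : ℝ) ≤ ‖(Δ : ℂ)‖ := h2
    _ = ‖(A.lam q s : ℂ) * A.form p x y + (A.lam s p : ℂ) * A.form q x y +
      (A.lam p q : ℂ) * A.form s x y‖ := by rw [hdet]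
    _ ≤ ‖(A.lam q s : ℂ) * A.form p x y‖ + ‖(A.lam s p : ℂ) * A.form q x y‖ +
      ‖(A.lam p q : ℂ) * A.form s x y‖ := norm_add₃_le
    _ ≤ M * t + M * t + M * t := by
        gcongr
        · exact hb _ _ _ hp
        · exact hb _ _ _ hq
        · exact hb _ _ _ hs
    _ = 3 * M * t := by ring

/-- Step (*): a nearby line not parallel to `j`. -/
theorem Arr.step {M : ℝ} (hM1 : 1 ≤ M) (hM : ∀ i j, |(A.lam i j : ℝ)| ≤ M) {x y : ℂ}
    (hne : ∀ i, A.form i x y ≠ 0)
    (ha : ∑ i, (A.a i : ℂ) / A.form i x y = 0) (hb : ∑ i, (A.b i : ℂ) / A.form i x y = 0)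
    (p j : Fin D) (hpj : A.lam p j ≠ 0) :
    ∃ q, q ≠ p ∧ A.lam q j ≠ 0 ∧ ‖A.form q x y‖ ≤ M * D * ‖A.form p x y‖ := by
  classical
  by_contra hcon
  push Not at hcon
  have hD : 0 < D := Fin.pos p
  have hDr : (0 : ℝ) < D := by exact_mod_cast hD
  have hstar : ∑ k, (A.lam k j : ℂ) / A.form k x y = 0 := by
    have h1 : ∀ k, (A.lam k j : ℂ) / A.form k x y =
        (A.b j : ℂ) * ((A.a k : ℂ) / A.form k x y) - (A.a j : ℂ) * ((A.b k : ℂ) / A.form k x y) := by
      intro k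
      unfold Arr.lam
      push_cast
      field_simp [hne k]
    rw [Finset.sum_congr rfl fun k _ => h1 k, Finset.sum_sub_distrib, ← Finset.mul_sum,
      ← Finset.mul_sum, ha, hb]
    simp
  have hlp : 0 < ‖A.form p x y‖ := norm_pos_iff.2 (hne p)
  rw [← Finset.add_sum_erase _ _ (Finset.mem_univ p)] at hstar
  have h2 : (A.lam p j : ℂ) / A.form p x y =
      -∑ k ∈ Finset.univ.erase p, (A.lam k j : ℂ) / A.form k x y := by
    linear_combination hstar
  have h3 : 1 / ‖A.form p x y‖ ≤ ‖(A.lam p j : ℂ) / A.form p x y‖ := by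
    rw [norm_div, Complex.norm_intCast]
    have : (1 : ℝ) ≤ |(A.lam p j : ℝ)| := by exact_mod_cast Int.one_le_abs hpj
    gcongr
  have h4 : ‖∑ k ∈ Finset.univ.erase p, (A.lam k j : ℂ) / A.form k x y‖ ≤
      ∑ k ∈ Finset.univ.erase p, 1 / (D * ‖A.form p x y‖) := by
    refine (norm_sum_le _ _).trans (Finset.sum_le_sum fun k hk => ?_)
    have hkp : k ≠ p := (Finset.mem_erase.1 hk).1
    by_cases hkj : A.lam k j = 0
    · rw [hkj]
      simp only [Int.cast_zero, zero_div, norm_zero]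
      positivity
    · have h5 := hcon k hkp hkj
      rw [norm_div, Complex.norm_intCast]
      have h6 : 0 < ‖A.form k x y‖ := norm_pos_iff.2 (hne k)
      rw [div_le_div_iff₀ h6 (by positivity), one_mul]
      calc |(A.lam k j : ℝ)| * (D * ‖A.form p x y‖) ≤ M * (D * ‖A.form p x y‖) := by
            gcongr; exact hM k j
        _ ≤ ‖A.form k x y‖ := by rw [← mul_assoc]; exact h5.le
  rw [Finset.sum_const, Finset.card_erase_of_mem (Finset.mem_univ p), Finset.card_univ,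
    Fintype.card_fin, nsmul_eq_mul, Nat.cast_sub (by omega : 1 ≤ D)] at h4
  have h7 : 1 / ‖A.form p x y‖ ≤ ((D : ℝ) - (1 : ℕ)) * (1 / (D * ‖A.form p x y‖)) := by
    refine h3.trans ?_
    rw [h2, norm_neg]
    exact h4
  have h8 : ((D : ℝ) - (1 : ℕ)) * (1 / (D * ‖A.form p x y‖)) < 1 / ‖A.form p x y‖ := by
    rw [mul_one_div, div_lt_div_iff₀ (by positivity) hlp]
    push_cast
    nlinarith
  exact absurd h7 (not_le.2 h8)

theorem Arr.smooth_affine : ∃ N₀ : ℕ, ∀ N : ℕ, N₀ ≤ N → ∀ x y : ℂ, A.OnCurve N x y →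
    ¬ (aeval ![x, y] (pderiv 0 (A.eqn N)) = 0 ∧ aeval ![x, y] (pderiv 1 (A.eqn N)) = 0) := by
  classical
  obtain ⟨i₀, j₀, h00⟩ := A.dir
  have hD : 0 < D := Fin.pos i₀
  have hDr : (1 : ℝ) ≤ D := by exact_mod_cast hD
  have : Nonempty (Fin D) := ⟨i₀⟩
  set M : ℝ := 1 + ∑ i, ∑ j, |(A.lam i j : ℝ)| with hMdef
  have hM : ∀ i j, |(A.lam i j : ℝ)| ≤ M := by
    intro i j
    have h1 : |(A.lam i j : ℝ)| ≤ ∑ j, |(A.lam i j : ℝ)| :=
      Finset.single_le_sum (f := fun j => |(A.lam i j : ℝ)|) (fun _ _ => abs_nonneg _)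
        (Finset.mem_univ j)
    have h2 : ∑ j, |(A.lam i j : ℝ)| ≤ ∑ i, ∑ j, |(A.lam i j : ℝ)| :=
      Finset.single_le_sum (f := fun i => ∑ j, |(A.lam i j : ℝ)|)
        (fun _ _ => Finset.sum_nonneg fun _ _ => abs_nonneg _) (Finset.mem_univ i)
    linarith
  have hM1 : 1 ≤ M := by
    have : 0 ≤ ∑ i, ∑ j, |(A.lam i j : ℝ)| :=
      Finset.sum_nonneg fun _ _ => Finset.sum_nonneg fun _ _ => abs_nonneg _
    linarith
  set κ : ℝ := 1 / (3 * M * (M * (D + 1))) with hκ
  have hκ0 : 0 < κ := by positivity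
  obtain ⟨N₀, hN₀⟩ := exists_nat_gt ((1 / κ) ^ D)
  refine ⟨N₀, fun N hN x y hc => ?_⟩
  rintro ⟨h0, h1⟩
  rw [A.aeval_pderiv_eqn hc] at h0 h1
  simp only [Matrix.cons_val_zero, Matrix.cons_val_one] at h0 h1
  have hne : ∀ i, A.form i x y ≠ 0 := hc.form_ne_zero
  obtain ⟨p, hp⟩ := Finite.exists_min fun i => ‖A.form i x y‖
  have hlp : 0 < ‖A.form p x y‖ := norm_pos_iff.2 (hne p)
  have hkey : κ ≤ ‖A.form p x y‖ := by
    obtain ⟨j, hj⟩ := A.exists_nonpar p
    obtain ⟨q, hqp, hqj, hq⟩ := A.step hM1 hM hne h0 h1 p j hj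
    have hpt : ‖A.form p x y‖ ≤ M * D * ‖A.form p x y‖ := by
      have : 1 ≤ M * D := by nlinarith
      nlinarith
    by_cases hpq : A.lam p q = 0
    · have h2 := A.par_bound hqp.symm hpq x y
      have h3 : 1 ≤ (M * (D + 1)) * ‖A.form p x y‖ := by nlinarith
      rw [hκ, div_le_iff₀ (by positivity)]
      have h4 : (M * (D + 1)) * ‖A.form p x y‖ ≤ ‖A.form p x y‖ * (3 * M * (M * (D + 1))) := by
        have h5 : (0 : ℝ) ≤ (M * (D + 1)) * ‖A.form p x y‖ := by positivity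
        nlinarith
      linarith
    · obtain ⟨s, hsp, hsq, hs⟩ := A.step hM1 hM hne h0 h1 p q hpq
      have hsq' : q ≠ s := by
        rintro rfl
        exact hsq (A.lam_self q)
      have h2 := A.triple_bound hM1 hM hqp.symm hsq' hsp.symm x y hpt hq hs
      rw [hκ, div_le_iff₀ (by positivity)]
      have h4 : 3 * M * (M * D * ‖A.form p x y‖) ≤ ‖A.form p x y‖ * (3 * M * (M * (D + 1))) := by
        have h5 : (0 : ℝ) ≤ 3 * M * M * ‖A.form p x y‖ := by positivity
        nlinarith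
      linarith
  have hprod : κ ^ D ≤ ∏ i, ‖A.form i x y‖ := by
    calc κ ^ D = ∏ _i : Fin D, κ := by simp
      _ ≤ ∏ i, ‖A.form i x y‖ :=
        Finset.prod_le_prod (fun _ _ => hκ0.le) fun i _ => hkey.trans (hp i)
  have hnorm : (N : ℝ) * ∏ i, ‖A.form i x y‖ = 1 := by
    have h2 : ‖(N : ℂ) * ∏ i, A.form i x y‖ = 1 := by
      have := hc
      unfold Arr.OnCurve at this
      rw [this, norm_one]
    rw [norm_mul, norm_prod, Complex.norm_natCast] at h2
    exact h2
  have hNr : (1 / κ) ^ D < N := hN₀.trans_le (by exact_mod_cast hN)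
  have h5 : 1 < (N : ℝ) * κ ^ D := by
    rw [one_div, inv_pow, inv_lt_iff_one_lt_mul₀ (by positivity)] at hNr
    rw [mul_comm]; linarith
  have h6 : (N : ℝ) * κ ^ D ≤ 1 := by
    rw [← hnorm]
    gcongr
  linarith

end

end P4a177b
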