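import Pool.Agent.Lib.P4a177b.K2

/-!
# The tame symbol as a homomorphism on K_2
-/

namespace P4a177b

open scoped TensorProduct
open WithZero

noncomputable section

variable {K : Type*} [Field K]

theorem ordv_pos_iff (v : Valuation K ℤᵐ⁰) (a : Kˣ) : 0 < ordv v a ↔ v (a : K) < 1 := by
  unfold ordv
  rw [← log_lt_log (x := v (a : K)) (y := 1) (by simp) one_ne_zero, log_one]
  constructor <;> intro h <;> linarith

theorem ordv_nonneg_iff (v : Valuation K ℤᵐ⁰) (a : Kˣ) : 0 ≤ ordv v a ↔ v (a : K) ≤ 1 := by
  unfold ordv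
  rw [← log_le_log (x := v (a : K)) (y := 1) (by simp) one_ne_zero, log_one]
  constructor <;> intro h <;> linarith

theorem ordv_neg_iff (v : Valuation K ℤᵐ⁰) (a : Kˣ) : ordv v a < 0 ↔ 1 < v (a : K) := by
  rw [← not_le, ordv_nonneg_iff, not_le]

theorem ordv_eq_iff (v : Valuation K ℤᵐ⁰) (a b : Kˣ) :
    ordv v a = ordv v b ↔ v (a : K) = v (b : K) := by
  unfold ordv
  constructor
  · intro h
    have h1 : log (v (a : K)) = log (v (b : K)) := by linarith
    rw [← exp_log (x := v (a : K)) (by simp), h1, exp_log (by simp)]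
  · intro h
    rw [h]

theorem ordv_le_iff (v : Valuation K ℤᵐ⁰) (a b : Kˣ) :
    ordv v a ≤ ordv v b ↔ v (b : K) ≤ v (a : K) := by
  unfold ordv
  rw [← log_le_log (x := v (b : K)) (y := v (a : K)) (by simp) (by simp)]
  constructor <;> intro h <;> linarith

/-- Principal units: order zero. -/
theorem ordv_of_principal (v : Valuation K ℤᵐ⁰) (a : Kˣ) (h : v ((a : K) - 1) < 1) :
    ordv v a = 0 := by
  rw [ordv_eq_zero_iff]
  have h1 : (a : K) = 1 + ((a : K) - 1) := by ring
  rw [h1]
  exact Valuation.map_one_add_of_lt v h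

theorem resUnit_one (v : Valuation K ℤᵐ⁰) : resUnit v 1 (ordv_one v) = 1 := by
  apply resUnit_eq_one
  simp

theorem resUnit_inv (v : Valuation K ℤᵐ⁰) (a : Kˣ) (ha : ordv v a = 0) (ha' : ordv v a⁻¹ = 0) :
    resUnit v a⁻¹ ha' = (resUnit v a ha)⁻¹ := by
  unfold resUnit
  rw [← map_inv]
  rfl

theorem resUnit_zpow (v : Valuation K ℤᵐ⁰) (a : Kˣ) (ha : ordv v a = 0) (n : ℤ)
    (hn : ordv v (a ^ n) = 0) : resUnit v (a ^ n) hn = (resUnit v a ha) ^ n := by
  unfold resUnit
  rw [← map_zpow]
  rfl

/-- The tame symbol of a pair of units is trivial. -/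
theorem tameFun_of_units (v : Valuation K ℤᵐ⁰) (a b : Kˣ) (ha : ordv v a = 0)
    (hb : ordv v b = 0) : tameFun v a b = 0 := by
  unfold tameFun
  have h : tameElt v a b = 1 := by
    unfold tameElt
    rw [ha, hb]
    simp
  rw [resUnit_congr v h (ordv_tameElt v a b) (ordv_one v), resUnit_one]
  rfl

/-- The tame symbol with a unit on the right. -/
theorem tameFun_unit_right (v : Valuation K ℤᵐ⁰) (a b : Kˣ) (hb : ordv v b = 0) :
    tameFun v a b = -(ordv v a • Additive.ofMul (resUnit v b hb)) := by
  unfold tameFun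
  have h : tameElt v a b = (b ^ (ordv v a))⁻¹ := by
    unfold tameElt
    rw [hb]
    simp
  have h0 : ordv v (b ^ ordv v a) = 0 := by rw [ordv_zpow, hb, mul_zero]
  have h0' : ordv v (b ^ ordv v a)⁻¹ = 0 := by rw [ordv_inv, h0, neg_zero]
  rw [resUnit_congr v h (ordv_tameElt v a b) h0', resUnit_inv v _ h0, resUnit_zpow v b hb,
    ofMul_inv, ofMul_zpow]

/-- The tame symbol with a unit on the left. -/
theorem tameFun_unit_left (v : Valuation K ℤᵐ⁰) (a b : Kˣ) (ha : ordv v a = 0) :
    tameFun v a b = ordv v b • Additive.ofMul (resUnit v a ha) := by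
  unfold tameFun
  have h : tameElt v a b = a ^ (ordv v b) := by
    unfold tameElt
    rw [ha]
    simp
  have h0 : ordv v (a ^ ordv v b) = 0 := by rw [ordv_zpow, ha, mul_zero]
  rw [resUnit_congr v h (ordv_tameElt v a b) h0, resUnit_zpow v a ha, ofMul_zpow]

theorem tameFun_principal_right (v : Valuation K ℤᵐ⁰) (a b : Kˣ) (h : v ((b : K) - 1) < 1) :
    tameFun v a b = 0 := by
  rw [tameFun_unit_right v a b (ordv_of_principal v b h), resUnit_eq_one v b _ h]
  simp

theorem tameFun_principal_left (v : Valuation K ℤᵐ⁰) (a b : Kˣ) (h : v ((a : K) - 1) < 1) :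
    tameFun v a b = 0 := by
  rw [tameFun_unit_left v a b (ordv_of_principal v a h), resUnit_eq_one v a _ h]
  simp

theorem tameFun_steinberg (v : Valuation K ℤᵐ⁰) (a b : Kˣ) (hab : (a : K) + (b : K) = 1) :
    tameFun v a b = 0 := by
  have hb : (b : K) = 1 - a := by rw [← hab]; ring
  have ha : (a : K) = 1 - b := by rw [← hab]; ring
  rcases lt_trichotomy (v (a : K)) 1 with h | h | h
  · apply tameFun_principal_right
    rw [hb, show (1 : K) - a - 1 = -a by ring, Valuation.map_neg]
    exact h
  · rcases lt_trichotomy (v (b : K)) 1 with h' | h' | h'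
    · apply tameFun_principal_left
      rw [ha, show (1 : K) - b - 1 = -b by ring, Valuation.map_neg]
      exact h'
    · exact tameFun_of_units v a b ((ordv_eq_zero_iff v a).2 h) ((ordv_eq_zero_iff v b).2 h')
    · exfalso
      have : v (b : K) ≤ 1 := by
        rw [hb]
        refine (Valuation.map_sub v 1 (a : K)).trans ?_
        rw [h, map_one, max_self]
      exact absurd h' (not_lt.2 this)
  · -- both have a pole
    have h1 : v (b : K) = v (a : K) := by
      rw [hb, Valuation.map_sub_swap]
      exact Valuation.map_sub_eq_of_lt_left v (by rw [map_one]; exact h)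
    have hord : ordv v b = ordv v a := (ordv_eq_iff v b a).2 h1
    have hne : ordv v (-(a / b)) = 0 := by
      rw [ordv_neg, div_eq_mul_inv, ordv_mul, ordv_inv, hord]
      ring
    have hprin : v (((-(a / b) : Kˣ) : K) - 1) < 1 := by
      have : ((-(a / b) : Kˣ) : K) - 1 = -(b : K)⁻¹ := by
        rw [Units.val_neg, Units.val_div_eq_div_val, ha]
        field_simp
        ring
      rw [this, Valuation.map_neg, map_inv₀, h1]
      exact inv_lt_one_of_one_lt₀ h
    have h : tameElt v a b = (-(a / b)) ^ (ordv v a) := by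
      unfold tameElt
      rw [hord]
      have e1 : ((-1 : Kˣ)) ^ (ordv v a * ordv v a) = (-1) ^ (ordv v a) := by
        rcases Int.even_or_odd (ordv v a) with he | ho
        · rw [Even.neg_one_zpow he, Even.neg_one_zpow (he.mul_left _)]
        · rw [Odd.neg_one_zpow ho, Odd.neg_one_zpow (ho.mul ho)]
      rw [e1, ← mul_zpow, ← inv_zpow, ← mul_zpow]
      congr 1
      rw [div_eq_mul_inv, neg_one_mul, neg_mul]
    unfold tameFun
    have h0 : ordv v ((-(a / b)) ^ (ordv v a)) = 0 := by rw [ordv_zpow, hne, mul_zero]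
    rw [resUnit_congr v h (ordv_tameElt v a b) h0, resUnit_zpow v _ hne,
      resUnit_eq_one v _ hne hprin, one_zpow]
    rfl

/-- The tame symbol at a discrete valuation `v`, as a homomorphism from `K₂(K)` to the
multiplicative group of the residue field (written additively). -/
def tame (v : Valuation K ℤᵐ⁰) :
    K2 K →+ Additive (IsLocalRing.ResidueField v.valuationSubring)ˣ :=
  liftK2 (tameFun v) (tameFun_mul_left v) (tameFun_mul_right v) (tameFun_steinberg v)

theorem tame_symb (v : Valuation K ℤᵐ⁰) (a b : Kˣ) : tame v (symb a b) = tameFun v a b := rfl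

/-- An element of `K₂(K)` is unramified at `v`, up to torsion. -/
def UnramAt (v : Valuation K ℤᵐ⁰) (x : K2 K) : Prop := IsOfFinAddOrder (tame v x)

/-- An element of `K₂(K)` is integral if its tame symbol at every discrete valuation of `K` is a
torsion element, i.e. a root of unity in the residue field. -/
def Integral (x : K2 K) : Prop := ∀ v : Valuation K ℤᵐ⁰, UnramAt v x

end

end P4a177b
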